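import Pool.Agent.H99.D2.Pye
import Pool.Agent.H31.W.H18.PN.Pzs
import Pool.Agent.H3.W.Bas
import Pool.Agent.H31.W1.H91.FR.QpG

/-!
# Jointly nonfull pairs of any radius: the data and the supply

`pzR a R₁`, `pzU a R₁`: the radius and the distance of the windows of the pair, if the last natural window
is `t - R₁ q`. `PairE`: `PairD` with the radius `R q`. `PairYE`: `PairY` with them.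
-/

set_option autoImplicit false

namespace Pool.W.CR99

open Pool.CR99

open Finset Real MvPolynomial
open Pool.Agent.H49.Ent Pool.Agent.H32.Dense Pool.STK Pool.KA Pool.KSAT Pool.K2S Pool.PB
open Pool.GEN Pool.S6C Pool.STAT Pool.CHT Pool.GRW Pool.ONE Pool.STA Pool.PKG
open Pool.LA91 (FaQ sumQ qJets qJet ChG ojet)
open Pool.OWN68 (F1)
open Pool.RCD (vg)
open Pool.AJW Pool.PN18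


/-- **Jointly nonfull pairs at all scales of the record**, in a subclass, the last natural window is
`t - R₁ q`: `PairY` with the radius `pzR (Sl r) R₁ q` and the window `t - pzU (Sl r) R₁ q`. -/
def PairYE (m r : ℕ) (h : ℝ) (Sl : ℕ → ℝ) (κ : ℕ → Pool.PKG.Kg) {ι Λ : Type} (Q : Pool.PKG.PropG m ι)
    (Z : Pool.PKG.PropZ m Λ) (Y : Pool.PKG.PropY m) (R₁ : ℝ) : Prop :=
  ∀ al : ℝ, 0 < al → ∀ K₀ : ℝ, 0 < K₀ → ∀ S₀ : ℕ, 1 ≤ S₀ →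
  ∃ (Kr : ℝ) (Nr : ℕ) (Ar Vr : ℕ → ℝ), 1 ≤ Kr ∧ (∀ k < Nr, -Kr ≤ Vr k ∧ Vr k ≤ Ar k ∧ Ar k ≤ Kr) ∧
  ∀ S₂ : ℕ, S₀ ≤ S₂ → ∀ dd : ℝ, 0 < dd →
  ∃ (K : ℕ) (h' D : ℝ), 0 < h' ∧ h' ≤ Sl r ∧ h' ≤ Sl (r + 1) ∧
  ∀ δ : ℝ, 0 < δ → ∀ N₀ : ℕ, 0 < N₀ →
  ∃ X₀ : ℝ, ∀ X : ℝ, X₀ ≤ X → ∃ φ₀ kf₀ : ℝ, 0 < φ₀ ∧ ∀ φ : ℝ, 0 < φ → φ ≤ φ₀ → ∀ kf : ℝ, kf₀ ≤ kf →
  ∃ ℓ₀ : ℝ, ∀ ℓ : ℝ, ℓ₀ ≤ ℓ → ∀ e₁ : ℝ, 0 < e₁ →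
  ∃ (lam : Λ) (K₁ : ℝ) (Nv : ℕ) (Vv : ℕ → ℝ), (∀ j < Nv, -K₁ ≤ Vv j ∧ Vv j ≤ K₁) ∧
  ∀ K' : ℝ, K₁ ≤ K' →
  ∃ ε₀ : ℝ, 0 < ε₀ ∧ ∀ ε : ℝ, 0 < ε → ε ≤ ε₀ →
  ∀ (S : Pool.PB.PCl m) (g₀ : ℝ → ℝ) (P : List (Fin m) × Fin m → ℝ → ℝ → ℝ)
    (θ : ℝ) (P₂ : ℕ → List (Fin m) × Fin m → ℝ → ℝ → ℝ) (θ₂ Eb e₂ : ℕ → ℝ) (c : ℕ → Fin m)
    (Pt : ℝ → ℝ → ℝ) (rt : ℝ → ℝ) (L T : ℕ → ℝ → ℝ → ℝ) (G : Set ℝ) (g : ℝ),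
    IsClosed G → g ∈ G → (∀ l < m, HasDerivAt (fun x => L l x x) (Sl l) g) →
    Z lam S P θ c Pt rt L T κ G g →
    ∃ (p : ℕ → ι) (M : ℕ) (B₀ B₁ : ℕ → ℝ),
    (∀ j < M, B₀ j < B₁ j) ∧ ∀ k₀ : ℕ → ℕ, (∀ j < M, Q (p j) (k₀ j) S P θ c Pt rt L T κ G g) →
    ∃ q₁ : ℝ, 0 < q₁ ∧ ∀ (q t : ℝ) (x : ℕ → ℝ),
      q < q₁ → (∀ j < M, x j ∈ G ∧ t + B₀ j * q ≤ x j ∧ x j ≤ t + B₁ j * q ∧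
        Q (p j) (k₀ j) S P θ c Pt rt L T κ G (x j)) →
      ∀ (N : ℕ) (A V : ℕ → ℝ) (N' : ℕ) (V' : ℕ → ℝ),
      Pool.W.PKG.RecG S al g₀ P θ P₂ θ₂ Eb e₂ c Pt rt h K₀ g L T Sl κ G S₀ N A V S₂ N' V' K' ε q t →
      (∀ k < Nr, ∃ j < N, A j = Ar k ∧ V j = Vr k) → (∀ k < Nv, ∃ j < N', V' j = Vv k) →
      ∀ (pf : ℕ → ℝ) (pr : ℝ) (Nf : ℕ → ℕ → ℝ),
      (∀ l < r, L l t t - φ * q ≤ pf l ∧ pf l ≤ L l t t) →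
      L r t t - φ * q ≤ pr → pr ≤ L r t t →
      (∀ l < r, ∀ j ≤ 1, Nf l j = L l t t + kf * q - (j : ℕ) * t) →
      Y dd S c L q t pf pr Nf →
      ∃ S' : Pool.PB.PCl m, S'.Ne ∧
        (∀ (τ : ℝ) (J : ℕ) (F : Pool.KA.Fam m J) (A : F.Ω → Prop), S'.St τ J F A → S.St τ J F A) ∧
        ∃ (Ψ : Pool.PN18.Fm2 m) (I₂ : Finset (Fin m)) (e E₂ r₂ p₂ m₁ ρ : ℝ) (E rd : ℕ → ℝ)
          (vn Pn En Rn : ℝ) (K₁ : ℕ), 0 < e ∧ e ≤ e₁ * q ∧ 3 ^ r * X * q < m₁ ∧ ρ < 1 ∧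
          (∀ i ≤ r, 0 ≤ E i ∧
            L i (t + -Pool.CR99.pzU (Sl r) R₁ * q) (t + -Pool.CR99.pzU (Sl r) R₁ * q) + E i + m₁ ≤ 1 ∧
            0 ≤ rd i ∧ rd i ≤ ρ) ∧
          t + -Pool.CR99.pzU (Sl r) R₁ * q - D * q ≤ vn ∧
          Pool.CR99.PairE S' Ψ c r K I₂ (c (r + 1)) (Sl r) (Sl (r + 1)) (Pool.CR99.pzR (Sl r) R₁) h' δ (ℓ * q) N₀
            (t + -Pool.CR99.pzU (Sl r) R₁ * q) t q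
            (fun i => L i (t + -Pool.CR99.pzU (Sl r) R₁ * q) (t + -Pool.CR99.pzU (Sl r) R₁ * q))
            (Pool.AJW.nX r (fun l x => L l x x) (t + -Pool.CR99.pzU (Sl r) R₁ * q) (X * q)) (fun x => L (r + 1) x x)
            pf Nf e E₂ r₂ p₂ E rd vn Pn En Rn K₁

/-- **The first jet of the place** `r` from jointly nonfull pairs with the last natural window `t - R₁ q`
(the statement). -/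
def F1PE (m r : ℕ) : Prop := ∀ {h : ℝ} {Sl : ℕ → ℝ} {κ : ℕ → Pool.PKG.Kg} {R₁ : ℝ}, 0 ≤ R₁ →
    (∀ l < r, κ l = .one) → 1 < Sl r → 0 < Sl (r + 1) →
    (∀ i : ℕ, 1 ≤ i → i ≤ ⌊Sl r⌋₊ → ∀ j : ℕ, 1 ≤ j → j ≤ ⌊Sl (r + 1)⌋₊ →
      (i : ℝ) * Sl (r + 1) ≠ j * Sl r) → ∀ {ι Λ : Type} {Q : Pool.PKG.PropG m ι} {Z : Pool.PKG.PropZ m Λ}
    {Y : Pool.PKG.PropY m}, Pool.W.CR99.PairYE m r h Sl κ Q Z Y R₁ → Pool.W.PKG.F1UY m r h Sl κ (Pool.LA91.sumQ Q Pool.W.LA91.FaQ) Z Y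

end Pool.W.CR99
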