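import Pool.Agent.H99.D2.Blf
import Pool.Agent.H31.W.H73.D2.Tme
import Pool.Agent.H31.W1.H2.GEN.EvS

/-!
# The velocity of the path of the slopes, in a class

`AlvS`: the velocity of `u = c r` is alive over the exact base. `vls_deep`: `VlS` from a deep window,
`vls_scl`: by scaling from an earlier window.
-/

set_option autoImplicit false

namespace Pool.W.CR99

open Pool.CR99

open Finset Real MvPolynomial
open Pool.Agent.H49.Ent Pool.Agent.H32.Dense Pool.STK Pool.KA Pool.KSAT Pool.K2S Pool.PB Pool.S6C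
open Pool.GEN Pool.CHT Pool.CHX Pool.ISO Pool.D2R Pool.D2G30 Pool.V1E
open Pool.FLF (Fam.sub)
open Pool.PB.Trl (rt rt_mem t_rt)

variable {m : ℕ}


section

variable {c : ℕ → Fin m} {r D Dr N N₂ : ℕ} {R : ℕ → Prop} {C a Eb ε₀ η₀ : ℝ}
  {Pt : ℝ → ℝ → ℝ} {o : ℕ → ℝ} {lv be : ℕ → ℕ → ℝ} {b : ℕ → ℕ → ℝ}

/-- The windows, in a class. -/
def WgS (S : Pool.PB.PCl m) (c : ℕ → Fin m) (r D Dr N N₂ : ℕ) (R : ℕ → Prop) (C a Eb ε₀ η₀ : ℝ)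
    (Pt : ℝ → ℝ → ℝ) (o : ℕ → ℝ) (lv be b : ℕ → ℕ → ℝ) (K₁ : ℝ) : Prop :=
  ∀ κ : ℝ, 0 < κ → Pool.S6C.Bas S (fun J F A =>
    ∃ (B : F.Ω → Prop) (z gc gT g₀ : ℕ → ℕ → ℕ)
      (G : ℕ → Pool.GEN.PtT F → ℕ → MvPolynomial (Option (Fin m)) ℝ)
      (H : ℕ → Pool.GEN.LnT F → ℕ → MvPolynomial (Option (Fin m)) ℝ)
      (T : ℕ → Pool.GEN.PtT F → ℕ → MvPolynomial (Option (Fin m)) ℝ)
      (TH : ℕ → Pool.GEN.LnT F → ℕ → MvPolynomial (Option (Fin m)) ℝ)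
      (Gt : ℕ → Pool.GEN.PtT F → MvPolynomial (Option (Fin m)) ℝ)
      (Ht : ℕ → Pool.GEN.LnT F → MvPolynomial (Option (Fin m)) ℝ), Pool.K2S.Sub B A ∧
      Pool.K2S.Pe F.p A ≤ K₁ * Pool.K2S.Pe F.p B ∧
      Pool.W.V1E.WG c (r + 1) D Dr N N₂ R C a Eb ε₀ η₀ Pt o lv be F b κ z B gc gT g₀ G H T TH Gt Ht)

end


end Pool.W.CR99
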