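import Pool.Agent.H99.D2.Rga
import Pool.Agent.H31.W.H3.D2G.RecN
import Pool.Agent.H31.W.H99.D2.Blf
import Pool.Agent.H3.W.Bas
import Pool.Agent.H31.W1.H2.GEN.ChT

/-!
# The closed slope at the windows of a record

`wgs_rec`: the windows with rows of a record, as data of a class. `blx_deep`, `blx_scl`: the closed slope
`BlX` from the aliveness of the velocity of `u = c r` at one window.
-/

set_option autoImplicit false

namespace Pool.W.CR99

open Pool.CR99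

open Finset Real MvPolynomial
open Pool.Agent.H49.Ent Pool.Agent.H32.Dense Pool.STK Pool.KA Pool.KSAT Pool.K2S Pool.PB Pool.S6C
open Pool.GEN Pool.CHT Pool.CHX Pool.ISO Pool.D2R Pool.D2G30 Pool.V1E Pool.PKG
open Pool.LBT (ThrOf)
open Pool.LEV (Law)

/-- The windows with rows of a record. -/
theorem wgs_rec (m r S₂ : ℕ) (hS₂ : 1 ≤ S₂) : ∃ D : ℕ, 1 ≤ D ∧ ∀ Dr : ℕ, D ≤ Dr →
    ∃ C : ℝ, 1 ≤ C ∧ ∀ {S : Pool.PB.PCl m} {al : ℝ} {g₀ : ℝ → ℝ}
    {P : List (Fin m) × Fin m → ℝ → ℝ → ℝ} {θ : ℝ}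
    {P₂ : ℕ → List (Fin m) × Fin m → ℝ → ℝ → ℝ} {θ₂ Eb e₂ : ℕ → ℝ} {c : ℕ → Fin m}
    {Pt : ℝ → ℝ → ℝ} {rr : ℝ → ℝ} {h K₀ g : ℝ} {L T : ℕ → ℝ → ℝ → ℝ} {Sl : ℕ → ℝ}
    {κ : ℕ → Pool.PKG.Kg} {G : Set ℝ} {S₀ N : ℕ} {A V : ℕ → ℝ} {N' : ℕ} {V' : ℕ → ℝ} {K ε q t : ℝ},
    Pool.W.PKG.RecG S al g₀ P θ P₂ θ₂ Eb e₂ c Pt rr h K₀ g L T Sl κ G S₀ N A V S₂ N' V' K ε q t →
    r + 1 < m → 0 ≤ ε → ∀ {a η : ℝ} {W : ℕ → ℝ} {n : ℕ},
    (∀ k ≤ n, ∃ j < N, A j = a ∧ V j = W k) → (∀ k ≤ n, -K + 1 ≤ W k ∧ W k + 1 ≤ a) → a ≤ K →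
    0 < η → 3 * C * ε < η → 4 * (C * η) ≤ 1 →
    ∃ (K₁ : ℝ) (b : ℕ → ℕ → ℝ), 0 < K₁ ∧
      Pool.W.CR99.WgS S c r D Dr n n (fun l => κ l = .one ∨ κ l = .thin) C (t + a * q) (Eb (r + 1))
        (3 * ε * q) (η * q) (L (r + 1)) (fun k => t + W k * q)
        (fun k l => Pool.ISO.lvN P c (r + 1) (L (r + 1)) l (t + W k * q) (t + W k * q))
        (fun k l => Pool.CHT.bet P c l (t + a * q) (t + W k * q)) b K₁ := by
  obtain ⟨D, hD, hw⟩ := Pool.W.V1E.wg_con m (r + 1) S₂ (by omega) hS₂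
  refine ⟨D, hD, fun Dr hDr => ?_⟩
  obtain ⟨C, hC, hw⟩ := hw Dr hDr
  refine ⟨C, hC, ?_⟩
  intro S al g₀ P θ P₂ θ₂ Eb e₂ c Pt rr h K₀ g L T Sl κ G S₀ N A V N' V' K ε q t Rc hr hε a η W n
    hW hWb haK hη hεη hCη
  have hq := Rc.q0
  have ht0 := Rc.t0
  have ht1 := Rc.t1
  have Tg := Rc.tg (r + 1) (by omega) hr
  have hlv : ∀ l ≤ r + 1, ∀ x y : ℝ, Pool.ISO.lvN P c (r + 1) (L (r + 1)) l x y = L l x y :=
    fun l hl x y => by rw [← Rc.lv_at hr hl]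
  have hC0 : 0 < C := by linarith
  have hCηq : 4 * (C * (η * q)) ≤ q := by
    have := mul_le_mul_of_nonneg_right hCη hq.le
    linarith
  have hηC : η * q ≤ C * (η * q) := le_mul_of_one_le_left (by positivity) hC
  have hηq : 0 < η * q := by positivity
  have hWq : ∀ k ≤ n, -(K * q) + q ≤ W k * q ∧ W k * q + q ≤ a * q := fun k hk => by
    have h1 := mul_le_mul_of_nonneg_right (hWb k hk).1 hq.le
    have h2 := mul_le_mul_of_nonneg_right (hWb k hk).2 hq.le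
    constructor <;> linarith
  have haq : a * q ≤ K * q := mul_le_mul_of_nonneg_right haK hq.le
  have hWx : ∀ k ≤ n, |t + W k * q - t| ≤ K * q := fun k hk => by
    obtain ⟨h1, h2⟩ := hWq k hk
    rw [abs_le]
    constructor <;> linarith
  have hax : ∀ k ≤ n, |t + a * q - t| ≤ K * q := fun k hk => by
    obtain ⟨h1, h2⟩ := hWq k hk
    rw [abs_le]
    constructor <;> linarith
  obtain ⟨K₁, b, hK₁, hb⟩ := hw (S := S) (P := P) (θ := θ) (c := c) (Pt := L (r + 1))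
    (R := fun l => κ l = .one ∨ κ l = .thin) (a := t + a * q) (Eb := Eb (r + 1))
    (ε₀ := 3 * ε * q) (η₀ := η * q) (o := fun k => t + W k * q) n n le_rfl Rc.thr Rc.th0 Rc.tmh
    (Rc.inj.mono fun x hx => by
      rw [Set.mem_Iio] at hx ⊢
      omega) (Rc.lawL _ hr) Tg.Eb0.le (fun k hk => by
      obtain ⟨j, hj, hA, hV⟩ := hW k hk
      have h1 := Rc.winD (i := r + 1) (by omega) hr hj (by rw [hV]; linarith [(hWb k hk).1])
        (by rw [hA, hV]; linarith [(hWb k hk).2]) (by rw [hA]; exact haK) (ε' := 3 * ε * q) le_rfl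
        hε (Rg := fun l => κ l = .one ∨ κ l = .thin) (fun l _ h => h)
      rw [hA, hV] at h1
      exact h1) (fun k h1 h2 => absurd h2 (by omega)) (by
      have := mul_lt_mul_of_pos_right hεη hq
      linarith) (fun k hk => by
      obtain ⟨h1, h2⟩ := hWq k hk
      have h3 : 0 ≤ t + W k * q := by linarith
      have h4 := Rc.low_at hr (a := t + a * q) (w := t + W k * q) h3 (by linarith) (by linarith)
      have h5 := Rc.low_at hr (a := t + W k * q) (w := t + W k * q) h3 le_rfl (by linarith)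
      rw [hlv _ le_rfl]
      refine ⟨by linarith, by linarith, by linarith⟩) (fun k hk => by
      obtain ⟨h1, h2⟩ := hWq k hk
      linarith) (by linarith) (fun k hk l hl => by
      obtain ⟨h1, h2⟩ := hWq k hk
      have h3 := Tg.room l hl _ (hWx k hk)
      rw [hlv l hl]
      linarith) (fun k hk l hl => by
      obtain ⟨h1, h2⟩ := hWq k hk
      have h3 := Tg.room l hl.le _ (hax k hk)
      rw [Rc.lv_lt (l := l) (by omega)] at h3
      have h4 : Pool.CHT.bet P c l (t + a * q) (t + W k * q) ≤ Pool.CHT.bet P c l (t + a * q) (t + a * q) :=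
        (Rc.thr.law _).mono_w _ _ _ (by linarith) (by linarith) le_rfl (by linarith)
      linarith)
  exact ⟨K₁, b, hK₁, hb⟩


/-- **The level of the rows** of a steep or static coordinate at a base window. -/
theorem RecG.row_ge {m : ℕ} {S : Pool.PB.PCl m} {al : ℝ} {g₀ : ℝ → ℝ}
    {P : List (Fin m) × Fin m → ℝ → ℝ → ℝ} {θ : ℝ}
    {P₂ : ℕ → List (Fin m) × Fin m → ℝ → ℝ → ℝ} {θ₂ Eb e₂ : ℕ → ℝ} {c : ℕ → Fin m}
    {Pt : ℝ → ℝ → ℝ} {rr : ℝ → ℝ} {h K₀ g : ℝ} {L T : ℕ → ℝ → ℝ → ℝ} {Sl : ℕ → ℝ}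
    {κ : ℕ → Pool.PKG.Kg} {G : Set ℝ} {S₀ N : ℕ} {A V : ℕ → ℝ} {S₂ N' : ℕ} {V' : ℕ → ℝ} {K ε q t : ℝ}
    (Rc : Pool.W.PKG.RecG S al g₀ P θ P₂ θ₂ Eb e₂ c Pt rr h K₀ g L T Sl κ G S₀ N A V S₂ N' V' K ε q t)
    {i : ℕ} (hi : i < m) (hκ : κ i = .stp ∨ κ i = .sta) (hε : 0 ≤ ε) {a w₀ w : ℝ}
    (hj : ∃ j < N, A j = a ∧ V j = w₀) (hw₀ : -K ≤ w₀) (hw : -K ≤ w) (hw₀a : w₀ ≤ a) (hwa : w ≤ a)
    (haK : a ≤ K) (hb : (Sl i - 1) * (w - w₀) ≤ a - w₀) :
    L i (t + w * q) (t + w * q) + (t + a * q - (t + w * q)) ≤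
      L i (t + a * q) (t + w₀ * q) + 4 * ε * q := by
  have hq := Rc.q0
  have hεq : 0 ≤ ε * q := mul_nonneg hε hq.le
  have m1 : -(K * q) ≤ w₀ * q := by
    have := mul_le_mul_of_nonneg_right hw₀ hq.le
    linarith
  have m2 : -(K * q) ≤ w * q := by
    have := mul_le_mul_of_nonneg_right hw hq.le
    linarith
  have m3 : w * q ≤ a * q := mul_le_mul_of_nonneg_right hwa hq.le
  have m5 : w₀ * q ≤ a * q := mul_le_mul_of_nonneg_right hw₀a hq.le
  have m4 : a * q ≤ K * q := mul_le_mul_of_nonneg_right haK hq.le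
  have bx : ∀ y : ℝ, -(K * q) ≤ y * q → y * q ≤ a * q → |t + y * q - t| ≤ K * q :=
    fun y h1 h2 => by
    rw [abs_le]
    constructor <;> linarith
  have d1 := abs_le.1 (Rc.dL i hi _ (bx w m2 m3))
  have e1 : t + w * q - t = w * q := by ring
  rw [e1] at d1
  have hk := Rc.kd i hi
  rcases hκ with h1 | h1
  · rw [h1] at hk
    have k1 := hk.2 (t + a * q) (t + w₀ * q) (by linarith) (by linarith) (by linarith)
    obtain ⟨j, hj, hA, hV⟩ := hj
    have k2 := (Rc.TL j hj i hi).1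
    rw [hA, hV] at k2
    have k3 := abs_le.1 (Rc.dT i hi _ (bx w₀ m1 m5))
    have e2 : t + w₀ * q - t = w₀ * q := by ring
    rw [e2] at k3
    have k4 := mul_le_mul_of_nonneg_right hb hq.le
    have k5 : (Sl i - 1) * (w - w₀) * q = Sl i * (w * q) - Sl i * (w₀ * q) - w * q + w₀ * q := by
      ring
    have k6 : (a - w₀) * q = a * q - w₀ * q := by ring
    linarith [k3.1, d1.2]
  · rw [h1] at hk
    have k1 := hk.2 (t + a * q) (t + w₀ * q) (by linarith) (by linarith) (by linarith)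
    have k3 := abs_le.1 (Rc.dL i hi _ (bx a (m2.trans m3) le_rfl))
    have e2 : t + a * q - t = a * q := by ring
    rw [e2] at k3
    have k4 : a * q - w * q ≤ Sl i * (a * q - w * q) :=
      le_mul_of_one_le_left (by linarith) (by linarith [hk.1])
    have k5 : Sl i * (a * q - w * q) = Sl i * (a * q) - Sl i * (w * q) := by ring
    linarith [k3.1, d1.2]


end Pool.W.CR99
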