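import Pool.Agent.H99.D2.Blc
import Pool.Agent.H31.W.H73.D2.Tme
import Pool.Agent.H3.W.Nlp
import Pool.Agent.H31.W1.H2.GEN.EvS
import Pool.Agent.H31.W1.H80.GEN.Chn

/-!
# The closed constant from windows with rows, on one event

`wg_near`: the derivative of the row label against the one of the charts, at the samples. `blf_ev`: the
closed constant. `blf_lab`: the blind label.
-/

set_option autoImplicit false

namespace Pool.W.CR99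

open Pool.CR99

open Finset Real MvPolynomial
open Pool.Agent.H49.Ent Pool.Agent.H32.Dense Pool.STK Pool.KA Pool.KSAT Pool.K2S Pool.PB Pool.S6C
open Pool.GEN Pool.CHT Pool.CHX Pool.ISO Pool.D2R Pool.D2G30 Pool.V1E
open Pool.FLF (Fam.sub)
open Pool.PB.Trl (rt rt_mem t_rt)
open Pool.GRD (LbP)
open Pool.BFL (Pb)
open Pool.ALT (BlC BlB sbu sbu_eval sbu_deg sbu_dep DpI Upg)


section ev

variable {m : ℕ} {c : ℕ → Fin m} {r D Dr N N₂ : ℕ} {R : ℕ → Prop} {C a Eb ε₀ η₀ : ℝ}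
  {Pt : ℝ → ℝ → ℝ} {o : ℕ → ℝ} {lv be : ℕ → ℕ → ℝ} {J : ℕ} {F : Pool.KA.Fam m J} {b : ℕ → ℕ → ℝ} {κ : ℝ}
  {z : ℕ → ℕ → ℕ} {B : F.Ω → Prop} {gc gT g₀ : ℕ → ℕ → ℕ}
  {G : ℕ → Pool.GEN.PtT F → ℕ → MvPolynomial (Option (Fin m)) ℝ}
  {H : ℕ → Pool.GEN.LnT F → ℕ → MvPolynomial (Option (Fin m)) ℝ}
  {T : ℕ → Pool.GEN.PtT F → ℕ → MvPolynomial (Option (Fin m)) ℝ}
  {TH : ℕ → Pool.GEN.LnT F → ℕ → MvPolynomial (Option (Fin m)) ℝ}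
  {Gt : ℕ → Pool.GEN.PtT F → MvPolynomial (Option (Fin m)) ℝ}
  {Ht : ℕ → Pool.GEN.LnT F → MvPolynomial (Option (Fin m)) ℝ}

/-- **The row label against the charts**, at the samples. -/
theorem wg_near
    (W : Pool.W.V1E.WG c (r + 1) D Dr N N₂ R C a Eb ε₀ η₀ Pt o lv be F b κ z B gc gT g₀ G H T TH Gt Ht)
    (hc : Set.InjOn c (Set.Iio (r + 1))) (hR : R r) {i k : ℕ} (hi : i ≤ N) (hk : k ≤ N)
    (h0k : o i ≤ o k)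
    (hkJ : ⌊o k * J⌋₊ ≤ J) {ζ : ℝ} (hζ : 0 ≤ ζ) (hη : 0 ≤ η₀) (hJ : 1 ≤ C * (η₀ * J))
    (hq : lv k (r + 1) + (a - o k) ≤ Pt a (o i) + ζ)
    (hpos : ζ + 4 * (C * η₀) ≤ lv k (r + 1)) :
    ∀ ω, B ω → |eval (Pool.GEN.bt F ω) (pderiv (some (c r)) (Ht i (Pool.KSAT.slam F ⌊o i * J⌋₊ ω))) -
      eval (Pool.GEN.bt F ω) (pderiv (some (c r)) (H k (Pool.KSAT.slam F ⌊o k * J⌋₊ ω) (r + 1)))| ≤
      (2 : ℝ) ^ ((lv k r - lv k (r + 1) + ζ + 6 * (C * η₀)) * J) := by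
  intro ω hω
  have hJ0 : (0 : ℝ) ≤ J := Nat.cast_nonneg J
  have hC1 : 1 ≤ C := W.win.C1
  obtain ⟨hok0, hoka⟩ := W.win.ho k hk
  have ha0 : 0 ≤ a := hok0.trans hoka
  have hfl : ⌊o k * J⌋₊ ≤ ⌊a * J⌋₊ :=
    Nat.floor_le_floor (mul_le_mul_of_nonneg_right hoka hJ0)
  obtain ⟨-, -, -, -, n5, -⟩ := W.win.g_num hk (l := r + 1) le_rfl
  obtain ⟨-, t2⟩ := (W.win.t_num hk (l := r) (Nat.lt_succ_self r)).1 hR
  have f1 : (⌊a * J⌋₊ : ℝ) ≤ a * J := Nat.floor_le (mul_nonneg ha0 hJ0)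
  have f2 : o k * J < ⌊o k * J⌋₊ + 1 := Nat.lt_floor_add_one _
  have f3 : (⌊o k * J⌋₊ : ℝ) ≤ ⌊a * J⌋₊ := by exact_mod_cast hfl
  obtain ⟨y, hy⟩ : ∃ y : ℝ, y = lv k (r + 1) * J + ((⌊a * J⌋₊ : ℝ) - ⌊o k * J⌋₊) -
      (ζ * J + 4 * (C * (η₀ * J))) := ⟨_, rfl⟩
  have hy0 : 0 ≤ y := by
    rw [hy]
    have := mul_le_mul_of_nonneg_right hpos hJ0
    have e : (ζ + 4 * (C * η₀)) * (J : ℝ) = ζ * J + 4 * (C * (η₀ * J)) := by ring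
    rw [e] at this
    linarith
  have q1 : (⌊y⌋₊ : ℝ) ≤ y := Nat.floor_le hy0
  have q2 : y < ⌊y⌋₊ + 1 := Nat.lt_floor_add_one _
  have hηJ : 0 ≤ η₀ * J := mul_nonneg hη hJ0
  have hCη : η₀ * J ≤ C * (η₀ * J) := le_mul_of_one_le_left hηJ hC1
  have hζJ : 0 ≤ ζ * J := mul_nonneg hζ hJ0
  have hqJ := mul_le_mul_of_nonneg_right hq hJ0
  have e3 : (lv k (r + 1) + (a - o k)) * (J : ℝ) = lv k (r + 1) * J + (a * J - o k * J) := by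
    ring
  have e4 : (Pt a (o i) + ζ) * (J : ℝ) = Pt a (o i) * J + ζ * J := by ring
  rw [e3, e4] at hqJ
  have e1 : (⌊y⌋₊ : ℝ) + C * (η₀ * J) ≤ (Pt a (o i) - 2 * (C * η₀)) * J := by
    have e2 : (Pt a (o i) - 2 * (C * η₀)) * (J : ℝ) = Pt a (o i) * J - 2 * (C * (η₀ * J)) := by
      ring
    rw [e2]
    linarith
  have e5 : (⌊y⌋₊ : ℝ) + C * (η₀ * J) ≤ gc k (r + 1) := by linarith
  have h1 := (W.win.row i hi k hk h0k ⌊y⌋₊ e1 e5).win ω hω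
    (Pool.PB.Trl.rt F ⌊o k * J⌋₊ ω) (Pool.PB.Trl.rt_mem F _ ω) (Pool.CR99.eu (c r))
  rw [Pool.D2R.ptw_rt F hkJ, Pool.CR99.nrm_eu hc ((W.win.evs k hk).thin.depH _), Pool.CR99.dd_eu, map_sub, map_sub,
    Pool.CR99.pd_Hno] at h1
  refine h1.trans ?_
  have hU : (⌊C * (η₀ * J)⌋₊ : ℝ) ≤ C * (η₀ * J) :=
    Nat.floor_le (hηJ.trans hCη)
  refine (Pool.CR99.pw3 (y := (lv k r - lv k (r + 1) + ζ + 6 * (C * η₀)) * J) ?_)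
  have e6 : (lv k r - lv k (r + 1) + ζ + 6 * (C * η₀)) * (J : ℝ) =
      lv k r * J - lv k (r + 1) * J + ζ * J + 6 * (C * (η₀ * J)) := by ring
  rw [e6]
  have hU' : (⌊C * ((fun _ : ℕ => η₀) k * J)⌋₊ : ℝ) ≤ C * (η₀ * J) := hU
  linarith


end ev

end Pool.W.CR99
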