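import Pool.Agent.H99.D2.Bld
import Pool.Agent.H31.W.H99.D2.Blc
import Pool.Agent.H31.W1.H2.GEN.EvS
import Pool.Agent.H31.W1.H80.GEN.Chn

/-!
# The blind labels in a class

`BlX`: on a part of every event there is a closed label of the window `w` whose derivative in the direction
`u = c r` is near the ones of the labels of the windows `v k`. `blf_of`: then `BlF`. `VlS`: the path of the
slopes of the row label has a small velocity. `blx_wg`: `BlX` from `VlS`.
-/

set_option autoImplicit false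

namespace Pool.W.CR99

open Pool.CR99

open Finset Real MvPolynomial
open Pool.Agent.H49.Ent Pool.Agent.H32.Dense Pool.STK Pool.KA Pool.KSAT Pool.K2S Pool.PB Pool.S6C
open Pool.GEN Pool.CHT Pool.CHX Pool.ISO Pool.D2R Pool.D2G30 Pool.V1E
open Pool.FLF (Fam.sub)
open Pool.PB.Trl (rt rt_mem t_rt)
open Pool.GRD (LbP)
open Pool.BFL (Pb)
open Pool.ALT (BlC BlB sbu sbu_eval sbu_deg sbu_dep DpI Upg)

variable {m : ℕ}


/-- The labels of a closed chart. -/
theorem lbp_ball {J : ℕ} {F : Pool.KA.Fam m J} {c : ℕ → Fin m} {r D a w e : ℕ} {g : ℕ → ℕ}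
    {B : F.Ω → Prop} {G : Pool.GEN.PtT F → ℕ → MvPolynomial (Option (Fin m)) ℝ}
    {H : Pool.GEN.LnT F → ℕ → MvPolynomial (Option (Fin m)) ℝ}
    (hch : Pool.W.GEN.ChOK F c (r + 2) (fun _ => D) a w e g B G H) (hcl : Pool.ISO.Clsd F (r + 2) w B G H) :
    ∃ (V₁ : Type) (z₁ : Pool.GEN.PtT F → V₁) (z₁' : Pool.GEN.LnT F → V₁)
      (G₁ : V₁ → MvPolynomial (Option (Fin m)) ℝ),
      Pool.GRD.LbP F ((range (r + 1)).image c) (c (r + 1)) D J w (g (r + 1)) B z₁ z₁' G₁ ∧
      ∀ s, G₁ (z₁' s) = H s (r + 1) := by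
  refine ⟨{v : MvPolynomial (Option (Fin m)) ℝ // v.totalDegree ≤ D ∧ Pool.GEN.DepC c (r + 1) v},
    fun y => ⟨G y (r + 1), hch.degG y _, hch.depG y _⟩,
    fun s => ⟨H s (r + 1), hch.degH s _, hch.depH s _⟩, Subtype.val,
    ⟨fun v => v.2.1, fun v => Pool.CR99.depC_dpI v.2.2, fun ω hω => Subtype.ext (hcl ω hω _ (by omega)),
      fun ω hω => ?_⟩, fun s => rfl⟩
  have h1 := hch.pos ω hω (r + 1) (by omega)
  rw [hcl ω hω (r + 1) (by omega)] at h1
  exact h1


end Pool.W.CR99
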