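import Pool.Agent.H99.D2.Una
import Pool.Agent.H31.W1.H80.GEN.Chn

/-!
# Labels with the slope of a closed polynomial

`bmG`: the label `U ↦` (the chart of `c (r + 1)` minus `M`) over the chart of `c r`, plus `M`, for a closed
polynomial `M` over `c 0, …, c r`: its derivative in the direction `c r` is the one of `M`.
-/

set_option autoImplicit false

namespace Pool.W.CR99

open Pool.CR99

open Finset Real MvPolynomial
open Pool.Agent.H49.Ent Pool.Agent.H32.Dense Pool.STK Pool.KA Pool.KSAT Pool.K2S Pool.PB Pool.S6C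
open Pool.GEN Pool.CHT Pool.CHX Pool.ISO Pool.D2R Pool.D2G30 Pool.V1E
open Pool.FLF (Fam.sub)
open Pool.PB.Trl (rt rt_mem t_rt)
open Pool.GRD (LbP)
open Pool.BFL (Pb)
open Pool.ALT (BlC BlB sbu sbu_eval sbu_deg sbu_dep DpI Upg)

variable {m : ℕ}


/-- **It is a closed label.** -/
theorem bmg_lbp {J : ℕ} {F : Pool.KA.Fam m J} {c : ℕ → Fin m} {r D a w e P : ℕ} {g : ℕ → ℕ}
    {B : F.Ω → Prop} {G : Pool.GEN.PtT F → ℕ → MvPolynomial (Option (Fin m)) ℝ}
    {H : Pool.GEN.LnT F → ℕ → MvPolynomial (Option (Fin m)) ℝ} {K₁ : ℝ}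
    {ML : Pool.GEN.LnT F → MvPolynomial (Option (Fin m)) ℝ} {Mp : Pool.GEN.PtT F → MvPolynomial (Option (Fin m)) ℝ}
    (hch : Pool.W.GEN.ChOK F c (r + 2) (fun _ => D) a w e g B G H) (hcl : Pool.ISO.Clsd F (r + 2) w B G H)
    (hdL : ∀ s, (ML s).totalDegree ≤ D) (hdp : ∀ y, (Mp y).totalDegree ≤ D)
    (hpL : ∀ s, Pool.GEN.DepC c (r + 1) (ML s)) (hpp : ∀ y, Pool.GEN.DepC c (r + 1) (Mp y))
    (hclo : ∀ ω, B ω → Mp (Pool.PB.ptr F J ω) = ML (Pool.KSAT.slam F w ω))
    (hbox : ∀ ω, B ω → ∀ b, Pool.GEN.NBx c (G (Pool.PB.ptr F J ω)) g a (F.t ω) (r + 1) b →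
      |eval b (pderiv (some (c r)) (G (Pool.PB.ptr F J ω) (r + 1))) -
        eval b (pderiv (some (c r)) (Mp (Pool.PB.ptr F J ω)))| ≤ K₁)
    (hc : Set.InjOn c (Set.Iio (r + 1)))
    (hP : 1 / 2 ^ g (r + 1) + K₁ * (1 / 2 ^ g r) ≤ 1 / (2 : ℝ) ^ P) :
    ∃ (z : Pool.GEN.PtT F → Pool.CR99.BmV m c r D) (z' : Pool.GEN.LnT F → Pool.CR99.BmV m c r D),
      Pool.GRD.LbP F ((range (r + 1)).image c) (c (r + 1)) (Pool.CR99.bmd D) J w P B z z' Pool.CR99.bmG ∧
      ∀ s, (z' s).1.2 = ML s := by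
  classical
  refine ⟨fun y => ⟨((G y r, G y (r + 1)), Mp y), ⟨hch.degG y r, hch.degG y (r + 1), hdp y⟩,
    hch.depG y r, hch.depG y (r + 1), hpp y⟩,
    fun s => ⟨((H s r, H s (r + 1)), ML s), ⟨hch.degH s r, hch.degH s (r + 1), hdL s⟩,
      hch.depH s r, hch.depH s (r + 1), hpL s⟩, ⟨Pool.CR99.bmG_deg, Pool.CR99.bmG_dep, fun ω hω => ?_,
    fun ω hω => ?_⟩, fun s => rfl⟩
  · refine Subtype.ext ?_
    simp only [Prod.mk.injEq]
    exact ⟨⟨hcl ω hω r (by omega), hcl ω hω (r + 1) (by omega)⟩, hclo ω hω⟩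
  · have hbt : ∀ i, Pool.GEN.bt F ω (some i) = F.x ω i := fun i => rfl
    obtain ⟨h, hh⟩ : ∃ h : ℝ, h = eval (Pool.GEN.bt F ω) (G (Pool.PB.ptr F J ω) r) := ⟨_, rfl⟩
    have hr := hch.pos ω hω r (by omega)
    have hr1 := hch.pos ω hω (r + 1) (by omega)
    rw [← hh] at hr
    obtain ⟨Q, hQ⟩ : ∃ Q, Q = G (Pool.PB.ptr F J ω) (r + 1) - Mp (Pool.PB.ptr F J ω) := ⟨_, rfl⟩
    have e1 : eval (Pool.GEN.bt F ω) (Pool.CR99.bmG (⟨((H (Pool.KSAT.slam F w ω) r, H (Pool.KSAT.slam F w ω) (r + 1)),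
        ML (Pool.KSAT.slam F w ω)), ⟨hch.degH _ r, hch.degH _ (r + 1), hdL _⟩, hch.depH _ r,
        hch.depH _ (r + 1), hpL _⟩ : Pool.CR99.BmV m c r D)) =
        eval (Function.update (Pool.GEN.bt F ω) (some (c r)) h) Q + eval (Pool.GEN.bt F ω) (Mp (Pool.PB.ptr F J ω)) := by
      unfold Pool.CR99.bmG
      simp only [map_add]
      rw [Pool.ALT.sbu_eval, ← hcl ω hω r (by omega), ← hcl ω hω (r + 1) (by omega), ← hclo ω hω, ← hh,
        hQ]
    rw [e1]
    obtain ⟨θ, hθ, hmv⟩ := Pool.PRQ76.mv_one Q (c r) (Pool.GEN.bt F ω)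
      (Function.update (Pool.GEN.bt F ω) (some (c r)) h) (fun o ho => by rw [Function.update_of_ne ho])
    rw [Function.update_self] at hmv
    obtain ⟨b, hb⟩ : ∃ b : Option (Fin m) → ℝ, b = fun o =>
      Function.update (Pool.GEN.bt F ω) (some (c r)) h o +
        θ * (Pool.GEN.bt F ω o - Function.update (Pool.GEN.bt F ω) (some (c r)) h o) := ⟨_, rfl⟩
    rw [← hb] at hmv
    have hbo : ∀ o, o ≠ some (c r) → b o = Pool.GEN.bt F ω o := by
      intro o ho
      rw [hb]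
      beta_reduce
      rw [Function.update_of_ne ho]
      ring
    have hbr : b (some (c r)) = h + θ * (F.x ω (c r) - h) := by
      rw [hb]
      beta_reduce
      rw [Function.update_self]
      rfl
    have hinj : ∀ l, l < r → (some (c l) : Option (Fin m)) ≠ some (c r) := fun l hl he => by
      have h3 := hc (Set.mem_Iio.2 (show l < r + 1 by omega)) (Set.mem_Iio.2 (Nat.lt_succ_self r))
        (Option.some.inj he)
      omega
    have hdp' : ∀ l, l ≤ r → eval b (G (Pool.PB.ptr F J ω) l) = eval (Pool.GEN.bt F ω) (G (Pool.PB.ptr F J ω) l) := by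
      intro l hl
      refine hch.depG _ l _ _ (hbo _ (by simp)) fun l' hl' => hbo _ (hinj l' (by omega))
    have hbx := hbox ω hω b (by
      refine ⟨?_, fun l hl => ?_⟩
      · rw [hbo _ (by simp), show Pool.GEN.bt F ω none = F.t ω from rfl, sub_self, abs_zero]
        positivity
      · rw [hdp' l (by omega)]
        rcases Nat.lt_or_ge l r with h4 | h4
        · rw [hbo _ (hinj l h4)]
          exact hch.pos ω hω l (by omega)
        · have : l = r := by omega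
          subst this
          rw [hbr, ← hh, add_sub_cancel_left, abs_mul, abs_of_nonneg hθ.1]
          exact (mul_le_of_le_one_left (abs_nonneg _) hθ.2).trans hr)
    have hbQ : |eval b (pderiv (some (c r)) Q)| ≤ K₁ := by
      rw [hQ, map_sub, map_sub]
      exact hbx
    have e2 : F.x ω (c (r + 1)) - (eval (Function.update (Pool.GEN.bt F ω) (some (c r)) h) Q +
        eval (Pool.GEN.bt F ω) (Mp (Pool.PB.ptr F J ω))) =
        (F.x ω (c (r + 1)) - eval (Pool.GEN.bt F ω) (G (Pool.PB.ptr F J ω) (r + 1))) +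
        eval b (pderiv (some (c r)) Q) * (F.x ω (c r) - h) := by
      have e3 : eval (Function.update (Pool.GEN.bt F ω) (some (c r)) h) Q =
          eval (Pool.GEN.bt F ω) Q - eval b (pderiv (some (c r)) Q) * (F.x ω (c r) - h) := by
        rw [← hbt, ← hmv]
        ring
      have e4 : eval (Pool.GEN.bt F ω) Q = eval (Pool.GEN.bt F ω) (G (Pool.PB.ptr F J ω) (r + 1)) -
          eval (Pool.GEN.bt F ω) (Mp (Pool.PB.ptr F J ω)) := by rw [hQ, map_sub]
      rw [e3, e4]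
      ring
    rw [e2]
    refine (abs_add_le _ _).trans (le_trans (add_le_add hr1 ?_) hP)
    rw [abs_mul]
    exact mul_le_mul hbQ hr (abs_nonneg _) ((abs_nonneg _).trans hbQ)

end Pool.W.CR99
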