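import Pool.Agent.H99.D2.Chf
import Pool.Agent.H3.W.Nlp
import Pool.Agent.H3.W2.H2.GEN.ChS
import Pool.Agent.H31.W1.H80.GEN.Chn

/-!
# Samples in the same cell

`pd_cell`: the derivative in the direction of the last coordinate, at two samples with the same
exact point. `ht_cell`: the heights. `vis_of`: the visible function of a number which is nearly
visible.
-/

set_option autoImplicit false

namespace Pool.W.CR99

open Pool.CR99

open Finset Real MvPolynomial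
open Pool.Agent.H49.Ent Pool.Agent.H32.Dense Pool.STK Pool.KA Pool.KSAT Pool.K2S Pool.PB Pool.S6C
open Pool.GEN Pool.CHT Pool.CHX Pool.ISO Pool.D2R Pool.D2G30 Pool.V1E
open Pool.FLF (Fam.sub)
open Pool.PB.Trl (rt rt_mem t_rt)

/-- **Samples in the same cell.** -/
theorem ht_cell (D R : ℕ) : ∃ C : ℕ, ∀ {m J : ℕ} {F : Pool.KA.Fam m J} {c : ℕ → Fin m}
    {a w e v : ℕ} {g : ℕ → ℕ} {A : F.Ω → Prop}
    {G : Pool.GEN.PtT F → ℕ → MvPolynomial (Option (Fin m)) ℝ}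
    {H : Pool.GEN.LnT F → ℕ → MvPolynomial (Option (Fin m)) ℝ}, Set.InjOn c (Set.Iio R) →
    Pool.W.GEN.ChOK F c R (fun _ => D) a w e g A G H → (∀ l < R, e + g l + v + C ≤ J) →
    ∀ ω ν, A ω → Pool.PB.ptr F J ω = Pool.PB.ptr F J ν → ∀ l < R,
      |(F.x ν (c l) - eval (Pool.GEN.bt F ν) (G (Pool.PB.ptr F J ω) l)) -
        (F.x ω (c l) - eval (Pool.GEN.bt F ω) (G (Pool.PB.ptr F J ω) l))| ≤ 1 / 2 ^ v / 2 ^ g l := by
  obtain ⟨c₀, hcell⟩ := Pool.W.CHT.near_cell R (fun _ => D)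
  refine ⟨c₀ + 2, ?_⟩
  intro m J F c a w e v g A G H hc hch hJ ω ν hω hpt l hl
  obtain ⟨hT, htn, hx⟩ := Pool.D2R.bt_near hpt
  have h1 := (hcell (c := c) (G := G (Pool.PB.ptr F J ω)) (g := g) (a := a) (e := e) (J := J) (v := v)
    (x := Pool.GEN.bt F ω) hc (hch.degG _) (hch.depG _) (fun l hl => hch.pos ω hω l hl)
    (fun i hi b hb l hl => hch.lip ω hω i hi b hb l hl) (fun i hi => by
      have := hJ i hi
      omega) l hl.le (Pool.GEN.bt F ν) htn.symm (fun i _ => by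
      have := hx (c i)
      rw [abs_sub_comm]
      exact this)).2 hl
  have h2 := hx (c l)
  have hJl := hJ l hl
  have h3 : (1 : ℝ) / 2 ^ J ≤ 1 / 4 / 2 ^ (g l + v) := by
    rw [div_div]
    refine one_div_le_one_div_of_le (by positivity) ?_
    have e1 : (4 : ℝ) * 2 ^ (g l + v) = 2 ^ (g l + v + 2) := by
      rw [pow_add 2 (g l + v) 2]
      norm_num
      ring
    rw [e1]
    exact pow_le_pow_right₀ (by norm_num) (by omega)
  have e2 : (F.x ν (c l) - eval (Pool.GEN.bt F ν) (G (Pool.PB.ptr F J ω) l)) -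
      (F.x ω (c l) - eval (Pool.GEN.bt F ω) (G (Pool.PB.ptr F J ω) l)) =
      -(F.x ω (c l) - F.x ν (c l)) -
        (eval (Pool.GEN.bt F ν) (G (Pool.PB.ptr F J ω) l) - eval (Pool.GEN.bt F ω) (G (Pool.PB.ptr F J ω) l)) := by ring
  rw [e2]
  refine (abs_sub _ _).trans ?_
  rw [abs_neg]
  have e3 : (1 : ℝ) / 2 ^ v / 2 ^ g l = 1 / 2 ^ (g l + v) := by
    rw [div_div, ← pow_add, Nat.add_comm v]
  rw [e3]
  have h4 : (0 : ℝ) < 1 / 2 ^ (g l + v) := by positivity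
  have e4 : (1 : ℝ) / 4 / 2 ^ (g l + v) = 1 / 4 * (1 / 2 ^ (g l + v)) := by ring
  rw [e4] at h1 h3
  linarith

/-- **The derivative in the direction of the last coordinate, in the same cell.** -/
theorem pd_cell (D r : ℕ) : ∃ C : ℕ, ∀ {m J : ℕ} {F : Pool.KA.Fam m J} {c : ℕ → Fin m}
    {a w e v : ℕ} {g : ℕ → ℕ} {A : F.Ω → Prop} {M : ℝ}
    {G : Pool.GEN.PtT F → ℕ → MvPolynomial (Option (Fin m)) ℝ}
    {H : Pool.GEN.LnT F → ℕ → MvPolynomial (Option (Fin m)) ℝ}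
    {P : MvPolynomial (Option (Fin m)) ℝ}, Set.InjOn c (Set.Iio (r + 1)) →
    Pool.W.GEN.ChOK F c (r + 1) (fun _ => D) a w e g A G H → (∀ l < r + 1, e + g l + v + C ≤ J) →
    Pool.GEN.DepC c (r + 1) P → P.totalDegree ≤ D → 0 ≤ M → ∀ ω ν, A ω → Pool.PB.ptr F J ω = Pool.PB.ptr F J ν →
    (∀ b, Pool.GEN.NBx c (G (Pool.PB.ptr F J ω)) g a (F.t ω) (r + 1) b → |eval b P| ≤ M) →
      |eval (Pool.GEN.bt F ν) (pderiv (some (c r)) P) - eval (Pool.GEN.bt F ω) (pderiv (some (c r)) P)| ≤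
        2 ^ C * M * 2 ^ g r / 2 ^ v := by
  obtain ⟨C₀, hpd⟩ := Pool.CR99.pd_last D r
  obtain ⟨C₁, hht⟩ := Pool.W.CR99.ht_cell D (r + 1)
  obtain ⟨C₂, hC₂, hlip⟩ := Pool.CHT.nbx_lip (D * Pool.CHT.dga (fun _ => D) (r + 1))
  obtain ⟨C₃, hC₃⟩ := pow_unbounded_of_one_lt C₂ (one_lt_two (α := ℝ))
  refine ⟨C₀ + C₁ + C₃, ?_⟩
  intro m J F c a w e v g A M G H P hc hch hJ hP hPd hM ω ν hω hpt hbox
  have hht' := hht (v := v) hc hch (fun l hl => by
    have := hJ l hl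
    omega) ω ν hω hpt
  obtain ⟨hT, htn, hx⟩ := Pool.D2R.bt_near hpt
  have hv : (0 : ℝ) < 2 ^ v := by positivity
  have h1 := hlip (c := c) (i := r + 1) (K := fun _ => D) (G := G (Pool.PB.ptr F J ω))
    (Q := pderiv (some (c r)) P) (g := g) (a := a) (D₀ := D) (t := F.t ω)
    (M := 2 ^ C₀ * M * 2 ^ g r) (lam := 1 / 2 ^ v) (b := Pool.GEN.bt F ω) (b' := Pool.GEN.bt F ν) hc
    (hch.degG _) (hch.depG _) (Pool.D2R.depC_pderiv hP _) ((Pool.V1E.pd_deg _ _).trans hPd) le_rfl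
    (by positivity) (by
      rw [div_le_one hv]
      exact one_le_pow₀ (by norm_num))
    (hpd hc (hch.degG _) (hch.depG _) hP hPd hM hbox) rfl (fun l hl => hch.pos ω hω l hl) (by
      rw [← htn]
      show |F.t ω - F.t ω| ≤ _
      rw [sub_self, abs_zero]
      positivity) (fun l hl => hht' l hl)
  refine h1.trans ?_
  have h2 : (0 : ℝ) ≤ M * 2 ^ g r / 2 ^ v * 2 ^ C₀ := by positivity
  calc C₂ * (2 ^ C₀ * M * 2 ^ g r) * (1 / 2 ^ v) = C₂ * (M * 2 ^ g r / 2 ^ v * 2 ^ C₀) := by ring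
    _ ≤ 2 ^ (C₁ + C₃) * (M * 2 ^ g r / 2 ^ v * 2 ^ C₀) := by
        refine mul_le_mul_of_nonneg_right (hC₃.le.trans ?_) h2
        exact pow_le_pow_right₀ (by norm_num) (by omega)
    _ = _ := by
        rw [show C₀ + C₁ + C₃ = C₀ + (C₁ + C₃) by ring, pow_add 2 C₀]
        ring


end Pool.W.CR99
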