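import Pool.Agent.H99.D2.Unb
import Pool.Agent.H31.W.H99.D2.Blc
import Pool.Agent.H31.W.H99.D2.Chf
import Pool.Agent.H31.W1.H2.GEN.EvS
import Pool.Agent.H31.W1.H80.GEN.Chn

/-!
# The closed slope by scaling of the row label

`rv_vis`: the slope of the row label minus the one of the chart is visible, to the precision of the row
label. `unc_ev`: it is a closed constant on every later window, up to the gain of the scaling.
-/

set_option autoImplicit false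

namespace Pool.W.CR99

open Pool.CR99

open Finset Real MvPolynomial
open Pool.Agent.H49.Ent Pool.Agent.H32.Dense Pool.STK Pool.KA Pool.KSAT Pool.K2S Pool.PB Pool.S6C
open Pool.GEN Pool.CHT Pool.CHX Pool.ISO Pool.D2R Pool.D2G30 Pool.V1E
open Pool.FLF (Fam.sub)
open Pool.PB.Trl (rt rt_mem t_rt)

/-- **The slope of the row label minus the one of the chart is visible.** -/
theorem rv_vis (D r : ℕ) : ∃ C : ℕ, ∀ {m J : ℕ} {F : Pool.KA.Fam m J} {c : ℕ → Fin m}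
    {M₀ x p q₁ su sn o v e : ℕ} {gT : ℕ → ℕ} {B : F.Ω → Prop}
    {G T : Pool.GEN.PtT F → ℕ → MvPolynomial (Option (Fin m)) ℝ}
    {H TH : Pool.GEN.LnT F → ℕ → MvPolynomial (Option (Fin m)) ℝ}
    {Gt : Pool.GEN.PtT F → MvPolynomial (Option (Fin m)) ℝ} {Ht : Pool.GEN.LnT F → MvPolynomial (Option (Fin m)) ℝ},
    Set.InjOn c (Set.Iio (r + 1)) → o ≤ J →
    Pool.W.GEN.ChOK F c (r + 1) (fun _ => D) (o + v) o e gT B T TH →
    (∀ y l, (G y l).totalDegree ≤ D) → (∀ y l, Pool.GEN.DepC c l (G y l)) → Pool.ISO.Clsd F (r + 2) o B G H →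
    (∀ y, (Gt y).totalDegree ≤ D) → (∀ s, (Ht s).totalDegree ≤ D) →
    (∀ y, Pool.GEN.DepC c (r + 1) (Gt y)) → (∀ s, Pool.GEN.DepC c (r + 1) (Ht s)) →
    (∀ ω, B ω → ∀ b, Pool.GEN.NBx c (T (Pool.PB.ptr F J ω)) gT (o + v) (F.t ω) (r + 1) b →
      |eval b (Gt (Pool.PB.ptr F J ω)) - eval b (Ht (Pool.KSAT.slam F o ω))| ≤ 1 / 2 ^ p) →
    (∀ ω, B ω → ∀ b, Pool.GEN.NBx c (T (Pool.PB.ptr F J ω)) gT (o + v) (F.t ω) (r + 1) b →
      |eval b (Ht (Pool.KSAT.slam F o ω)) -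
        eval b (Pool.GEN.Gno (c (r + 1)) J J (fun y => G y (r + 1)) (Pool.PB.ptr F J ω))| ≤ 2 ^ x / 2 ^ q₁) →
    gT r + sn + M₀ ≤ su + p + x → gT r + sn ≤ su + q₁ + x → q₁ ≤ p →
    (∀ l < r + 1, e + gT l + M₀ + C ≤ J) → ∀ ω ν, B ω → B ν → Pool.PB.ptr F J ω = Pool.PB.ptr F J ν →
      |(Pool.CR99.spt c r su sn o (fun s => Ht s - H s (r + 1)) (Pool.KSAT.slam F o ω)).eval (Pool.PB.Trl.rt F o ω) -
        (Pool.CR99.spt c r su sn o (fun s => Ht s - H s (r + 1)) (Pool.KSAT.slam F o ν)).eval (Pool.PB.Trl.rt F o ν)| ≤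
        2 ^ (C * (x + 1)) / 2 ^ M₀ := by
  obtain ⟨C₀, hpd⟩ := Pool.CR99.pd_last D r
  obtain ⟨C₁, hcell⟩ := Pool.W.CR99.pd_cell D r
  refine ⟨C₀ + 2 * C₁ + 4, ?_⟩
  intro m J F c M₀ x p q₁ su sn o v e gT B G T H TH Gt Ht hc1 hoJ hth dG pG hcl dGt dHt pGt pHt hagr
    hrow a1 a2 a3 hJ ω ν hω hν hpt
  obtain ⟨P, hP⟩ : ∃ P : Pool.GEN.PtT F → MvPolynomial (Option (Fin m)) ℝ, P = fun y =>
      Gt y - Pool.GEN.Gno (c (r + 1)) J J (fun y => G y (r + 1)) y := ⟨_, rfl⟩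
  have hPd : ∀ y, (P y).totalDegree ≤ D := fun y => by
    rw [hP]
    exact (totalDegree_sub _ _).trans (max_le (dGt y) (Pool.D2R.deg_Gno _ _ _ (dG y _)))
  have hPp : ∀ y, Pool.GEN.DepC c (r + 1) (P y) := fun y b b' h1 h2 => by
    rw [hP, map_sub, map_sub, pGt y b b' h1 h2, Pool.D2R.depC_Gno _ _ _ (pG y _) b b' h1 h2]
  have hPe : ∀ (y : Pool.GEN.PtT F) (b : Option (Fin m) → ℝ), eval b (pderiv (some (c r)) (P y)) =
      eval b (pderiv (some (c r)) (Gt y)) - eval b (pderiv (some (c r)) (G y (r + 1))) := by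
    intro y b
    rw [hP, map_sub, map_sub, Pool.CR99.pd_Gno]
  have hq0 : (0 : ℝ) < 2 ^ q₁ := by positivity
  have hbox : ∀ ω, B ω → ∀ b, Pool.GEN.NBx c (T (Pool.PB.ptr F J ω)) gT (o + v) (F.t ω) (r + 1) b →
      |eval b (P (Pool.PB.ptr F J ω))| ≤ 2 ^ (x + 1) / 2 ^ q₁ := by
    intro ω hω b hb
    have h1 := hagr ω hω b hb
    have h2 := hrow ω hω b hb
    have h3 : (1 : ℝ) / 2 ^ p ≤ 2 ^ x / 2 ^ q₁ := by
      refine div_le_div₀ (by positivity) (one_le_pow₀ (by norm_num)) hq0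
        (pow_le_pow_right₀ (by norm_num) a3)
    rw [hP, map_sub]
    have e1 : eval b (Gt (Pool.PB.ptr F J ω)) - eval b (Pool.GEN.Gno (c (r + 1)) J J (fun y => G y (r + 1))
        (Pool.PB.ptr F J ω)) = (eval b (Gt (Pool.PB.ptr F J ω)) - eval b (Ht (Pool.KSAT.slam F o ω))) +
        (eval b (Ht (Pool.KSAT.slam F o ω)) - eval b (Pool.GEN.Gno (c (r + 1)) J J (fun y => G y (r + 1))
          (Pool.PB.ptr F J ω))) := by ring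
    rw [e1]
    refine (abs_add_le _ _).trans ((add_le_add (h1.trans h3) h2).trans (le_of_eq ?_))
    rw [pow_succ]
    ring
  -- the visible number
  obtain ⟨Z, hZ⟩ : ∃ Z : F.Ω → ℝ, Z = fun ω => 2 ^ sn / 2 ^ su *
      eval (Pool.GEN.bt F ω) (pderiv (some (c r)) (P (Pool.PB.ptr F J ω))) := ⟨_, rfl⟩
  obtain ⟨E, hE⟩ : ∃ E : F.Ω → ℝ, E = fun ω =>
      (Pool.CR99.spt c r su sn o (fun s => Ht s - H s (r + 1)) (Pool.KSAT.slam F o ω)).eval (Pool.PB.Trl.rt F o ω) := ⟨_, rfl⟩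
  -- own against visible
  have hov : ∀ ω, B ω → |Z ω - E ω| ≤ 2 ^ (C₀ + x) / 2 ^ M₀ := by
    intro ω hω
    have h1 := hpd (c := c) (ψ := T (Pool.PB.ptr F J ω))
      (P := Gt (Pool.PB.ptr F J ω) - Ht (Pool.KSAT.slam F o ω)) (g := gT) (a := o + v) (t := F.t ω)
      (M := 1 / 2 ^ p) hc1 (hth.degG _) (hth.depG _)
      (fun b b' h1 h2 => by rw [map_sub, map_sub, pGt _ b b' h1 h2, pHt _ b b' h1 h2])
      ((totalDegree_sub _ _).trans (max_le (dGt _) (dHt _))) (by positivity)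
      (fun b hb => by
        rw [map_sub]
        exact hagr ω hω b hb) (Pool.GEN.bt F ω) (by
        show |F.t ω - F.t ω| ≤ _
        rw [sub_self, abs_zero]
        positivity) (fun l hl => by
        refine (hth.pos ω hω l hl).trans ?_
        exact div_le_div_of_nonneg_right (by norm_num) (by positivity))
    rw [map_sub, map_sub] at h1
    rw [hZ, hE]
    beta_reduce
    rw [hPe, Pool.CR99.eval_spt hoJ, map_sub, map_sub, ← hcl ω hω (r + 1) (by omega), ← mul_sub, abs_mul,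
      abs_of_pos (show (0 : ℝ) < 2 ^ sn / 2 ^ su by positivity)]
    have e1 : eval (Pool.GEN.bt F ω) (pderiv (some (c r)) (Gt (Pool.PB.ptr F J ω))) -
        eval (Pool.GEN.bt F ω) (pderiv (some (c r)) (G (Pool.PB.ptr F J ω) (r + 1))) -
        (eval (Pool.GEN.bt F ω) (pderiv (some (c r)) (Ht (Pool.KSAT.slam F o ω))) -
          eval (Pool.GEN.bt F ω) (pderiv (some (c r)) (G (Pool.PB.ptr F J ω) (r + 1)))) =
        eval (Pool.GEN.bt F ω) (pderiv (some (c r)) (Gt (Pool.PB.ptr F J ω))) -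
          eval (Pool.GEN.bt F ω) (pderiv (some (c r)) (Ht (Pool.KSAT.slam F o ω))) := by ring
    rw [e1]
    refine (mul_le_mul_of_nonneg_left h1 (by positivity)).trans ?_
    have h2 : (2 : ℝ) ^ (gT r + sn) / 2 ^ (su + p) ≤ 2 ^ x / 2 ^ M₀ :=
      Pool.CR99.num_e (by omega)
    calc 2 ^ sn / 2 ^ su * (2 ^ C₀ * (1 / 2 ^ p) * 2 ^ gT r) =
          2 ^ C₀ * (2 ^ (gT r + sn) / 2 ^ (su + p)) := by
          rw [pow_add 2 (gT r), pow_add 2 su]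
          field_simp
      _ ≤ 2 ^ C₀ * (2 ^ x / 2 ^ M₀) := mul_le_mul_of_nonneg_left h2 (by positivity)
      _ = _ := by rw [pow_add]; ring
  -- the same cell
  have hsame : |Z ω - Z ν| ≤ 2 ^ (C₁ + 2 * x + 1) / 2 ^ M₀ := by
    have h1 := hcell (v := M₀) (M := 2 ^ (x + 1) / 2 ^ q₁) hc1 hth (fun l hl => by
      have := hJ l hl
      omega) (hPp (Pool.PB.ptr F J ω)) (hPd _) (by positivity) ω ν hω hpt (hbox ω hω)
    have e1 : Z ω - Z ν = -((eval (Pool.GEN.bt F ν) (pderiv (some (c r)) (P (Pool.PB.ptr F J ω))) -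
        eval (Pool.GEN.bt F ω) (pderiv (some (c r)) (P (Pool.PB.ptr F J ω)))) * (2 ^ sn / 2 ^ su)) := by
      rw [hZ]
      beta_reduce
      rw [hpt]
      ring
    rw [e1, abs_neg, abs_mul, abs_of_pos (show (0 : ℝ) < 2 ^ sn / 2 ^ su by positivity)]
    refine (mul_le_mul_of_nonneg_right h1 (by positivity)).trans ?_
    have h2 : (2 : ℝ) ^ (gT r + sn) / 2 ^ (su + q₁) ≤ 2 ^ x / 2 ^ 0 :=
      Pool.CR99.num_e (by omega)
    rw [pow_zero, div_one] at h2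
    calc (2 ^ C₁ * (2 ^ (x + 1) / 2 ^ q₁) * 2 ^ gT r / 2 ^ M₀) * (2 ^ sn / 2 ^ su) =
          2 ^ (C₁ + (x + 1)) / 2 ^ M₀ * (2 ^ (gT r + sn) / 2 ^ (su + q₁)) := by
          rw [pow_add 2 (gT r), pow_add 2 su, pow_add 2 C₁]
          field_simp
      _ ≤ 2 ^ (C₁ + (x + 1)) / 2 ^ M₀ * 2 ^ x := mul_le_mul_of_nonneg_left h2 (by positivity)
      _ = _ := by
          rw [show C₁ + 2 * x + 1 = C₁ + (x + 1) + x by ring, pow_add 2 (C₁ + (x + 1))]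
          ring
  have h1 := hov ω hω
  have h2 := hov ν hν
  have hgoal : |E ω - E ν| ≤ 2 ^ ((C₀ + 2 * C₁ + 4) * (x + 1)) / 2 ^ M₀ := by
    have e1 : E ω - E ν = -(Z ω - E ω) + (Z ω - Z ν) + (Z ν - E ν) := by ring
    rw [e1]
    refine (abs_add_le _ _).trans ((add_le_add ((abs_add_le _ _).trans (add_le_add
      ((abs_neg _).trans_le h1) hsame)) h2).trans ?_)
    obtain ⟨X, hX⟩ : ∃ X, X = C₀ + C₁ + 2 * x + 1 := ⟨_, rfl⟩
    have hM : (0 : ℝ) < 2 ^ M₀ := by positivity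
    have k1 : (2 : ℝ) ^ (C₀ + x) ≤ 2 ^ X := pow_le_pow_right₀ (by norm_num) (by omega)
    have k2 : (2 : ℝ) ^ (C₁ + 2 * x + 1) ≤ 2 ^ X := pow_le_pow_right₀ (by norm_num) (by omega)
    rw [← add_div, ← add_div]
    refine div_le_div_of_nonneg_right ?_ hM.le
    calc (2 : ℝ) ^ (C₀ + x) + 2 ^ (C₁ + 2 * x + 1) + 2 ^ (C₀ + x) ≤
        2 ^ (X + 2) := by
          rw [pow_add 2 X 2]
          linarith [show (0 : ℝ) < 2 ^ X by positivity]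
      _ ≤ _ := pow_le_pow_right₀ (by norm_num) (by rw [hX]; nlinarith)
  rw [hE] at hgoal
  exact hgoal

/-- **The closed slope by scaling**, on one event: `κL`, `κG` are closed at the window `w`; the slope of
the row label of the window `i` minus the one of the chart is `U κL`, up to `2 U / 2 ^ M`. -/
theorem unc_ev (m D r : ℕ) : ∃ C₁ : ℕ, 1 ≤ C₁ ∧ ∀ {c : ℕ → Fin m} {Dr N N₂ : ℕ} {R : ℕ → Prop}
    {C a Eb ε₀ η₀ : ℝ} {Pt : ℝ → ℝ → ℝ} {o : ℕ → ℝ} {lv be : ℕ → ℕ → ℝ} {J : ℕ} {F : Pool.KA.Fam m J}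
    {b : ℕ → ℕ → ℝ} {κ : ℝ} {z : ℕ → ℕ → ℕ} {B : F.Ω → Prop} {gc gT g₀ : ℕ → ℕ → ℕ}
    {G : ℕ → Pool.GEN.PtT F → ℕ → MvPolynomial (Option (Fin m)) ℝ}
    {H : ℕ → Pool.GEN.LnT F → ℕ → MvPolynomial (Option (Fin m)) ℝ}
    {T : ℕ → Pool.GEN.PtT F → ℕ → MvPolynomial (Option (Fin m)) ℝ}
    {TH : ℕ → Pool.GEN.LnT F → ℕ → MvPolynomial (Option (Fin m)) ℝ}
    {Gt : ℕ → Pool.GEN.PtT F → MvPolynomial (Option (Fin m)) ℝ}
    {Ht : ℕ → Pool.GEN.LnT F → MvPolynomial (Option (Fin m)) ℝ},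
    Pool.W.V1E.WG c (r + 1) D Dr N N₂ R C a Eb ε₀ η₀ Pt o lv be F b κ z B gc gT g₀ G H T TH Gt Ht →
    Set.InjOn c (Set.Iio (r + 2)) → R r → 0 ≤ η₀ →
    ∀ {i w : ℕ} {ζ M₁ θ : ℝ} {A : F.Ω → Prop}, 0 < Pool.K2S.Pe F.p A → Pool.K2S.Sub A B →
    (∀ (E : F.Ω → Prop) (hE : 0 < Pool.K2S.Pe F.p E), Pool.K2S.Sub E A → Pool.K2S.Pe F.p A / 2 ≤ Pool.K2S.Pe F.p E →
      (Pool.FLF.Fam.sub F E hE).Tm θ) → 0 ≤ θ → 0 ≤ ζ → 0 ≤ M₁ →
    i ≤ N → w ≤ N → o i ≤ o w → ⌊o w * J⌋₊ ≤ J →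
    C₁ * (θ + 1) ≤ η₀ * J * Real.log 2 → C₁ * (θ + 1) ≤ ((J : ℝ) - ⌊o w * J⌋₊) * Real.log 2 →
    C₁ ≤ C * (η₀ * J) → 0 ≤ lv i r → 0 ≤ lv i (r + 1) → ζ + 4 * (C * η₀) ≤ lv i (r + 1) →
    M₁ + C₁ * (ζ + C * η₀) ≤ o w - o i →
    M₁ + C₁ * (ζ + C * η₀) + (lv i (r + 1) + (a - o i)) ≤ Pt a (o i) →
    (∀ l ≤ r, R l → Eb + (lv i l + (a - o i)) + M₁ + C₁ * (ζ + C * η₀) ≤ 1) →
    (∀ l ≤ r, ¬ R l → Eb + be i l + M₁ + C₁ * (ζ + C * η₀) ≤ 1) →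
    ∃ (B' : F.Ω → Prop) (κL : Pool.GEN.LnT F → ℝ) (κG : Pool.GEN.PtT F → ℝ), Pool.K2S.Sub B' A ∧
      Pool.K2S.Pe F.p A / 8 ≤ Pool.K2S.Pe F.p B' ∧ (∀ ω, B' ω → κG (Pool.PB.ptr F J ω) = κL (Pool.KSAT.slam F ⌊o w * J⌋₊ ω)) ∧
      ∀ ω, B' ω → |eval (Pool.GEN.bt F ω) (pderiv (some (c r)) (Ht i (Pool.KSAT.slam F ⌊o i * J⌋₊ ω))) -
        eval (Pool.GEN.bt F ω) (pderiv (some (c r)) (H i (Pool.KSAT.slam F ⌊o i * J⌋₊ ω) (r + 1))) -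
        2 ^ ⌊lv i r * J⌋₊ / 2 ^ ⌊lv i (r + 1) * J⌋₊ * κL (Pool.KSAT.slam F ⌊o w * J⌋₊ ω)| ≤
        2 ^ ⌊lv i r * J⌋₊ / 2 ^ ⌊lv i (r + 1) * J⌋₊ * (2 / 2 ^ ⌊M₁ * J⌋₊) := by
  classical
  obtain ⟨C₀, hC₀, hval⟩ := Pool.CR99.chart_val m 0 D
  obtain ⟨C₃, hC₃, hpath⟩ := Pool.CR99.vel_path m D
  obtain ⟨C₅, hvis⟩ := Pool.W.CR99.rv_vis D r
  obtain ⟨C₆, hC₆⟩ : ∃ C₆ : ℕ, C₆ = ⌈C₀⌉₊ + ⌈C₃⌉₊ := ⟨_, rfl⟩
  have hC06 : C₀ + C₃ ≤ C₆ := by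
    rw [hC₆]
    push_cast
    exact add_le_add (Nat.le_ceil C₀) (Nat.le_ceil C₃)
  refine ⟨C₆ + 10 * C₅ + 20, by omega, ?_⟩
  intro c Dr N N₂ R C a Eb ε₀ η₀ Pt o lv be J F b κ z B gc gT g₀ G H T TH Gt Ht W hc hR hη i w ζ M₁
    θ A hA hAB hTm hθ hζ hM₁ hi hw hiw hwJ ht1 ht2 hCJ hl0 hl1 hpos hm1 hm2 hs1 hs2
  have hJ0 : (0 : ℝ) ≤ J := Nat.cast_nonneg J
  have hC1 : 1 ≤ C := W.win.C1
  have hl2 : 0 < Real.log 2 := Real.log_pos one_lt_two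
  have h2 : (0 : ℝ) < 2 := by norm_num
  push_cast at ht1 ht2 hCJ hm1 hm2 hs1 hs2
  have c5 : (0 : ℝ) ≤ C₅ := Nat.cast_nonneg _
  have c6 : (0 : ℝ) ≤ C₆ := Nat.cast_nonneg _
  have hηJ : 0 ≤ η₀ * J := mul_nonneg hη hJ0
  have hCη : η₀ * J ≤ C * (η₀ * J) := le_mul_of_one_le_left hηJ hC1
  obtain ⟨X, hX⟩ : ∃ X : ℝ, X = C * (η₀ * J) := ⟨_, rfl⟩
  obtain ⟨Zt, hZt⟩ : ∃ Z : ℝ, Z = ζ * J := ⟨_, rfl⟩
  have hX0 : 0 ≤ X := by rw [hX]; exact hηJ.trans hCη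
  have hZ0 : 0 ≤ Zt := by rw [hZt]; exact mul_nonneg hζ hJ0
  have hX4 : (C₆ : ℝ) + 10 * C₅ + 20 ≤ X := by rw [hX]; exact hCJ
  have hηX : η₀ * J ≤ X := by rw [hX]; exact hCη
  have hθ1 : 0 ≤ θ + 1 := by linarith
  have hc1 : Set.InjOn c (Set.Iio (r + 1)) := hc.mono fun y hy => by
    rw [Set.mem_Iio] at hy ⊢
    omega
  -- the numbers
  obtain ⟨Q, hQ⟩ : ∃ Q : ℝ, Q = (C₆ + 10 * C₅ + 20) * (Zt + X) := ⟨_, rfl⟩
  have hQ1 : 20 * (Zt + X) + 10 * (C₅ * (Zt + X)) ≤ Q := by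
    rw [hQ]
    have : 0 ≤ (C₆ : ℝ) * (Zt + X) := by positivity
    linarith
  have h5X : 0 ≤ (C₅ : ℝ) * X := by positivity
  have h5Z : 0 ≤ (C₅ : ℝ) * Zt := by positivity
  obtain ⟨su, hsu⟩ : ∃ su, su = ⌊lv i r * J⌋₊ := ⟨_, rfl⟩
  obtain ⟨sn, hsn⟩ : ∃ sn, sn = ⌊lv i (r + 1) * J⌋₊ := ⟨_, rfl⟩
  obtain ⟨x, hx⟩ : ∃ x, x = ⌊(ζ + 8 * (C * η₀)) * J⌋₊ := ⟨_, rfl⟩
  obtain ⟨M, hM⟩ : ∃ M, M = ⌊M₁ * J⌋₊ := ⟨_, rfl⟩
  have su1 : (su : ℝ) ≤ lv i r * J := by rw [hsu]; exact Nat.floor_le (mul_nonneg hl0 hJ0)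
  have su2 : lv i r * J < su + 1 := by rw [hsu]; exact Nat.lt_floor_add_one _
  have sn1 : (sn : ℝ) ≤ lv i (r + 1) * J := by
    rw [hsn]; exact Nat.floor_le (mul_nonneg hl1 hJ0)
  have ex : (ζ + 8 * (C * η₀)) * (J : ℝ) = Zt + 8 * X := by rw [hX, hZt]; ring
  have x1 : (x : ℝ) ≤ Zt + 8 * X := by
    rw [hx, ← ex]
    exact Nat.floor_le (by rw [ex]; linarith)
  have x2 : Zt + 8 * X < x + 1 := by rw [hx, ← ex]; exact Nat.lt_floor_add_one _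
  have M1 : (M : ℝ) ≤ M₁ * J := by rw [hM]; exact Nat.floor_le (mul_nonneg hM₁ hJ0)
  have hM0 : (0 : ℝ) ≤ M := Nat.cast_nonneg M
  obtain ⟨M₀, hM₀⟩ : ∃ M₀, M₀ = M + C₅ * (x + 1) + 3 := ⟨_, rfl⟩
  have M₀1 : (M₀ : ℝ) ≤ M₁ * J + C₅ * (Zt + 8 * X + 1) + 3 := by
    rw [hM₀]
    push_cast
    have : (C₅ : ℝ) * (x + 1) ≤ C₅ * (Zt + 8 * X + 1) :=
      mul_le_mul_of_nonneg_left (by linarith) c5
    linarith
  have eQ : (C₆ + 10 * C₅ + 20) * (ζ + C * η₀) * (J : ℝ) = Q := by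
    rw [hQ, hX, hZt]
    ring
  have hm1J : M₁ * J + Q ≤ o w * J - o i * J := by
    have h1 := mul_le_mul_of_nonneg_right hm1 hJ0
    rw [add_mul, eQ, sub_mul] at h1
    exact h1
  have hm2J : M₁ * J + Q + (lv i (r + 1) * J + (a * J - o i * J)) ≤ Pt a (o i) * J := by
    have h1 := mul_le_mul_of_nonneg_right hm2 hJ0
    rw [add_mul, add_mul M₁, eQ] at h1
    linarith
  obtain ⟨hoi0, hoia⟩ := W.win.ho i hi
  obtain ⟨how0, howa⟩ := W.win.ho w hw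
  have ha0 : 0 ≤ a := hoi0.trans hoia
  have a1 : (⌊a * J⌋₊ : ℝ) ≤ a * J := Nat.floor_le (mul_nonneg ha0 hJ0)
  have a2 : a * J < ⌊a * J⌋₊ + 1 := Nat.lt_floor_add_one _
  have o1 : (⌊o i * J⌋₊ : ℝ) ≤ o i * J := Nat.floor_le (mul_nonneg hoi0 hJ0)
  have o2 : o i * J < ⌊o i * J⌋₊ + 1 := Nat.lt_floor_add_one _
  have w2 : o w * J < ⌊o w * J⌋₊ + 1 := Nat.lt_floor_add_one _
  have hia' : ⌊o i * J⌋₊ ≤ ⌊a * J⌋₊ :=
    Nat.floor_le_floor (mul_le_mul_of_nonneg_right hoia hJ0)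
  have hiw' : ⌊o i * J⌋₊ ≤ ⌊o w * J⌋₊ :=
    Nat.floor_le_floor (mul_le_mul_of_nonneg_right hiw hJ0)
  have hiJ : ⌊o i * J⌋₊ ≤ J := hiw'.trans hwJ
  obtain ⟨-, -, a3, a4, n5, n6⟩ := W.win.g_num hi (l := r + 1) le_rfl
  obtain ⟨t1, t2⟩ := (W.win.t_num hi (l := r) (Nat.lt_succ_self r)).1 hR
  have hbi := W.win.evs i hi
  -- the row
  obtain ⟨y, hy⟩ : ∃ y : ℝ, y = lv i (r + 1) * J + ((⌊a * J⌋₊ : ℝ) - ⌊o i * J⌋₊) -
      (Zt + 4 * X) := ⟨_, rfl⟩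
  have f3 : (⌊o i * J⌋₊ : ℝ) ≤ ⌊a * J⌋₊ := by exact_mod_cast hia'
  have hposJ : Zt + 4 * X ≤ lv i (r + 1) * J := by
    have := mul_le_mul_of_nonneg_right hpos hJ0
    refine le_trans (le_of_eq ?_) this
    rw [hX, hZt]; ring
  have hy0 : 0 ≤ y := by rw [hy]; linarith
  have q1 : (⌊y⌋₊ : ℝ) ≤ y := Nat.floor_le hy0
  have q2 : y < ⌊y⌋₊ + 1 := Nat.lt_floor_add_one _
  have eP : (Pt a (o i) - 2 * (C * η₀)) * (J : ℝ) = Pt a (o i) * J - 2 * X := by rw [hX]; ring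
  have hMJ : 0 ≤ M₁ * J := mul_nonneg hM₁ hJ0
  have hQX : 20 * X ≤ Q := by linarith
  have e1 : (⌊y⌋₊ : ℝ) + C * (η₀ * J) ≤ (Pt a (o i) - 2 * (C * η₀)) * J := by
    rw [eP, ← hX]
    linarith
  have e5 : (⌊y⌋₊ : ℝ) + C * (η₀ * J) ≤ gc i (r + 1) := by rw [← hX]; linarith
  have hro := W.win.row i hi i hi le_rfl ⌊y⌋₊ e1 e5
  obtain ⟨p, hp⟩ : ∃ p, p = ⌊(Pt a (o i) - 2 * (C * η₀)) * J⌋₊ := ⟨_, rfl⟩
  have p2 : Pt a (o i) * J - 2 * X < p + 1 := by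
    rw [hp, ← eP]
    exact Nat.lt_floor_add_one _
  have hU : ⌊C * (η₀ * J)⌋₊ ≤ x := by
    rw [hx]
    refine Nat.floor_le_floor ?_
    rw [ex, ← hX]
    linarith
  have hfl : (⌊(Eb + (fun _ : ℕ => η₀) i + (fun _ : ℕ => η₀) i) * J⌋₊ : ℝ) ≤
      Eb * J + 2 * (η₀ * J) := by
    refine (Nat.floor_le ?_).trans (le_of_eq (by ring))
    have : 0 ≤ (Eb + η₀ + η₀) * (J : ℝ) := mul_nonneg (by linarith [W.win.Eb0]) hJ0
    exact this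
  -- visibility
  have hv := hvis (F := F) (c := c) (M₀ := M₀) (x := x) (su := su) (sn := sn) hc1 hiJ hbi.thin
    (fun y l => hbi.ball.degG y l) (fun y l => hbi.ball.depG y l) hbi.cls hbi.dG hbi.dH hbi.pG
    hbi.pH hbi.agr (fun ω hω b hb => (hro.box ω hω b hb).trans
      (div_le_div_of_nonneg_right (pow_le_pow_right₀ (by norm_num) hU) (by positivity))) (by
      have : ((gT i r + sn + M₀ : ℕ) : ℝ) ≤
          ((su + ⌊(fun k => Pt a (o k) - 2 * (C * η₀)) i * J⌋₊ + x : ℕ) : ℝ) := by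
        beta_reduce
        rw [← hp]
        push_cast
        linarith
      exact_mod_cast this) (by
      have : ((gT i r + sn : ℕ) : ℝ) ≤ ((su + ⌊y⌋₊ + x : ℕ) : ℝ) := by
        push_cast
        linarith
      exact_mod_cast this) (by
      beta_reduce
      refine Nat.floor_le_floor ?_
      rw [eP]
      linarith) (fun l hl => by
      have : ((⌊(Eb + (fun _ : ℕ => η₀) i + (fun _ : ℕ => η₀) i) * J⌋₊ + gT i l + M₀ + C₅ : ℕ) : ℝ)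
          ≤ (J : ℕ) := by
        push_cast at hfl ⊢
        by_cases hRl : R l
        · obtain ⟨-, s2⟩ := (W.win.t_num hi (l := l) hl).1 hRl
          have s3 := mul_le_mul_of_nonneg_right (hs1 l (by omega) hRl) hJ0
          rw [add_mul, eQ, one_mul] at s3
          linarith
        · obtain ⟨-, s2⟩ := (W.win.t_num hi (l := l) hl).2 hRl
          have s3 := mul_le_mul_of_nonneg_right (hs2 l (by omega) hRl) hJ0
          rw [add_mul, eQ, one_mul] at s3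
          linarith
      exact_mod_cast this)
  -- the size
  obtain ⟨cP, hcP⟩ : ∃ cP : Pool.GEN.LnT F → Polynomial ℝ, cP =
      Pool.CR99.spt c r su sn ⌊o i * J⌋₊ (fun s => Ht i s - H i s (r + 1)) := ⟨_, rfl⟩
  have hcPe : ∀ ω, (cP (Pool.KSAT.slam F ⌊o i * J⌋₊ ω)).eval (Pool.PB.Trl.rt F ⌊o i * J⌋₊ ω) = 2 ^ sn / 2 ^ su *
      (eval (Pool.GEN.bt F ω) (pderiv (some (c r)) (Ht i (Pool.KSAT.slam F ⌊o i * J⌋₊ ω))) -
      eval (Pool.GEN.bt F ω) (pderiv (some (c r)) (H i (Pool.KSAT.slam F ⌊o i * J⌋₊ ω) (r + 1)))) := fun ω => by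
    rw [hcP, Pool.CR99.eval_spt hiJ]
    beta_reduce
    rw [map_sub, map_sub]
  have hdeg : ∀ s, (cP s).natDegree ≤ D := fun s => by
    rw [hcP]
    exact Pool.CR99.deg_spt su sn _ (fun s => (totalDegree_sub _ _).trans (max_le (hbi.dH s)
      (hbi.ball.degH s _))) s
  have hsz : ∀ ω, B ω → |(cP (Pool.KSAT.slam F ⌊o i * J⌋₊ ω)).eval (Pool.PB.Trl.rt F ⌊o i * J⌋₊ ω)| ≤ 2 ^ x := by
    intro ω hω
    have h3 := Pool.W.CR99.wg_near W hc1 hR hi hi le_rfl hiJ hζ hη (by rw [← hX]; linarith) (by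
      by_contra h4
      push Not at h4
      have h5 := mul_le_mul_of_nonneg_right h4.le hJ0
      rw [add_mul (Pt a (o i)), add_mul (lv i (r + 1)), sub_mul, ← hZt] at h5
      have h6 : 0 < Q := by linarith
      linarith) hpos ω hω
    rw [hcPe, abs_mul, abs_of_pos (show (0 : ℝ) < 2 ^ sn / 2 ^ su by positivity)]
    refine (mul_le_mul_of_nonneg_left h3 (by positivity)).trans ?_
    have e6 : (lv i r - lv i (r + 1) + ζ + 6 * (C * η₀)) * (J : ℝ) =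
        lv i r * J - lv i (r + 1) * J + Zt + 6 * X := by rw [hX, hZt]; ring
    rw [e6, ← Real.rpow_natCast 2 x]
    exact Pool.CR99.pw3' (by linarith)
  -- the velocity
  have hE3 : C₃ * (θ + 1) ≤ ((J : ℝ) - ⌊o i * J⌋₊) * Real.log 2 := by
    have q3 : C₃ * (θ + 1) ≤ (C₆ + 10 * C₅ + 20) * (θ + 1) :=
      mul_le_mul_of_nonneg_right (by linarith) hθ1
    have q4 : ((J : ℝ) - ⌊o w * J⌋₊) * Real.log 2 ≤ ((J : ℝ) - ⌊o i * J⌋₊) * Real.log 2 := by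
      have : (⌊o i * J⌋₊ : ℝ) ≤ ⌊o w * J⌋₊ := by exact_mod_cast hiw'
      exact mul_le_mul_of_nonneg_right (by linarith) hl2.le
    linarith
  obtain ⟨A₂, b1, b2, b3⟩ := hpath hA cP (fun _ => 0) (2 ^ x) 0 θ (le_refl ⌊o i * J⌋₊) hiJ hdeg
    (fun _ => by simp) (by positivity) hθ (hTm A hA (fun _ h => h) (by linarith)) hE3
    (fun ω hω => by
      rw [Polynomial.eval_zero, sub_zero]
      exact hsz ω (hAB ω hω)) (fun ω _ => by simp)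
  rw [Nat.sub_self, pow_zero, one_mul, add_zero] at b3
  have hA₂ : 0 < Pool.K2S.Pe F.p A₂ := by linarith
  obtain ⟨cy, hcy⟩ := Pool.CR99.vis_of A₂
    (fun ω => (cP (Pool.KSAT.slam F ⌊o i * J⌋₊ ω)).eval (Pool.PB.Trl.rt F ⌊o i * J⌋₊ ω))
  have hc' : ∀ ω, A₂ ω → |(cP (Pool.KSAT.slam F ⌊o i * J⌋₊ ω)).eval (Pool.PB.Trl.rt F ⌊o i * J⌋₊ ω) -
      cy (Pool.PB.ptr F J ω)| ≤ 2 ^ (C₅ * (x + 1)) / 2 ^ M₀ := by
    intro ω hω
    obtain ⟨ν, g1, g2, g3⟩ := hcy ω hω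
    rw [g3, hcP]
    exact hv ω ν (hAB ω (b1 ω hω)) (hAB ν (b1 ν g1)) g2
  obtain ⟨S₀, hS₀⟩ : ∃ S₀ : ℝ, S₀ = 1 / 2 ^ (⌊o w * J⌋₊ - ⌊o i * J⌋₊) *
    (Real.exp (C₃ * (θ + 1)) * 2 ^ x) := ⟨_, rfl⟩
  have hS₀0 : 0 < S₀ := by rw [hS₀]; positivity
  obtain ⟨B₁, κL, κG, k1, k2, hclo, hown, -⟩ := hval J F A₂ hA₂ ⌊o w * J⌋₊ (ζ := Unit)
    (fun _ => ()) (fun _ => ()) (fun _ j => Fin.elim0 j)
    (Pool.CR99.res (⌊o w * J⌋₊ - ⌊o i * J⌋₊) cP) (fun _ j => Fin.elim0 j) cy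
    (fun _ j => Fin.elim0 j) S₀ (2 ^ (C₅ * (x + 1)) / 2 ^ M₀) 0 0 θ M hwJ (Pool.CR99.deg_res hdeg)
    (fun _ j => Fin.elim0 j) hS₀0 hθ (hTm A₂ hA₂ b1 b2) (by
      refine le_trans (mul_le_mul_of_nonneg_right ?_ hθ1) ht2
      linarith)
    (fun _ _ => rfl) (fun _ j => Fin.elim0 j) (fun ω hω => by
      rw [Pool.CR99.eval_res hiw' hwJ]
      exact hc' ω hω) (fun _ _ j => Fin.elim0 j)
    (fun ω hω => by
      rw [Finset.univ_eq_empty, Finset.sum_empty, sub_zero, Pool.CR99.der_res hiw' hwJ, abs_mul,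
        abs_of_pos (show (0 : ℝ) < 1 / 2 ^ (⌊o w * J⌋₊ - ⌊o i * J⌋₊) by positivity), hS₀]
      exact mul_le_mul_of_nonneg_left (b3 ω hω) (by positivity)) (by
      simp only [mul_zero, add_zero]
      have e9 : (1 : ℝ) / (4 * 2 ^ M) = 1 / (8 * 2 ^ M) + 1 / (8 * 2 ^ M) := by
        field_simp
        norm_num
      have e8 : (1 : ℝ) / (8 * 2 ^ M) = (2 : ℝ) ^ (-((3 : ℝ) + M)) := by
        rw [Real.rpow_neg h2.le, Real.rpow_add h2, Real.rpow_natCast]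
        norm_num
      rw [e9]
      refine add_le_add ?_ ?_
      · have g1 : Real.exp (C₀ * (θ + 1)) * Real.exp (C₃ * (θ + 1)) ≤ (2 : ℝ) ^ (η₀ * J) := by
          rw [← Real.exp_add, Real.rpow_def_of_pos h2]
          refine Real.exp_le_exp.2 ?_
          rw [← add_mul]
          refine (mul_le_mul_of_nonneg_right (hC06.trans ?_) hθ1).trans (ht1.trans
            (le_of_eq (by ring)))
          linarith
        have g2 : (2 : ℝ) ^ (η₀ * J) * 2 ^ x / 2 ^ (⌊o w * J⌋₊ - ⌊o i * J⌋₊) ≤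
            1 / (8 * 2 ^ M) := by
          rw [e8, ← Real.rpow_natCast 2 x, ← Real.rpow_natCast, ← Real.rpow_add h2,
            ← Real.rpow_sub h2]
          refine Real.rpow_le_rpow_of_exponent_le (by norm_num) ?_
          rw [Nat.cast_sub hiw']
          linarith
        refine le_trans ?_ g2
        rw [hS₀]
        calc Real.exp (C₀ * (θ + 1)) * (1 / 2 ^ (⌊o w * J⌋₊ - ⌊o i * J⌋₊) *
              (Real.exp (C₃ * (θ + 1)) * 2 ^ x)) =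
              (Real.exp (C₀ * (θ + 1)) * Real.exp (C₃ * (θ + 1))) * 2 ^ x /
                2 ^ (⌊o w * J⌋₊ - ⌊o i * J⌋₊) := by ring
          _ ≤ _ := by gcongr
      · rw [hM₀, div_le_div_iff₀ (by positivity) (by positivity), one_mul, pow_add, pow_add]
        have : (0 : ℝ) < 2 ^ (C₅ * (x + 1)) * 2 ^ M := by positivity
        linarith)
  refine ⟨B₁, κL, κG, fun ω hω => b1 ω (k1 ω hω), by linarith, fun ω hω => (hclo ω hω).symm,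
    fun ω hω => ?_⟩
  have h3 := (hown ω hω _ (Pool.PB.Trl.rt_mem F ⌊o w * J⌋₊ ω)).1
  rw [Finset.univ_eq_empty, Finset.sum_empty, sub_zero, Pool.CR99.eval_res hiw' hwJ, hcPe] at h3
  rw [← hsu, ← hsn, ← hM]
  obtain ⟨α, hα⟩ : ∃ α, α = eval (Pool.GEN.bt F ω) (pderiv (some (c r)) (Ht i (Pool.KSAT.slam F ⌊o i * J⌋₊ ω))) -
      eval (Pool.GEN.bt F ω) (pderiv (some (c r)) (H i (Pool.KSAT.slam F ⌊o i * J⌋₊ ω) (r + 1))) := ⟨_, rfl⟩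
  rw [← hα] at h3 ⊢
  have e1 : α - 2 ^ su / 2 ^ sn * κL (Pool.KSAT.slam F ⌊o w * J⌋₊ ω) =
      2 ^ su / 2 ^ sn * (2 ^ sn / 2 ^ su * α - κL (Pool.KSAT.slam F ⌊o w * J⌋₊ ω)) := by
    field_simp
  rw [e1, abs_mul, abs_of_pos (show (0 : ℝ) < 2 ^ su / 2 ^ sn by positivity)]
  exact mul_le_mul_of_nonneg_left h3 (by positivity)

end Pool.W.CR99
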