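import Pool.Agent.H99.D2.Unc
import Pool.Agent.H31.W.H99.D2.Bld
import Pool.Agent.H31.W.H99.D2.Blf
import Pool.Agent.H31.W.H99.D2.Una
import Pool.Agent.H31.W.H99.D2.Unb
import Pool.Agent.H31.W1.H2.GEN.EvS
import Pool.Agent.H31.W1.H80.GEN.Chn

/-!
# The closed slope by scaling, class form

`pol_box`: the box from the samples, for a closed polynomial. `blx_unc`: `BlX` on a later window, by the
scaling of the row label of an earlier window.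
-/

set_option autoImplicit false

namespace Pool.W.CR99

open Pool.CR99

open Finset Real MvPolynomial
open Pool.Agent.H49.Ent Pool.Agent.H32.Dense Pool.STK Pool.KA Pool.KSAT Pool.K2S Pool.PB Pool.S6C
open Pool.GEN Pool.CHT Pool.CHX Pool.ISO Pool.D2R Pool.D2G30 Pool.V1E
open Pool.FLF (Fam.sub)
open Pool.PB.Trl (rt rt_mem t_rt)
open Pool.GRD (LbP)


/-- **The closed slope by scaling**, class form. -/
theorem blx_unc (m D r : ℕ) (hD1 : 1 ≤ D) : ∃ C₁ : ℕ, 1 ≤ C₁ ∧ ∀ {S : Pool.PB.PCl m} {C₀ : ℝ}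
    {c : ℕ → Fin m} {Dr N N₂ : ℕ} {R : ℕ → Prop} {C a Eb ε₀ η₀ : ℝ} {Pt : ℝ → ℝ → ℝ}
    {o : ℕ → ℝ} {lv be b : ℕ → ℕ → ℝ} {K₁ : ℝ}, Pool.GEN.TmC S C₀ → Set.InjOn c (Set.Iio (r + 2)) → R r →
    D ≤ Dr → 0 < K₁ → 0 < η₀ → 1 ≤ C → a ≤ 1 →
    Pool.W.CR99.WgS S c r D Dr N N₂ R C a Eb ε₀ η₀ Pt o lv be b K₁ →
    ∀ (n : ℕ) {i w : ℕ} {ζ M₁ P : ℝ} {x₀ : ℕ → ℝ}, 0 ≤ ζ → 0 ≤ M₁ → 0 ≤ P →
    i ≤ N → w ≤ N → o i ≤ o w → o w < 1 → (∀ k < n, k ≤ N ∧ o i ≤ o k) →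
    (∀ k ≤ N, o i ≤ o k → lv k (r + 1) + (a - o k) ≤ Pt a (o i) + ζ) →
    (∀ k ≤ N, ζ + 4 * (C * η₀) ≤ lv k (r + 1)) → 0 ≤ lv i r →
    M₁ + C₁ * (ζ + C * η₀) ≤ o w - o i →
    M₁ + C₁ * (ζ + C * η₀) + (lv i (r + 1) + (a - o i)) ≤ Pt a (o i) →
    (∀ l ≤ r, R l → Eb + (lv i l + (a - o i)) + M₁ + C₁ * (ζ + C * η₀) ≤ 1) →
    (∀ l ≤ r, ¬ R l → Eb + be i l + M₁ + C₁ * (ζ + C * η₀) ≤ 1) →
    (∀ k < n, lv k r - lv k (r + 1) + ζ + 7 * (C * η₀) ≤ x₀ k) →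
    (∀ k < n, lv i r - lv i (r + 1) - M₁ + C * η₀ ≤ x₀ k) →
    P + ζ + 20 * (C * η₀) ≤ lv w (r + 1) →
    P + 20 * (C * η₀) ≤ lv w r + (lv i (r + 1) - lv i r) + M₁ →
    Pool.CR99.BlX S c r (Pool.CR99.bmd D) D (o w) P n o (fun k => lv k (r + 1) - η₀) x₀ (16 * K₁) := by
  classical
  obtain ⟨C₁, hC₁, hev⟩ := Pool.W.CR99.unc_ev m D r
  refine ⟨C₁, hC₁, ?_⟩
  intro S C₀ c Dr N N₂ R C a Eb ε₀ η₀ Pt o lv be b K₁ htm hc hR hDr hK₁ hη hC ha1 hW n i w ζ M₁ P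
    x₀ hζ hM₁ hP hi hw hiw hw1 hn hrow hpos hl0 hm1 hm2 hs1 hs2 hx1 hx2 hP1 hP2
  have hl2 : 0 < Real.log 2 := Real.log_pos one_lt_two
  have h2 : (0 : ℝ) < 2 := by norm_num
  have c1 : (1 : ℝ) ≤ C₁ := by exact_mod_cast hC₁
  have hc1 : Set.InjOn c (Set.Iio (r + 1)) := hc.mono fun y hy => by
    rw [Set.mem_Iio] at hy ⊢
    omega
  have hCη : 0 < C * η₀ := mul_pos (by linarith) hη
  obtain ⟨ψ, hψ, J₁, hJ₁⟩ := Pool.CR99.tm_num hC₁ hη hw1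
  obtain ⟨J₂, hJ₂⟩ := exists_nat_ge (((C₁ : ℝ) + 10) / (C * η₀))
  refine Pool.S6C.Bas.mono (max J₁ J₂) (Pool.S6C.Bas.and (hW (1 / 8) (by norm_num))
    (Pool.GRW.bas_part (Pool.GRW.tms_bas htm hψ) (show (0 : ℝ) < 2 * K₁ by linarith))) ?_
  rintro J hJ F A ⟨⟨B, z, gc, gT, g₀, G, H, T, TH, Gt, Ht, b1, b2, W⟩, htB⟩
  have hJ0 : (0 : ℝ) ≤ J := Nat.cast_nonneg J
  obtain ⟨t1, t2⟩ := hJ₁ J ((le_max_left _ _).trans hJ)
  have j2 : (C₁ : ℝ) + 10 ≤ C * (η₀ * J) := by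
    have e1 : (J₂ : ℝ) ≤ J := by exact_mod_cast (le_max_right _ _).trans hJ
    have e2 := hJ₂.trans e1
    rw [div_le_iff₀ hCη] at e2
    linarith
  have hB : 0 < Pool.K2S.Pe F.p B := (htB B b1 (b2.trans (mul_le_mul_of_nonneg_right (by linarith)
    (Pool.K2S.Pe_nonneg F.isLaw B)))).1
  obtain ⟨X, hX⟩ : ∃ X : ℝ, X = C * (η₀ * J) := ⟨_, rfl⟩
  obtain ⟨Zt, hZt⟩ : ∃ Z : ℝ, Z = ζ * J := ⟨_, rfl⟩
  have hηJ : 0 ≤ η₀ * J := mul_nonneg hη.le hJ0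
  have hηX : η₀ * J ≤ X := by rw [hX]; exact le_mul_of_one_le_left hηJ hC
  have hX0 : 0 ≤ X := hηJ.trans hηX
  have hZ0 : 0 ≤ Zt := by rw [hZt]; exact mul_nonneg hζ hJ0
  rw [← hX] at j2
  have hokJ : ∀ k ≤ N, ⌊o k * J⌋₊ ≤ J := fun k hk => by
    obtain ⟨q1, q2⟩ := W.win.ho k hk
    refine Nat.floor_le_of_le ?_
    have := mul_le_mul_of_nonneg_right (q2.trans ha1) hJ0
    linarith
  have hwJ := hokJ w hw
  have hiw' : ⌊o i * J⌋₊ ≤ ⌊o w * J⌋₊ :=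
    Nat.floor_le_floor (mul_le_mul_of_nonneg_right hiw hJ0)
  obtain ⟨how0, -⟩ := W.win.ho w hw
  have f0 : (⌊o w * J⌋₊ : ℝ) ≤ o w * J := Nat.floor_le (mul_nonneg how0 hJ0)
  have hJX : (1 : ℝ) ≤ C * (η₀ * J) := by rw [← hX]; linarith
  have hlv1 : 0 ≤ lv i (r + 1) := by
    have := hpos i hi
    linarith
  obtain ⟨B', κL, κG, k1, k2, hclo, hown⟩ := hev W hc hR hη.le (i := i) (w := w) (ζ := ζ)
    (M₁ := M₁) (θ := ψ * J) hB (fun _ h => h) (fun E hE hEB hPE =>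
      (htB E (fun ω hω => b1 ω (hEB ω hω)) (by
        have := mul_le_mul_of_nonneg_left hPE (show (0 : ℝ) ≤ 2 * K₁ by linarith)
        linarith)).2) (mul_nonneg hψ.le hJ0) hζ hM₁ hi hw hiw hwJ t1 (t2.trans (by
      have e2 : (⌊o w * J⌋₊ : ℝ) * Real.log 2 ≤ o w * J * Real.log 2 :=
        mul_le_mul_of_nonneg_right f0 hl2.le
      linarith)) (by rw [← hX]; linarith) hl0 hlv1 (hpos i hi) hm1 hm2 hs1 hs2
  have hbi := W.win.evs i hi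
  have hbw := W.win.evs w hw
  -- the numbers
  obtain ⟨su, hsu⟩ : ∃ su, su = ⌊lv i r * J⌋₊ := ⟨_, rfl⟩
  obtain ⟨sn, hsn⟩ : ∃ sn, sn = ⌊lv i (r + 1) * J⌋₊ := ⟨_, rfl⟩
  rw [← hsu, ← hsn] at hown
  have su1 : (su : ℝ) ≤ lv i r * J := by rw [hsu]; exact Nat.floor_le (mul_nonneg hl0 hJ0)
  have sn2 : lv i (r + 1) * J < sn + 1 := by rw [hsn]; exact Nat.lt_floor_add_one _
  obtain ⟨M, hM⟩ : ∃ M, M = ⌊M₁ * J⌋₊ := ⟨_, rfl⟩
  have M2 : M₁ * J < M + 1 := by rw [hM]; exact Nat.lt_floor_add_one _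
  rw [← hM] at hown
  have hηf : (⌊η₀ * J⌋₊ : ℝ) ≤ η₀ * J := Nat.floor_le hηJ
  -- the closed polynomial
  obtain ⟨ML, hML⟩ : ∃ ML : Pool.GEN.LnT F → MvPolynomial (Option (Fin m)) ℝ, ML = fun s =>
      H i (Pool.D2R.co (⌊o w * J⌋₊ - ⌊o i * J⌋₊) s) (r + 1) + Pool.CR99.mu1 c r (2 ^ su / 2 ^ sn * κL s) := ⟨_, rfl⟩
  obtain ⟨Mp, hMp⟩ : ∃ Mp : Pool.GEN.PtT F → MvPolynomial (Option (Fin m)) ℝ, Mp = fun y =>
      G i y (r + 1) + Pool.CR99.mu1 c r (2 ^ su / 2 ^ sn * κG y) := ⟨_, rfl⟩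
  have dML : ∀ s, (ML s).totalDegree ≤ D := fun s => by
    rw [hML]
    exact (totalDegree_add _ _).trans (max_le (hbi.ball.degH _ _) ((Pool.CR99.deg_mu1 c r _).trans hD1))
  have dMp : ∀ y, (Mp y).totalDegree ≤ D := fun y => by
    rw [hMp]
    exact (totalDegree_add _ _).trans (max_le (hbi.ball.degG _ _) ((Pool.CR99.deg_mu1 c r _).trans hD1))
  have pML : ∀ s, Pool.GEN.DepC c (r + 1) (ML s) := fun s b b' h4 h5 => by
    rw [hML]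
    beta_reduce
    rw [map_add, map_add, hbi.ball.depH _ _ b b' h4 h5, Pool.CR99.dep_mu1 c r _ b b' h4 h5]
  have pMp : ∀ y, Pool.GEN.DepC c (r + 1) (Mp y) := fun y b b' h4 h5 => by
    rw [hMp]
    beta_reduce
    rw [map_add, map_add, hbi.ball.depG _ _ b b' h4 h5, Pool.CR99.dep_mu1 c r _ b b' h4 h5]
  have hMclo : ∀ ω, B' ω → Mp (Pool.PB.ptr F J ω) = ML (Pool.KSAT.slam F ⌊o w * J⌋₊ ω) := fun ω hω => by
    rw [hML, hMp]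
    beta_reduce
    rw [Pool.D2R.co_slam F hiw' hwJ, hclo ω hω, hbi.cls ω (k1 ω hω) (r + 1) (by omega)]
  have hMe : ∀ ω, B' ω → eval (Pool.GEN.bt F ω) (pderiv (some (c r)) (ML (Pool.KSAT.slam F ⌊o w * J⌋₊ ω))) =
      eval (Pool.GEN.bt F ω) (pderiv (some (c r)) (H i (Pool.KSAT.slam F ⌊o i * J⌋₊ ω) (r + 1))) +
        2 ^ su / 2 ^ sn * κL (Pool.KSAT.slam F ⌊o w * J⌋₊ ω) := fun ω hω => by
    rw [hML]
    beta_reduce
    rw [map_add, map_add, Pool.CR99.pd_mu1, Pool.D2R.co_slam F hiw' hwJ]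
  have hnear : ∀ k ≤ N, o i ≤ o k → ∀ ω, B' ω →
      |eval (Pool.GEN.bt F ω) (pderiv (some (c r)) (H k (Pool.KSAT.slam F ⌊o k * J⌋₊ ω) (r + 1))) -
        eval (Pool.GEN.bt F ω) (pderiv (some (c r)) (ML (Pool.KSAT.slam F ⌊o w * J⌋₊ ω)))| ≤
        (2 : ℝ) ^ ((lv k r - lv k (r + 1) + ζ + 6 * (C * η₀)) * J) +
        2 ^ su / 2 ^ sn * (2 / 2 ^ M) := by
    intro k hk hok ω hω
    have h3 := Pool.W.CR99.wg_near W hc1 hR hi hk hok (hokJ k hk) hζ hη.le hJX (hrow k hk hok) (hpos k hk) ω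
      (k1 ω hω)
    have h4 := hown ω hω
    rw [hMe ω hω]
    rw [abs_le] at h3 h4 ⊢
    constructor <;> linarith [h3.1, h3.2, h4.1, h4.2]
  have hUM : (2 : ℝ) ^ su / 2 ^ sn * (2 / 2 ^ M) = (2 : ℝ) ^ ((su : ℝ) - sn + (1 - (M : ℝ))) := by
    rw [Real.rpow_add h2, Real.rpow_sub h2, Real.rpow_sub h2, Real.rpow_natCast,
      Real.rpow_natCast, Real.rpow_natCast, Real.rpow_one]
  -- the box
  obtain ⟨K, hK⟩ : ∃ K : ℝ, K = (2 : ℝ) ^ ((lv w r - lv w (r + 1) + ζ + 6 * (C * η₀)) * J) +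
        2 ^ su / 2 ^ sn * (2 / 2 ^ M) := ⟨_, rfl⟩
  have hK0 : 0 < K := by rw [hK]; positivity
  obtain ⟨B₂, d1, d2, d3⟩ := Pool.CR99.pol_box (K := K) hDr (fun y l => hbw.ball.degG y l)
    (fun s l => hbw.ball.degH s l) (fun y l => hbw.ball.depG y l) (fun s l => hbw.ball.depH s l)
    hbw.cls hbw.relb dML dMp pML pMp k1 (by linarith) hMclo (fun ω hω => by
      rw [hK]
      exact hnear w hw hiw ω hω) hK0
  have hB₂B : Pool.K2S.Sub B₂ B := fun ω hω => k1 ω (d1 ω hω)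
  obtain ⟨-, -, a1, a2, -, -⟩ := W.win.g_num hw (l := r) (by omega)
  obtain ⟨-, -, a3, a4, -, -⟩ := W.win.g_num hw (l := r + 1) le_rfl
  have hPJ : 0 ≤ P * J := mul_nonneg hP hJ0
  have p2 : ((⌈P * J⌉₊ : ℕ) : ℝ) < P * J + 1 := Nat.ceil_lt_add_one hPJ
  have hP1J : P * J + Zt + 20 * X ≤ lv w (r + 1) * J := by
    have := mul_le_mul_of_nonneg_right hP1 hJ0
    refine le_trans (le_of_eq ?_) this
    rw [hX, hZt]
    ring
  have hP2J : P * J + 20 * X ≤ lv w r * J + (lv i (r + 1) * J - lv i r * J) + M₁ * J := by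
    have := mul_le_mul_of_nonneg_right hP2 hJ0
    calc P * J + 20 * X = (P + 20 * (C * η₀)) * J := by rw [hX]; ring
      _ ≤ _ := this
      _ = _ := by ring
  obtain ⟨zz, zz', hl, hlC⟩ := Pool.W.CR99.bmg_lbp (F := F) (c := c) (r := r) (D := D) (P := ⌈P * J⌉₊)
    (K₁ := 2 ^ ⌊η₀ * J⌋₊ * K) (hbw.ball.sub hB₂B) (fun ω hω => hbw.cls ω (hB₂B ω hω))
    dML dMp pML pMp (fun ω hω => hMclo ω (d1 ω hω)) d3 hc1 (by
      have e9 : (1 : ℝ) / 2 ^ ⌈P * J⌉₊ =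
          (2 : ℝ) ^ (-(⌈P * J⌉₊ : ℝ) - 1) + ((2 : ℝ) ^ (-(⌈P * J⌉₊ : ℝ) - 2) +
            (2 : ℝ) ^ (-(⌈P * J⌉₊ : ℝ) - 2)) := by
        have e8 : (2 : ℝ) ^ (-(⌈P * J⌉₊ : ℝ) - 1) = 1 / 2 ^ ⌈P * J⌉₊ / 2 := by
          rw [Real.rpow_sub_one h2.ne', Real.rpow_neg h2.le, Real.rpow_natCast, one_div]
        have e7 : (2 : ℝ) ^ (-(⌈P * J⌉₊ : ℝ) - 2) = 1 / 2 ^ ⌈P * J⌉₊ / 4 := by
          rw [show -(⌈P * J⌉₊ : ℝ) - 2 = -(⌈P * J⌉₊ : ℝ) - 1 - 1 by ring,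
            Real.rpow_sub_one h2.ne', e8]
          ring
        rw [e8, e7]
        ring
      rw [e9]
      refine add_le_add ?_ ?_
      · have : (1 : ℝ) / 2 ^ g₀ w (r + 1) = (2 : ℝ) ^ (-(g₀ w (r + 1) : ℝ)) := by
          rw [Real.rpow_neg h2.le, Real.rpow_natCast, one_div]
        rw [this]
        exact Real.rpow_le_rpow_of_exponent_le (by norm_num) (by linarith)
      · have e1 : (2 : ℝ) ^ ⌊η₀ * J⌋₊ * K * (1 / 2 ^ g₀ w r) =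
            (2 : ℝ) ^ ((⌊η₀ * J⌋₊ : ℝ) +
              (lv w r - lv w (r + 1) + ζ + 6 * (C * η₀)) * J - g₀ w r) +
            (2 : ℝ) ^ ((⌊η₀ * J⌋₊ : ℝ) + ((su : ℝ) - sn + (1 - (M : ℝ))) - g₀ w r) := by
          rw [hK, hUM]
          obtain ⟨α, hα⟩ : ∃ α : ℝ, α = (lv w r - lv w (r + 1) + ζ + 6 * (C * η₀)) * J :=
            ⟨_, rfl⟩
          obtain ⟨β, hβ⟩ : ∃ β : ℝ, β = (su : ℝ) - sn + (1 - (M : ℝ)) := ⟨_, rfl⟩
          rw [← hα, ← hβ, Real.rpow_sub h2, Real.rpow_sub h2, Real.rpow_add h2, Real.rpow_add h2,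
            Real.rpow_natCast, Real.rpow_natCast]
          ring
        rw [e1]
        refine add_le_add (Real.rpow_le_rpow_of_exponent_le (by norm_num) ?_)
          (Real.rpow_le_rpow_of_exponent_le (by norm_num) ?_)
        · have e2 : (lv w r - lv w (r + 1) + ζ + 6 * (C * η₀)) * (J : ℝ) =
              lv w r * J - lv w (r + 1) * J + Zt + 6 * X := by rw [hX, hZt]; ring
          rw [e2]
          linarith
        · linarith)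
  refine ⟨B₂, fun ω hω => b1 ω (hB₂B ω hω), ?_, Pool.CR99.BmV m c r D, zz, zz', Pool.CR99.bmG, ⌈P * J⌉₊, hl,
    Nat.le_ceil _, fun k hk => ?_⟩
  · have h5 : Pool.K2S.Pe F.p B ≤ 16 * Pool.K2S.Pe F.p B₂ := by linarith
    have := mul_le_mul_of_nonneg_left h5 hK₁.le
    linarith
  · obtain ⟨hkN, hok⟩ := hn k hk
    have hbk := W.win.evs k hkN
    obtain ⟨V₁, z₁, z₁', G₁, l1, l2⟩ := Pool.W.CR99.lbp_ball (hbk.ball.sub hB₂B)
      (fun ω hω => hbk.cls ω (hB₂B ω hω))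
    refine ⟨V₁, z₁, z₁', G₁, g₀ k (r + 1), l1, ?_, fun ω hω => ?_⟩
    · obtain ⟨-, -, q1, -, -, -⟩ := W.win.g_num hkN (l := r + 1) le_rfl
      have e1 : (lv k (r + 1) - η₀) * (J : ℝ) = lv k (r + 1) * J - η₀ * J := by ring
      beta_reduce
      rw [e1]
      exact q1
    · rw [map_sub, map_sub, l2, Pool.CR99.bmg_dir hc1, hlC]
      refine (hnear k hkN hok ω (d1 ω hω)).trans ?_
      have h6 : (2 : ℝ) ^ ((lv k r - lv k (r + 1) + ζ + 6 * (C * η₀)) * J) ≤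
          (2 : ℝ) ^ (x₀ k * J - 1) := by
        refine Real.rpow_le_rpow_of_exponent_le (by norm_num) ?_
        have e1 := mul_le_mul_of_nonneg_right (hx1 k hk) hJ0
        have e2 : (lv k r - lv k (r + 1) + ζ + 7 * (C * η₀)) * (J : ℝ) =
            (lv k r - lv k (r + 1) + ζ + 6 * (C * η₀)) * J + X := by rw [hX]; ring
        linarith
      have h7 : 2 ^ su / 2 ^ sn * (2 / 2 ^ M) ≤ (2 : ℝ) ^ (x₀ k * J - 1) := by
        rw [hUM]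
        refine Real.rpow_le_rpow_of_exponent_le (by norm_num) ?_
        have e1 := mul_le_mul_of_nonneg_right (hx2 k hk) hJ0
        have e2 : (lv i r - lv i (r + 1) - M₁ + C * η₀) * (J : ℝ) =
            lv i r * J - lv i (r + 1) * J - M₁ * J + X := by rw [hX]; ring
        linarith
      have h8 : (2 : ℝ) ^ (x₀ k * J) = (2 : ℝ) ^ (x₀ k * J - 1) + (2 : ℝ) ^ (x₀ k * J - 1) := by
        rw [← two_mul, Real.rpow_sub_one h2.ne']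
        field_simp
      rw [h8]
      exact add_le_add h6 h7

end Pool.W.CR99
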