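import Pool.Agent.H99.D2.Rne
import Pool.Agent.H31.W.H18.PN.Nzr
import Pool.Agent.H31.W.H3.D2G.RecN
import Pool.Agent.H3.W.Bas
import Pool.Agent.H31.W.H18.PN.Pdc
import Pool.Agent.H50.SWR.Blc

/-!
# The natural labels of a grid of windows over the blind labels, at a record

`NzE`: the labels of a family with natural labels of the windows `a k`, `k < n`. `NzN.nzqE`,
`nzqE_nzq`: `NzN` and `NzQ` over them. `nzg_cls`: in a subclass with the same record, natural labels of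
all windows of a grid over one blind label exist on all events, if the last slope is at least the slope
before.
-/

set_option autoImplicit false

namespace Pool.W.CR99

open Pool.CR99

open Finset Real MvPolynomial
open Pool.Agent.H49.Ent Pool.Agent.H32.Dense Pool.STK Pool.KA Pool.KSAT Pool.K2S Pool.PB Pool.S6C
open Pool.GEN Pool.RCD Pool.LA91 Pool.OWN68 Pool.AJW Pool.AJX Pool.CHT Pool.PKG
open Pool.GRD (LbP)
open Pool.ALT (Fml NzQ NzF NzL NzO nzG floorw wz wz_slam AlW AlC AltC BlC DpI Upg AlW.upg AlW.ch1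
  AlW.ch2 AlW.sub)
open Pool.PN18
open Pool.V0F (LbU)


section

variable {m : ℕ} {Ψ : Pool.ALT.Fml m} {c : ℕ → Fin m} {r₀ : ℕ} {κ : Fin m} {D : ℕ}
  {w v p₁ p₂ e u p : ℝ} {n : ℕ} {a pa₁ pa₂ ea ua pa : ℕ → ℝ}


end

/-- **Natural labels of a grid of windows** over one blind label, at a record. -/
theorem nzg_cls {r D Dg : ℕ} {S : Pool.PB.PCl (r + 2)} {al : ℝ} {g₀ : ℝ → ℝ}
    {P : List (Fin (r + 2)) × Fin (r + 2) → ℝ → ℝ → ℝ}
    {θ : ℝ} {P₂ : ℕ → List (Fin (r + 2)) × Fin (r + 2) → ℝ → ℝ → ℝ} {θ₂ Eb e₂ : ℕ → ℝ}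
    {c : ℕ → Fin (r + 2)} {Pt : ℝ → ℝ → ℝ} {rt : ℝ → ℝ} {h K₀ g : ℝ} {L T : ℕ → ℝ → ℝ → ℝ}
    {Sl : ℕ → ℝ} {κ : ℕ → Pool.PKG.Kg} {G : Set ℝ} {S₀ N : ℕ} {A V : ℕ → ℝ} {S₂ N' : ℕ} {V' : ℕ → ℝ}
    {K ε q t : ℝ}
    (R : Pool.W.PKG.RecG S al g₀ P θ P₂ θ₂ Eb e₂ c Pt rt h K₀ g L T Sl κ G S₀ N A V S₂ N' V' K ε q t)
    (hcu : ∀ w ∈ G, ∃ rd : ℕ → ℝ, (∀ l < r + 1, 0 ≤ rd l) ∧
      Pool.LA91.Chn S c 0 (r + 1) w w (Pool.SWC.Lx L r w) (fun l => L l w w) rd)
    {e₀ ρ₀ π₀ μ : ℝ} (hμ : 0 < μ)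
    (hρ₀ : ρ₀ + μ ≤ 1) (halt : ∀ w ∈ G, |w - g| ≤ μ → Pool.W.ALT.AltC S c r L e₀ ρ₀ π₀ μ w)
    (hnear : ∀ x : ℝ, |x| ≤ K → |t + x * q - g| ≤ μ)
    {M : ℕ} {W : ℕ → ℝ} (hWm : ∀ k ≤ M, W k ≤ W (k + 1))
    (hWK : ∀ k ≤ M + 1, |W k| ≤ K) (hWG : ∀ k ≤ M + 1, t + W k * q ∈ G)
    (hab : Sl r ≤ Sl (r + 1)) {ms e : ℝ} (hb0 : 0 ≤ Sl (r + 1))
    (hWs : ∀ k ≤ M, Sl (r + 1) * (W (k + 1) - W k) ≤ ms) (he : 0 < e) (heq : e ≤ q)
    (hms : ms * q + 8 * (ε * q) ≤ e / 8) (heμ : e ≤ μ / 4)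
    {V₀ : ℝ} (hV₀ : V₀ ≤ W 0) (hV₀K : |V₀| ≤ K) (hV₀G : t + V₀ * q ∈ G)
    (hwq : q ≤ t + V₀ * q) (hw1 : t + W (M + 1) * q ≤ 1)
    (hn : Pool.W.ALT.AlC S c r D L e₀ μ (t + V₀ * q))
    (ha : ∀ k ≤ M + 1, Pool.W.ALT.AlC S c r D L e₀ μ (t + W k * q))
    (hDg : Dg ≤ D) {ρ κ' : ℝ} (hκ' : 0 < κ') (hρe : ρ * q ≤ e / 32)
    (hX : Pool.CR99.BlX S c r Dg Dg (t + V₀ * q) (L (r + 1) (t + V₀ * q) (t + V₀ * q) - ρ * q) 1
      (fun _ => t + W (M + 1) * q)
      (fun _ => L (r + 1) (t + W (M + 1) * q) (t + W (M + 1) * q) - ρ * q)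
      (fun _ => L r (t + W (M + 1) * q) (t + W (M + 1) * q) -
        L (r + 1) (t + W (M + 1) * q) (t + W (M + 1) * q) + ρ * q) κ') :
    ∃ S' : Pool.PB.PCl (r + 2), S'.Ne ∧ (∀ (τ : ℝ) (J : ℕ) (F : Pool.KA.Fam (r + 2) J) (A : F.Ω → Prop),
        S'.St τ J F A → S.St τ J F A) ∧
      Pool.W.PKG.RecG S' al g₀ P θ P₂ θ₂ Eb e₂ c Pt rt h K₀ g L T Sl κ G S₀ N A V S₂ N' V' K ε q t ∧
      ∃ (p₁ p₂ : ℝ) (pa₁ pa₂ : ℕ → ℝ),
        Pool.S6C.Bas S' (fun J F A => ∃ (V : Type) (z : Pool.GEN.PtT F → V) (z' : Pool.GEN.LnT F → V)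
        (G : V → MvPolynomial (Option (Fin (r + 2))) ℝ),
        Pool.ALT.NzQ (Pool.CR99.NzE (Pool.CR99.BlF c r D D e₀ (Pool.SWC.Lx L r (t + V₀ * q) + μ / 2)
          (L (r + 1) (t + V₀ * q) (t + V₀ * q) - e / 16) (t + V₀ * q) 1
          (fun _ => t + W (M + 1) * q)
          (fun _ => L (r + 1) (t + W (M + 1) * q) (t + W (M + 1) * q) - ρ * q)
          (fun _ => L r (t + W (M + 1) * q) (t + W (M + 1) * q) -
            L (r + 1) (t + W (M + 1) * q) (t + W (M + 1) * q) + ρ * q)) c r (c (r + 1)) D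
          (t + V₀ * q) (M + 2) (fun k => t + W k * q) pa₁ pa₂ (fun _ => e₀ - μ / 2)
          (fun k => Pool.SWC.Lx L r (t + W k * q) + μ / 4)
          (fun k => L (r + 1) (t + W k * q) (t + W k * q) - e / 2)) c r (c (r + 1))
          D D D D (t + V₀ * q) (t + W 0 * q) p₁ p₂ (e₀ - μ / 2)
          (Pool.SWC.Lx L r (t + W 0 * q) + μ / 4)
          (L (r + 1) (t + W 0 * q) (t + W 0 * q) - e / 2)
          (t + W (M + 1) * q) (pa₁ (M + 1)) (pa₂ (M + 1)) (e₀ - μ / 2)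
          (Pool.SWC.Lx L r (t + W (M + 1) * q) + μ / 4)
          (L (r + 1) (t + W (M + 1) * q) (t + W (M + 1) * q) - e / 2) J F A V z z' G) := by
  classical
  have hq := R.q0
  have htm := R.tmc
  have hmono : ∀ j k : ℕ, j ≤ k → k ≤ M + 1 → W j ≤ W k := by
    intro j k hjk
    induction k, hjk using Nat.le_induction with
    | base => intro _; exact le_rfl
    | succ k _ ih => intro hk; exact (ih (by omega)).trans (hWm k (by omega))
  have hC : ∀ k ≤ M + 1, Pool.W.ALT.AltC S c r L e₀ ρ₀ π₀ μ (t + W k * q) := fun k hk =>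
    halt _ (hWG k hk) (hnear _ (hWK k hk))
  have hinj : Set.InjOn c (Set.Iio (r + 1)) := R.inj.mono fun x hx => by
    rw [Set.mem_Iio] at hx ⊢
    omega
  -- the base label
  have hCn := halt _ hV₀G (hnear _ hV₀K)
  obtain ⟨rkn, En', bn1, bn2, bn3, bn4, bn5, bn6, bn7, bn8, bn9, bn10⟩ := hCn
  obtain ⟨En, hn1, hn2⟩ := hn
  have hVW : ∀ k ≤ M + 1, t + V₀ * q ≤ t + W k * q := fun k hk => by
    have := mul_le_mul_of_nonneg_right (hV₀.trans (hmono 0 k (Nat.zero_le _) hk)) hq.le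
    linarith only [this]
  have hWw : ∀ j k : ℕ, j ≤ k → k ≤ M + 1 → t + W j * q ≤ t + W k * q := fun j k h1 h2 => by
    have := mul_le_mul_of_nonneg_right (hmono j k h1 h2) hq.le
    linarith only [this]
  have hVn1 : t + V₀ * q ≤ 1 := (hVW (M + 1) le_rfl).trans hw1
  have hlown : ∀ l ≤ r + 1, t + V₀ * q ≤ L l (t + V₀ * q) (t + V₀ * q) := fun l hl =>
    R.low_at (by omega) (by linarith only [hwq, hq]) le_rfl hVn1
  have hup := Pool.ALT.AlW.upg hn2 R.pos (K := D) le_rfl (u' := Pool.SWC.Lx L r (t + V₀ * q) + μ / 2)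
    (p := L (r + 1) (t + V₀ * q) (t + V₀ * q) - e / 16) (e := e₀) (by linarith only [hμ])
    (by linarith only [bn6, hρ₀, hμ]) (by linarith only [hn1, hμ]) (by linarith only [bn5, hμ])
    (by linarith only [bn5, hμ, heμ, he]) (by
      linarith only [hlown (r + 1) le_rfl, hwq, heq, hq])
  obtain ⟨S₁, c1, c2, c3⟩ := Pool.CR99.blf_sub htm R.ne ((Pool.CR99.blx_deg hX hDg)) hκ' hup (σ := e / 32)
    (by linarith only [he]) (by linarith only [hρe])
  have R₁ := R.sub c1 c2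
  have hbF : Pool.S6C.Bas S₁ (fun J F A => ∃ (V : Type) (z : Pool.GEN.PtT F → V) (z' : Pool.GEN.LnT F → V)
      (G : V → MvPolynomial (Option (Fin (r + 2))) ℝ), Pool.CR99.BlF c r D D e₀
        (Pool.SWC.Lx L r (t + V₀ * q) + μ / 2)
        (L (r + 1) (t + V₀ * q) (t + V₀ * q) - e / 16) (t + V₀ * q) 1
        (fun _ => t + W (M + 1) * q)
        (fun _ => L (r + 1) (t + W (M + 1) * q) (t + W (M + 1) * q) - ρ * q)
        (fun _ => L r (t + W (M + 1) * q) (t + W (M + 1) * q) -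
          L (r + 1) (t + W (M + 1) * q) (t + W (M + 1) * q) + ρ * q) J F A V z z' G) := by
    refine Pool.S6C.Bas.mono 0 c3 ?_
    rintro J - F A ⟨V, z, z', G, h1, h2⟩
    refine ⟨V, z, z', G, h1, fun k hk => ?_⟩
    obtain ⟨V₁, z₁, z₁', G₁, P₁, g1, g2, g3⟩ := h2 k hk
    exact ⟨V₁, z₁, z₁', G₁, P₁, g1.mono (Finset.Subset.refl _) hDg le_rfl, g2, g3⟩
  obtain ⟨Ψ, hΨ⟩ : ∃ Ψ : Pool.ALT.Fml (r + 2), Ψ = Pool.CR99.BlF c r D D e₀
        (Pool.SWC.Lx L r (t + V₀ * q) + μ / 2)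
        (L (r + 1) (t + V₀ * q) (t + V₀ * q) - e / 16) (t + V₀ * q) 1
        (fun _ => t + W (M + 1) * q)
        (fun _ => L (r + 1) (t + W (M + 1) * q) (t + W (M + 1) * q) - ρ * q)
        (fun _ => L r (t + W (M + 1) * q) (t + W (M + 1) * q) -
          L (r + 1) (t + W (M + 1) * q) (t + W (M + 1) * q) + ρ * q) := ⟨_, rfl⟩
  have hΨs : ∀ (J : ℕ) (F : Pool.KA.Fam (r + 2) J) (A B : F.Ω → Prop) (V : Type) (z : Pool.GEN.PtT F → V)
      (z' : Pool.GEN.LnT F → V) (G : V → MvPolynomial (Option (Fin (r + 2))) ℝ), Pool.K2S.Sub B A →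
      Ψ J F A V z z' G → Ψ J F B V z z' G := by
    rw [hΨ]
    exact fun J F A B V z z' G => Pool.CR99.BlF.hs J F A B V z z' G
  rw [← hΨ] at hbF ⊢
  -- the slopes
  have hεq : 0 ≤ ε * q := by
    have := (abs_nonneg _).trans (R.dL2 (l := r) (by omega) (hWK 0 (by omega)) (hWK 0 (by omega)))
    linarith only [this]
  have hms0 : 0 ≤ ms * q := mul_nonneg ((mul_nonneg hb0
    (sub_nonneg.2 (hWm 0 (Nat.zero_le _)))).trans (hWs 0 (Nat.zero_le _))) hq.le
  have hbx : ∀ j k : ℕ, j ≤ k → k ≤ M + 1 →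
      L r (t + W k * q) (t + W k * q) - L (r + 1) (t + W k * q) (t + W k * q) ≤
      L r (t + W j * q) (t + W j * q) - L (r + 1) (t + W j * q) (t + W j * q) + 4 * (ε * q) := by
    intro j k hjk hk
    have h1 := abs_le.1 (R.dL2 (l := r) (by omega) (hWK k hk) (hWK j (by omega)))
    have h2 := abs_le.1 (R.dL2 (l := r + 1) (by omega) (hWK k hk) (hWK j (by omega)))
    have h3 : Sl r * ((W k - W j) * q) ≤ Sl (r + 1) * ((W k - W j) * q) :=
      mul_le_mul_of_nonneg_right hab (mul_nonneg (by linarith only [hmono j k hjk hk]) hq.le)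
    linarith only [h1.2, h2.1, h3]
  have hstp : ∀ k ≤ M, L (r + 1) (t + W (k + 1) * q) (t + W (k + 1) * q) ≤
      L (r + 1) (t + W k * q) (t + W k * q) + (ms * q + 2 * (ε * q)) := by
    intro k hk
    have h2 := abs_le.1 (R.dL2 (l := r + 1) (by omega) (hWK (k + 1) (by omega))
      (hWK k (by omega)))
    have h5 : Sl (r + 1) * (W (k + 1) - W k) * q ≤ ms * q :=
      mul_le_mul_of_nonneg_right (hWs k hk) hq.le
    linarith only [h2.2, h5]
  have hlow : ∀ l ≤ r + 1, ∀ k ≤ M + 1, t + W k * q ≤ L l (t + W k * q) (t + W k * q) :=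
    fun l hl k hk => R.low_at (by omega) (by linarith only [hVW k hk, hwq, hq]) le_rfl
      ((hWw k (M + 1) hk le_rfl).trans hw1)
  have ha₁ : ∀ k ≤ M + 1, Pool.W.ALT.AlC S₁ c r D L e₀ μ (t + W k * q) := fun k hk => by
    obtain ⟨E, h1, h2⟩ := ha k hk
    exact ⟨E, h1, h2.sub c2⟩
  -- the natural labels at one window
  obtain ⟨Es, hs1, hs2⟩ := ha₁ (M + 1) le_rfl
  have key : ∀ k ≤ M + 1, ∃ p₁ p₂ : ℝ, p₁ < L (r + 1) (t + W k * q) (t + W k * q) ∧
      p₂ < L r (t + W k * q) (t + W k * q) ∧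
      Pool.ALT.NzO S₁ Ψ c r (c (r + 1)) D D D (t + V₀ * q) (t + W k * q) p₁ p₂ (e₀ - μ / 2)
        (Pool.SWC.Lx L r (t + W k * q) + μ / 4)
        (L (r + 1) (t + W k * q) (t + W k * q) - e / 2) := by
    intro k hk
    obtain ⟨E, h1, h2⟩ := ha₁ k hk
    obtain ⟨rk, E', b1, b2, b3, b4, b5, b6, b7, b8, b9, b10⟩ := hC k hk
    obtain ⟨wb, hwb⟩ : ∃ wb : ℕ → ℝ, wb = fun j => t + W (min (k + j) (M + 1)) * q := ⟨_, rfl⟩
    have w0 : wb 0 = t + W k * q := by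
      rw [hwb]
      show t + W (min (k + 0) (M + 1)) * q = _
      rw [add_zero, min_eq_left hk]
    have wl : wb (M + 1 + 1) = t + W (M + 1) * q := by
      rw [hwb]
      show t + W (min (k + (M + 1 + 1)) (M + 1)) * q = _
      rw [min_eq_right (by omega)]
    have wj : ∀ j, ∃ i, k ≤ i ∧ i ≤ M + 1 ∧ wb j = t + W i * q := fun j => by
      refine ⟨min (k + j) (M + 1), le_min (by omega) hk, min_le_right _ _, ?_⟩
      rw [hwb]
    have ws : ∀ j, ∃ i, k ≤ i ∧ ((i ≤ M ∧ wb j = t + W i * q ∧ wb (j + 1) = t + W (i + 1) * q) ∨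
        (i = M + 1 ∧ wb j = t + W i * q ∧ wb (j + 1) = t + W i * q)) := fun j => by
      rcases Nat.lt_or_ge (k + j) (M + 1) with h3 | h3
      · refine ⟨k + j, by omega, Or.inl ⟨by omega, ?_, ?_⟩⟩
        · rw [hwb]
          show t + W (min (k + j) (M + 1)) * q = _
          rw [min_eq_left (by omega)]
        · rw [hwb]
          show t + W (min (k + (j + 1)) (M + 1)) * q = _
          rw [min_eq_left (by omega)]
          rfl
      · refine ⟨M + 1, hk, Or.inr ⟨rfl, ?_, ?_⟩⟩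
        · rw [hwb]
          show t + W (min (k + j) (M + 1)) * q = _
          rw [min_eq_right (by omega)]
        · rw [hwb]
          show t + W (min (k + (j + 1)) (M + 1)) * q = _
          rw [min_eq_right (by omega)]
    have hls := hbx k (M + 1) hk le_rfl
    have hk1 := hlow (r + 1) le_rfl k hk
    have hs3 := hlow (r + 1) le_rfl (M + 1) le_rfl
    have hVk := hVW k hk
    have hVs := hVW (M + 1) le_rfl
    have hback := Pool.CR99.nzo_back (S := S₁) R₁.tmc R₁.pos (c := c) (r := r) (κ := c (r + 1)) (D := D)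
      (M := M + 1) (wb := wb) (sU := fun w => L r w w) (sN := fun w => L (r + 1) w w) hinj
      (w := t + V₀ * q) (by linarith only [hwq, hq]) (by rw [w0]; exact hVk)
      (fun j _ => by
        obtain ⟨i, hi, h3 | h3⟩ := ws j
        · rw [h3.2.1, h3.2.2]
          exact hWw i (i + 1) (by omega) (by omega)
        · rw [h3.2.1, h3.2.2])
      (fun j _ => by
        obtain ⟨i, hi, hi', h3⟩ := wj (j + 1)
        obtain ⟨rd, h4, h5⟩ := hcu _ (hWG i hi')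
        rw [h3]
        exact ⟨_, _, _, rd, h5.sub c2, rfl⟩)
      (fun j _ _ => by
        obtain ⟨i, hi, hi', h3⟩ := wj j
        obtain ⟨E'', h4, h5⟩ := ha₁ i hi'
        rw [h3]
        intro e' he'
        refine ⟨D, Pool.S6C.Bas.mono 0 (h5.lb e' he') ?_⟩
        rintro J - F A ⟨V, z, z', g, gu, h6, -⟩
        exact ⟨V, z, z', g, Pool.GRD.LbP.of h6⟩)
      (E := E) (Eu := Pool.SWC.Lx L r (t + W k * q) - L r (t + W k * q) (t + W k * q))
      (u := Pool.SWC.Lx L r (t + W k * q)) (by rw [w0]; exact h2)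
      (K₃ := D) (K₄ := D)
      (q₁ := L (r + 1) (t + W (M + 1) * q) (t + W (M + 1) * q) - e / 32)
      (q₂ := L r (t + W (M + 1) * q) (t + W (M + 1) * q) - e / 32)
      (by rw [wl]; exact hs2.ch1 (by linarith only [he]))
      (by rw [wl]; exact hs2.ch2 (by linarith only [he]))
      (Ψ := Ψ) (by rw [hΨ]; exact Pool.CR99.BlF.hd le_rfl) hΨs
      (p₃ := L (r + 1) (t + W (M + 1) * q) (t + W (M + 1) * q) - e / 16)
      (p₄ := L r (t + W (M + 1) * q) (t + W (M + 1) * q) - e / 16)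
      (x := L r (t + W k * q) (t + W k * q) - L (r + 1) (t + W k * q) (t + W k * q) + e / 4)
      (x₀ := L r (t + W k * q) (t + W k * q) - L (r + 1) (t + W k * q) (t + W k * q) + 3 * e / 8)
      (by
        rw [wl, hΨ]
        obtain ⟨rdM, -, hchM⟩ := hcu _ (hWG (M + 1) le_rfl)
        refine Pool.W.CR99.blf_blC (v := fun _ => t + W (M + 1) * q) (by norm_num : (0:ℝ) ≤ 6) R₁.tmc
          (k := 0) one_pos hVs le_rfl
          (u := Pool.SWC.Lx L r (t + W (M + 1) * q))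
          ((hlow r (by omega) _ le_rfl).trans (Pool.SWC.le_lx L le_rfl _))
          (by linarith only [hs2.wu, hVs, hwq, hq]) (by linarith only [hs2.u1]) hs2.fI
          (Nat.zero_le r) (hchM.sub c2)
          (by linarith only [hs3, hVs, hwq, heq, hq]) ?_ ?_ ?_
        · linarith only [hls, hρe, hms, hεq, he, hms0]
        · linarith only [hls, hρe, hms, hεq, he, hms0]
        · linarith only [hls, hms, hεq, he, hms0])
      (by linarith only [he]) (by linarith only [he])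
      (by
        rw [wl]
        beta_reduce
        linarith only [hls, hms, hεq, he, hms0]) (by linarith only [he])
      (fun j _ => by
        obtain ⟨i, hi, h3 | h3⟩ := ws j
        · have h4 := hbx k (i + 1) (by omega) (by omega)
          have h5 := hstp i h3.1
          rw [h3.2.1, h3.2.2]
          beta_reduce
          exact ⟨by linarith only [h4, h5, hms, hεq, he, hms0],
            by linarith only [h4, hms, hεq, he, hms0]⟩
        · have h4 := hbx k i hi (by omega)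
          rw [h3.2.1, h3.2.2]
          beta_reduce
          exact ⟨by linarith only [h4, hms, hεq, he, hms0], by linarith only [h4, hms, hεq, he, hms0]⟩)
      (uN := Pool.SWC.Lx L r (t + W k * q) + μ / 4)
      (pN := L (r + 1) (t + W k * q) (t + W k * q) - e / 2) (eN := e₀ - μ / 2)
      (by linarith only [hk1, hVk, hwq, heq, he]) (by rw [w0]; linarith only [he]) (by
        rw [w0]
        beta_reduce
        linarith only [he]) (by linarith only [hμ]) (by linarith only [b6, hρ₀, hμ])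
      (by linarith only [h1, hμ]) (by linarith only [b5, heμ, hμ])
    obtain ⟨p₁, p₂, g1, g2, g3⟩ := hback
    rw [w0] at g1 g2 g3
    exact ⟨p₁, p₂, g1, g2, g3⟩
  have key' : ∀ k, ∃ p₁ p₂ : ℝ, k ≤ M + 1 → p₁ < L (r + 1) (t + W k * q) (t + W k * q) ∧
      p₂ < L r (t + W k * q) (t + W k * q) ∧
      Pool.ALT.NzO S₁ Ψ c r (c (r + 1)) D D D (t + V₀ * q) (t + W k * q) p₁ p₂ (e₀ - μ / 2)
        (Pool.SWC.Lx L r (t + W k * q) + μ / 4)
        (L (r + 1) (t + W k * q) (t + W k * q) - e / 2) := fun k => by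
    by_cases hk : k ≤ M + 1
    · obtain ⟨p₁, p₂, h1⟩ := key k hk
      exact ⟨p₁, p₂, fun _ => h1⟩
    · exact ⟨0, 0, fun h1 => absurd h1 hk⟩
  choose pa₁ pa₂ key' using key'
  obtain ⟨Ev, hv1, hv2⟩ := ha₁ 0 (Nat.zero_le _)
  obtain ⟨k1, k2, k3⟩ := key' 0 (Nat.zero_le _)
  have hex := Pool.CR99.nzn_ex (n := M + 2) (a := fun k => t + W k * q) (pa₁ := pa₁) (pa₂ := pa₂)
    (ea := fun _ => e₀ - μ / 2) (ua := fun k => Pool.SWC.Lx L r (t + W k * q) + μ / 4)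
    (pa := fun k => L (r + 1) (t + W k * q) (t + W k * q) - e / 2) k3
    (fun k hk => (key' k (by omega)).2.2) hΨs hbF (hv2.ch1 k1) (hv2.ch2 k2)
    (fun k hk => by
      obtain ⟨E, h1, h2⟩ := ha₁ k (by omega)
      exact h2.ch1 (key' k (by omega)).1)
    (fun k hk => by
      obtain ⟨E, h1, h2⟩ := ha₁ k (by omega)
      exact h2.ch2 (key' k (by omega)).2.1)
  obtain ⟨S₂', d1, d2, d3⟩ := Pool.V0F.her_extc (ι := Unit) c1 (fun _ J F A =>
      ∃ (V : Type) (z : Pool.GEN.PtT F → V) (z' : Pool.GEN.LnT F → V)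
        (G : V → MvPolynomial (Option (Fin (r + 2))) ℝ),
        Pool.CR99.NzN Ψ c r (c (r + 1)) D (t + V₀ * q) (t + W 0 * q) (pa₁ 0) (pa₂ 0) (e₀ - μ / 2)
          (Pool.SWC.Lx L r (t + W 0 * q) + μ / 4)
          (L (r + 1) (t + W 0 * q) (t + W 0 * q) - e / 2) (M + 2) (fun k => t + W k * q) pa₁ pa₂
          (fun _ => e₀ - μ / 2) (fun k => Pool.SWC.Lx L r (t + W k * q) + μ / 4)
          (fun k => L (r + 1) (t + W k * q) (t + W k * q) - e / 2) J F A V z z' G)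
    (fun _ J F A B hB => by
      rintro ⟨V, z, z', G, hG⟩
      exact ⟨V, z, z', G, Pool.CR99.NzN.hs hΨs J F A B V z z' G hB hG⟩)
    (fun _ => ⟨_, hex⟩)
  refine ⟨S₂', d1, fun τ J F A h1 => c2 τ J F A (d2 τ J F A h1), R₁.sub d1 d2, pa₁ 0, pa₂ 0, pa₁,
    pa₂, Pool.S6C.Bas.mono 0 (d3 ()) ?_⟩
  rintro J - F A ⟨V, z, z', G, hG⟩
  exact ⟨V, z, z', G, hG.nzqE (k := M + 1) (by omega)⟩

end Pool.W.CR99
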