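import Pool.Agent.H99.D2.Ree
import Pool.Agent.H31.W.H78.PSQ2.Pec
import Pool.Agent.H31.W.H92.D2.Ceg
import Pool.Agent.H31.W.H99.D2.Rne
import Pool.Agent.H3.W.Bas
import Pool.Agent.H31.W.H18.PN.Pdd

/-!
# Jointly nonfull pairs of any radius at a record of full rate

`pairye_rec`: the record part of `PairYE` at windows of full rate, if the last slope is at least the slope
before and a closed slope over the place `r` is supplied: closed at `t + V₀ q`, natural at `t - R₁ q`.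
-/

set_option autoImplicit false

namespace Pool.W.CR99

open Pool.CR99

open Finset Real MvPolynomial
open Pool.Agent.H49.Ent Pool.Agent.H32.Dense Pool.STK Pool.KA Pool.KSAT Pool.K2S Pool.PB Pool.GEN
open Pool.S6C Pool.RCD Pool.LA91 Pool.OWN68 Pool.AJW Pool.AJX Pool.CHT Pool.PKG Pool.ALT Pool.PN18
open Pool.V0F (LbU)

/-- **Jointly nonfull pairs of any radius at a record of full rate.** -/
theorem pairye_rec {r D Dg : ℕ} (hr : 1 ≤ r) {S : Pool.PB.PCl (r + 2)} {al : ℝ} {g₀ : ℝ → ℝ}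
    {P : List (Fin (r + 2)) × Fin (r + 2) → ℝ → ℝ → ℝ}
    {θ : ℝ} {P₂ : ℕ → List (Fin (r + 2)) × Fin (r + 2) → ℝ → ℝ → ℝ} {θ₂ Eb e₂ : ℕ → ℝ}
    {c : ℕ → Fin (r + 2)} {Pt : ℝ → ℝ → ℝ} {rt : ℝ → ℝ} {h K₀ g : ℝ} {L T : ℕ → ℝ → ℝ → ℝ}
    {Sl : ℕ → ℝ} {κ : ℕ → Pool.PKG.Kg} {G : Set ℝ} {S₀ N : ℕ} {A V : ℕ → ℝ} {S₂ N' : ℕ} {V' : ℕ → ℝ}
    {K' ε q t : ℝ} {S₁ : Pool.PB.PCl (r + 2)} (hne₁ : S₁.Ne)
    (hs₁ : ∀ (τ : ℝ) (J : ℕ) (F : Pool.KA.Fam (r + 2) J) (A : F.Ω → Prop), S₁.St τ J F A → S.St τ J F A)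
    (R : Pool.W.PKG.RecG S₁ al g₀ P θ P₂ θ₂ Eb e₂ c Pt rt h K₀ g L T Sl κ G S₀ N A V S₂ N' V' K' ε q t)
    (hκ : ∀ l < r, κ l = .one) {a b ra τ R₁ : ℝ} (haE : Sl r = a) (hbE : Sl (r + 1) = b)
    (ha : 1 < a) (hab : a ≤ b) (hraE : Pool.CR99.pzR a R₁ = ra) (hτE : Pool.CR99.pzU a R₁ = τ)
    (hR₁ : 0 ≤ R₁) (hh0 : 0 ≤ h) (hh1 : h ≤ 1) (hε : 0 < ε) (hK₀ : 0 < K₀)
    (hcu₀ : ∀ w ∈ G, ∃ rd : ℕ → ℝ, (∀ l < r + 1, 0 ≤ rd l) ∧
      Pool.LA91.Chn S c 0 (r + 1) w w (Pool.SWC.Lx L r w) (fun l => L l w w) rd)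
    {e₀ ρ₀ π₀ μ : ℝ} (hμ : 0 < μ)
    (hρ₀ : ρ₀ + μ ≤ 1) (halt₀ : ∀ w ∈ G, |w - g| ≤ μ → Pool.W.ALT.AltC S c r L e₀ ρ₀ π₀ μ w)
    (hnear : ∀ x : ℝ, |x| ≤ K' → |t + x * q - g| ≤ μ)
    (hlab : ∀ k < N', (∃ E : ℝ, E + μ ≤ e₀ ∧
      Pool.ALT.AlW S₁ c r (c (r + 1)) D (t + V' k * q) (L (r + 1) (t + V' k * q) (t + V' k * q))
        (L r (t + V' k * q) (t + V' k * q)) E
        (Pool.SWC.Lx L r (t + V' k * q) - L r (t + V' k * q) (t + V' k * q))
        (Pool.SWC.Lx L r (t + V' k * q))) ∧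
      ∀ e : ℝ, 0 < e → Pool.S6C.Bas S₁ (fun J F A => ∃ (V₁ : Type) (z : Pool.GEN.PtT F → V₁) (z' : Pool.GEN.LnT F → V₁)
        (g : V₁ → ℕ → MvPolynomial (Option (Fin (r + 2))) ℝ),
        Pool.AJX.LbX F c 0 (r + 1) D e (fun i => max 0 (Pool.SWC.Lx L r (t + V' k * q) -
          L i (t + V' k * q) (t + V' k * q))) (t + V' k * q)
          (fun _ => Pool.SWC.Lx L r (t + V' k * q))
          (fun l => L l (t + V' k * q) (t + V' k * q)) A z z' g))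
    {el dl : ℝ} {k₀ : ℕ} (hel : 0 ≤ el) (hdl : 0 ≤ dl) (hdlb : dl ≤ b * Real.log 2)
    (hful : ∀ S' : Pool.PB.PCl (r + 2), S'.Ne → Pool.ALT.SubC S' S → ∀ w₀ : ℝ, 0 < w₀ → w₀ < g →
      Pool.ALT.AltE S' ((range (r + 1)).image c) (c (r + 1)) (max D D * max 1 D) e₀ ρ₀ π₀ w₀ →
      ∃ φ : ℝ, b * Real.log 2 - dl ≤ φ ∧ ∀ k ≥ k₀, Pool.ALT.AltAt S ((range (r + 1)).image c)
        ((range r).image c) (c (r + 1)) (max D D * max 1 D) e₀ ρ₀ π₀ (fun w => L (r + 1) w w) g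
        φ el k) (hk₀ : (K₀ + τ) * q ≤ (1 / 2) ^ k₀)
    -- the closed slope
    {V₀ ρ κ' : ℝ} (hV₀ : V₀ + Pool.PKG.pzD ra b ≤ -τ) (hV₀in : ∃ j < N', V' j = V₀)
    (hV₀K : -V₀ + 2 ≤ K')
    (hDg : Dg ≤ D) (hκ' : 0 < κ') (hX : Pool.CR99.BlX S₁ c r Dg Dg (t + V₀ * q)
      (L (r + 1) (t + V₀ * q) (t + V₀ * q) - ρ * q) 1 (fun _ => t - R₁ * q)
      (fun _ => L (r + 1) (t - R₁ * q) (t - R₁ * q) - ρ * q)
      (fun _ => L r (t - R₁ * q) (t - R₁ * q) - L (r + 1) (t - R₁ * q) (t - R₁ * q) + ρ * q) κ')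
    -- the windows
    {M : ℕ} {W : ℕ → ℝ} (hW0 : W 0 = -τ) (hW1 : W (M + 1) = -R₁) (hWm : ∀ k, W k ≤ W (k + 1))
    {ms : ℝ} (hms0 : 0 < ms) (hWs : ∀ k, W (k + 1) - W k ≤ ms)
    (hWy : ∀ y, -τ ≤ y → y ≤ -R₁ → ∃ k ≤ M + 1, |W k - y| ≤ ms)
    (hWin : ∀ k ≤ M + 1, ∃ j < N', V' j = W k) (hWx : ∃ j < N', V' j = -(K₀ + 1))
    (hWt : ∃ j < N', V' j = 0)
    {X φ kf ℓ e' : ℝ} (hWj : ∀ k ≤ r, ∃ j < N', V' j = Pool.AJW.jfV r (-τ) X k)
    -- the numbers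
    (hX1 : 2 * (6 * τ) ≤ X) (hX2 : 2 * (b * ra) + 2 ≤ X)
    (hX3 : 32 * (r + 1) * φ ≤ X) (hkf1 : 3 ^ r * X ≤ kf)
    (hkf2 : b * ra + 2 * (r + 1) * φ + 1 ≤ kf) (hℓ1 : kf + τ ≤ ℓ)
    (hℓ2 : 3 ^ r * X + ra + 1 ≤ ℓ) (hℓ3 : b * ra + ra + 1 ≤ ℓ) (hK1 : ℓ + 1 ≤ K')
    (hK2 : τ + 3 ^ r * X ≤ K') (hK3 : b * τ + b * ra + 2 ≤ K')
    (hK5 : τ + K₀ + 2 ≤ K')
    (hφ0 : 0 < φ) (hφ1 : φ ≤ 1 / 8) (hεφ : 2 * ε ≤ φ) (he' : 0 < e') (he1 : e' ≤ φ / 8)
    (he2 : e' ≤ 1 / 64) (hεe : 128 * ε ≤ e') (hρe : ρ ≤ e' / 32)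
    (hbτ : 2 * e' ≤ b * (τ - R₁ - ra)) (hams : b * ms ≤ e' / 32)
    (hqμ : (2 * (b * ra) + 4) * q ≤ μ / 4) {pf : ℕ → ℝ} {Nf : ℕ → ℕ → ℝ}
    (hpf : ∀ l < r, L l t t - φ * q ≤ pf l)
    (hNf : ∀ l < r, ∀ j ≤ 1, Nf l j = L l t t + kf * q - (j : ℕ) * t) {δ : ℝ} (hδ0 : 0 < δ)
    (hδ1 : (8 * r + 49) * e' ≤ δ * ra / 4) (hδ2 : el * (2 * (K₀ + τ)) ≤ δ * ra / 4)
    (hδ3 : dl ≤ δ / 4) (N₀ : ℕ) :
    ∃ S' : Pool.PB.PCl (r + 2), S'.Ne ∧
      (∀ (τ : ℝ) (J : ℕ) (F : Pool.KA.Fam (r + 2) J) (A : F.Ω → Prop), S'.St τ J F A → S.St τ J F A) ∧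
      ∃ (Ψ : Pool.PN18.Fm2 (r + 2)) (I₂ : Finset (Fin (r + 2))) (e E₂ r₂ p₂ m₁ ρ : ℝ) (E rd : ℕ → ℝ)
        (vn Pn En Rn : ℝ) (K₁ : ℕ), 0 < e ∧ e ≤ e' * q ∧ 3 ^ r * X * q < m₁ ∧ ρ < 1 ∧
        (∀ i ≤ r, 0 ≤ E i ∧ L i (t + -τ * q) (t + -τ * q) + E i + m₁ ≤ 1 ∧
          0 ≤ rd i ∧ rd i ≤ ρ) ∧
        t + -τ * q - (-V₀ - τ) * q ≤ vn ∧
        Pool.CR99.PairE S' Ψ c r (max D D * max 1 D) I₂ (c (r + 1)) a b ra (h * a) δ
          (ℓ * q) N₀ (t + -τ * q) t q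
          (fun i => L i (t + -τ * q) (t + -τ * q))
          (Pool.AJW.nX r (fun l x => L l x x) (t + -τ * q) (X * q)) (fun x => L (r + 1) x x)
          pf Nf e E₂ r₂ p₂ E rd vn Pn En Rn K₁ := by
  have hq := R.q0
  have ht0 := R.t0
  have ht1 := R.t1
  have htm := R.tmc
  have hpos := R.pos
  have htn := abs_le.1 R.near
  have hcu₁ : ∀ w ∈ G, ∃ rd : ℕ → ℝ, (∀ l < r + 1, 0 ≤ rd l) ∧
      Pool.LA91.Chn S₁ c 0 (r + 1) w w (Pool.SWC.Lx L r w) (fun l => L l w w) rd := fun w hw => by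
    obtain ⟨rd, h1, h2⟩ := hcu₀ w hw
    exact ⟨rd, h1, h2.sub hs₁⟩
  have halt₁ : ∀ w ∈ G, |w - g| ≤ μ → Pool.W.ALT.AltC S₁ c r L e₀ ρ₀ π₀ μ w := fun w hw hw' =>
    Pool.W.PN18.altC_sub hs₁ (halt₀ w hw hw')
  have ha0 : 0 < a := by linarith only [ha]
  have hb0 : 0 < b := by linarith only [ha0, hab]
  have hra0 : 0 < ra := by rw [← hraE]; exact Pool.CR99.pzR_pos ha hR₁
  have hτa : ra + R₁ < τ := by rw [← hraE, ← hτE]; exact Pool.CR99.pzU_gt ha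
  have hτ0 : 0 < τ := by linarith only [hra0, hτa, hR₁]
  have hfl : 0 < (⌊b⌋₊ : ℝ) + 1 - b := by
    have := Nat.lt_floor_add_one b
    linarith only [this]
  have hbra : 0 < b * ra := mul_pos hb0 hra0
  have hD0 : 0 < Pool.PKG.pzD ra b := by
    unfold Pool.PKG.pzD
    have h1 : 0 < ra * b + 4 := by
      have := mul_pos hra0 hb0
      linarith only [this]
    positivity
  have hr0 : (0 : ℝ) ≤ r := Nat.cast_nonneg r
  have hwin : ∀ x : ℝ, (∃ j < N', V' j = x) → t + x * q ∈ G := fun x hx => by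
    obtain ⟨j, hj, e⟩ := hx
    rw [← e]
    exact R.memG.2 j hj
  have halc : ∀ x : ℝ, (∃ j < N', V' j = x) → Pool.W.ALT.AlC S₁ c r D L e₀ μ (t + x * q) := fun x hx => by
    obtain ⟨j, hj, e⟩ := hx
    rw [← e]
    exact (hlab j hj).1
  have he : 0 < e' * q := mul_pos he' hq
  have hεq : 0 < ε * q := mul_pos hε hq
  have hφq : 0 < φ * q := mul_pos hφ0 hq
  have hK50 : 0 < K' := by linarith only [hK5, hτ0, hK₀]
  have hK5q : (τ + K₀ + 2) * q ≤ K' * q := mul_le_mul_of_nonneg_right hK5 hq.le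
  have hτq : 0 < τ * q := mul_pos hτ0 hq
  have hK₀q : 0 < K₀ * q := mul_pos hK₀ hq
  have hKq : 0 < K' * q := mul_pos hK50 hq
  have hraq : 0 < ra * q := mul_pos hra0 hq
  have hbraq : 0 < b * ra * q := mul_pos hbra hq
  have hmono : ∀ j k : ℕ, j ≤ k → W j ≤ W k := by
    intro j k hjk
    induction k, hjk using Nat.le_induction with
    | base => exact le_rfl
    | succ k _ ih => exact ih.trans (hWm k)
  have hWb : ∀ k ≤ M + 1, -τ ≤ W k ∧ W k ≤ 0 := fun k hk => by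
    rw [← hW0]
    have h1 := hmono k (M + 1) hk
    rw [hW1] at h1
    exact ⟨hmono 0 k (Nat.zero_le _), by linarith only [h1, hR₁]⟩
  have hWK : ∀ k ≤ M + 1, |W k| ≤ K' := fun k hk => by
    obtain ⟨h1, h2⟩ := hWb k hk
    rw [abs_of_nonpos h2]
    linarith only [h1, hK5, hK₀]
  have hWG : ∀ k ≤ M + 1, t + W k * q ∈ G := fun k hk => hwin _ (hWin k hk)
  have hvG : t + -τ * q ∈ G := by
    rw [← hW0]
    exact hWG _ (by omega)
  have htG : t ∈ G := by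
    have h1 := hwin _ hWt
    rwa [zero_mul, add_zero] at h1
  have hvK : |-τ| ≤ K' := by
    rw [← hW0]
    exact hWK _ (by omega)
  have hV₀K' : |V₀| ≤ K' := by
    rw [abs_of_nonpos (by linarith only [hV₀, hD0, hτ0])]
    linarith only [hV₀K]
  have hDK : D ≤ max D D * max 1 D := by
    calc D = D * 1 := (mul_one D).symm
      _ ≤ D * max 1 D := Nat.mul_le_mul_left D (le_max_left 1 D)
      _ = max D D * max 1 D := by rw [max_self]
  -- the labels at an earlier window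
  have hxK : |-(K₀ + 1)| ≤ K' := by
    rw [abs_neg, abs_of_pos (by linarith only [hK₀])]
    linarith only [hK5, hτ0]
  obtain ⟨ph, hph, hAt⟩ := hful S₁ hne₁ hs₁ (t + -(K₀ + 1) * q)
    (by linarith only [ht0, hK5q, hτq, hq]) (by linarith only [htn.2, hq]) (by
      obtain ⟨rk, E', b1, b2, b3, b4, b5, b6, b7, b8, b9, b10⟩ := halt₁ _ (hwin _ hWx)
        (hnear _ hxK)
      exact (halc _ hWx).lb b6 hDK hμ le_rfl (by linarith only [b7]))
  -- the scale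
  obtain ⟨k, hk, hk1, hk2⟩ := Pool.ALT.pow_near (mul_pos (by linarith only [hK₀, hτ0] :
    0 < K₀ + τ) hq) hk₀
  -- the natural labels
  have hbms : b * ms * q ≤ e' / 32 * q := mul_le_mul_of_nonneg_right hams hq.le
  have h4q : 4 * q ≤ μ / 4 := by
    have : 4 * q ≤ (2 * (b * ra) + 4) * q := by
      linarith only [hbraq]
    exact this.trans hqμ
  have he2q : e' * q ≤ 1 / 64 * q := mul_le_mul_of_nonneg_right he2 hq.le
  have hεeq : 128 * ε * q ≤ e' * q := mul_le_mul_of_nonneg_right hεe hq.le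
  have hV₀q : (-V₀ + 2) * q ≤ K' * q := mul_le_mul_of_nonneg_right hV₀K hq.le
  have hR₁q : 0 ≤ R₁ * q := mul_nonneg hR₁ hq.le
  have hWe : t + W (M + 1) * q = t - R₁ * q := by
    rw [hW1]
    ring
  rw [← hWe] at hX
  obtain ⟨S', c1, c2, R', p₁, p₂, pa₁, pa₂, c4⟩ := Pool.W.CR99.nzg_cls R hcu₁ hμ hρ₀ halt₁ hnear
    (M := M) (fun k _ => hWm k) hWK hWG (by rw [haE, hbE]; exact hab)
    (ms := b * ms) (e := e' * q) (by rw [hbE]; exact hb0.le) (fun k _ => by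
      rw [hbE]
      exact mul_le_mul_of_nonneg_left (hWs k) hb0.le) he (by linarith only [he2q, hq])
    (by linarith only [hbms, hεeq, he]) (by linarith only [he2q, h4q, hq]) (V₀ := V₀)
    (by rw [hW0]; linarith only [hV₀, hD0]) hV₀K' (hwin _ hV₀in)
    (by linarith only [ht0, hV₀q, hq]) (by
      rw [hWe]
      linarith only [ht1, hKq, hR₁q]) (halc _ hV₀in)
    (fun k hk => halc _ (hWin k hk)) hDg hκ' (by
      have := mul_le_mul_of_nonneg_right hρe hq.le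
      linarith only [this]) hX
  rw [hWe, hW0] at c4
  obtain ⟨Ψb, hΨb⟩ : ∃ Ψb : Pool.ALT.Fml (r + 2), Ψb = Pool.CR99.BlF c r D D e₀
          (Pool.SWC.Lx L r (t + V₀ * q) + μ / 2)
          (L (r + 1) (t + V₀ * q) (t + V₀ * q) - e' * q / 16) (t + V₀ * q) 1
          (fun _ => t - R₁ * q)
          (fun _ => L (r + 1) (t - R₁ * q) (t - R₁ * q) - ρ * q)
          (fun _ => L r (t - R₁ * q) (t - R₁ * q) -
            L (r + 1) (t - R₁ * q) (t - R₁ * q) + ρ * q) := ⟨_, rfl⟩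
  rw [← hΨb] at c4
  obtain ⟨Ψ₀, hΨ₀⟩ : ∃ Ψ₀ : Pool.ALT.Fml (r + 2), Ψ₀ = Pool.CR99.NzE Ψb c r (c (r + 1)) D
          (t + V₀ * q) (M + 2) (fun k => t + W k * q) pa₁ pa₂ (fun _ => e₀ - μ / 2)
          (fun k => Pool.SWC.Lx L r (t + W k * q) + μ / 4)
          (fun k => L (r + 1) (t + W k * q) (t + W k * q) - e' * q / 2) := ⟨_, rfl⟩
  rw [← hΨ₀] at c4
  -- the base labels
  have hΨs : ∀ (J : ℕ) (F : Pool.KA.Fam (r + 2) J) (A B : F.Ω → Prop) (V : Type)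
      (z : Pool.GEN.PtT F → V) (z' : Pool.GEN.LnT F → V) (G : V → MvPolynomial (Option (Fin (r + 2))) ℝ), Pool.K2S.Sub B A →
      Ψ₀ J F A V z z' G → Ψ₀ J F B V z z' G := by
    rw [hΨ₀, hΨb]
    exact fun J F A B V z z' G hB hG => Pool.CR99.NzE.hs Pool.CR99.BlF.hs J F A B V z z' G hB hG
  have hΨl : ∀ (J : ℕ) (F : Pool.KA.Fam (r + 2) J) (A : F.Ω → Prop) (V : Type) (z : Pool.GEN.PtT F → V)
      (z' : Pool.GEN.LnT F → V) (G : V → MvPolynomial (Option (Fin (r + 2))) ℝ), Ψ₀ J F A V z z' G →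
      Pool.GEN.LbOK F ((range (r + 1)).image c) (c (r + 1)) D ⌊e₀ * J⌋₊ J ⌊(t + V₀ * q) * J⌋₊
        ⌊(Pool.SWC.Lx L r (t + V₀ * q) + μ / 2) * J⌋₊
        ⌊(L (r + 1) (t + V₀ * q) (t + V₀ * q) - e' * q / 16) * J⌋₊ A z z' G := by
    rw [hΨ₀, hΨb]
    intro J F A V z z' G hG
    exact hG.1.1
  have hlv : ∀ e : ℝ, 0 < e → Pool.S6C.Bas S' (fun J F A => ∃ (V₁ : Type) (z : Pool.GEN.PtT F → V₁)
      (z' : Pool.GEN.LnT F → V₁) (g : V₁ → ℕ → MvPolynomial (Option (Fin (r + 2))) ℝ),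
      Pool.AJX.LbX F c 0 (r + 1) D e (fun i => max 0 (Pool.SWC.Lx L r (t + -τ * q) -
        L i (t + -τ * q) (t + -τ * q))) (t + -τ * q)
        (fun _ => Pool.SWC.Lx L r (t + -τ * q))
        (fun l => L l (t + -τ * q) (t + -τ * q)) A z z' g) := fun e he => by
    obtain ⟨j, hj, hj'⟩ := hWin 0 (by omega)
    have h1 := (hlab j hj).2 e he
    rw [hj', hW0] at h1
    exact Pool.S6C.Bas.sub c2 h1
  have hcu' : ∀ w ∈ G, ∃ rd : ℕ → ℝ, (∀ l < r + 1, 0 ≤ rd l) ∧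
      Pool.LA91.Chn S' c 0 (r + 1) w w (Pool.SWC.Lx L r w) (fun l => L l w w) rd := fun w hw => by
    obtain ⟨rd, h1, h2⟩ := hcu₁ w hw
    exact ⟨rd, h1, h2.sub c2⟩
  have hFN := ((hAt k hk).sub hs₁).sub c2
  have htm' := R'.tmc
  have hpos' := R'.pos
  -- the slopes on the box
  have h0K : |(0 : ℝ)| ≤ K' := by
    rw [abs_zero]
    exact hK50.le
  have e0 : t + 0 * q = t := by rw [zero_mul, add_zero]
  have hdv := fun l (hl : l < r + 2) => R.dL2 (l := l) hl hvK h0K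
  rw [e0] at hdv
  have hCv := halt₁ _ hvG (hnear _ hvK)
  have hbox : ∀ w : ℝ, t + -τ * q ≤ w → w ≤ t → |w - t| ≤ K' * q := fun w h1 h2 => by
    rw [abs_le]
    exact ⟨by linarith only [h1, hK5q, hK₀q, hq], by linarith only [h2, hKq]⟩
  have hdw : ∀ l < r + 2, ∀ w : ℝ, t + -τ * q ≤ w → w ≤ t →
      |L l w w - L l (t + -τ * q) (t + -τ * q) - Sl l * (w - (t + -τ * q))| ≤ 2 * (ε * q) := by
    intro l hl w h1 h2
    have h3 := abs_le.1 (R.dL l hl w (hbox w h1 h2))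
    have h4 := abs_le.1 (R.dL l hl (t + -τ * q) (hbox _ le_rfl (by linarith only [hτq])))
    have e1 : Sl l * (w - t) = Sl l * (w - (t + -τ * q)) + Sl l * (t + -τ * q - t) := by ring
    rw [e1] at h3
    rw [abs_le]
    exact ⟨by linarith only [h3.1, h4.2], by linarith only [h3.2, h4.1]⟩
  have hWj' : ∀ k ≤ r, t + Pool.AJW.jfV r (-τ) X k * q ∈ G := fun k hk => hwin _ (hWj k hk)
  have hWk : ∀ k ≤ M + 1, t + -τ * q ≤ t + W k * q ∧ |t + W k * q - g| ≤ μ := fun k hk => by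
    refine ⟨?_, hnear _ (hWK k hk)⟩
    have := mul_le_mul_of_nonneg_right (hWb k hk).1 hq.le
    linarith only [this]
  have hnear' : |t + -τ * q - g| ≤ μ := hnear _ hvK
  obtain ⟨v, hv⟩ : ∃ v, v = t + -τ * q := ⟨_, rfl⟩
  have hv' : v = t - τ * q := by rw [hv]; ring
  have hroom : ∀ j ≤ r + 1, L j v v + 3 * K' * q < 1 := by
    intro j hj
    have W := R.tg (r + 1) (by omega) (by omega)
    have h1 := W.room j hj v (by rw [hv]; exact hbox _ le_rfl (by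
      linarith only [hτq]))
    have h2 := W.Eb0
    linarith only [h1, h2]
  rw [← hv] at hdv hCv hdw c4 hlv hvG hWk hnear' ⊢
  obtain ⟨rk, E', b1, b2, b3, b4, b5, b6, b7, b8, b9, b10⟩ := hCv
  have hK1q : (ℓ + 1) * q ≤ K' * q := mul_le_mul_of_nonneg_right hK1 hq.le
  have hK2q : (τ + 3 ^ r * X) * q ≤ K' * q := mul_le_mul_of_nonneg_right hK2 hq.le
  have hK3q : (b * τ + b * ra + 2) * q ≤ K' * q := mul_le_mul_of_nonneg_right hK3 hq.le
  have hX0 : 0 < X := by linarith only [hX2, hbra]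
  have hXq0 : 0 < X * q := mul_pos hX0 hq
  have hvt : v ≤ t := by linarith only [hv', hτq]
  have hv0 : 0 ≤ v := by linarith only [hv', ht0, hK5q, hK₀q, hq]
  have hvq : q ≤ v := by linarith only [hv', ht0, hK5q, hK₀q, hq]
  have ht1' : t ≤ 1 := by linarith only [ht1, hKq]
  have hv1 : v ≤ 1 := hvt.trans ht1'
  have hdN := abs_le.1 (hdv (r + 1) (by omega))
  rw [hbE] at hdN
  have eN1 : b * ((-τ - 0) * q) = -(b * τ * q) := by ring
  rw [eN1] at hdN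
  have hL0 : ∀ i ≤ r + 1, 0 ≤ L i v v := fun i hi =>
    hv0.trans (R.low_at (by omega) hv0 le_rfl hv1)
  have hUvr : L r v v ≤ Pool.SWC.Lx L r v := Pool.SWC.le_lx L le_rfl v
  have hUvK : Pool.SWC.Lx L r v + 3 * K' * q ≤ 1 := by
    have h1 := Pool.SWC.lx_le L (r := r) (w := v) (x := 1 - 3 * K' * q) fun i hi => by
      have h2 := hroom i (by omega)
      linarith only [h2]
    linarith only [h1]
  have hE0 : ∀ i ≤ r, 0 ≤ Pool.W.PN18.eP r L (e₀ - μ / 2) v i ∧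
      L i v v + Pool.W.PN18.eP r L (e₀ - μ / 2) v i + 3 * K' * q ≤ 1 := by
    intro i hi
    rw [Pool.W.PN18.eP_lt L _ _ hi]
    refine ⟨le_max_left _ _, ?_⟩
    have h1 := hroom i (by omega)
    rcases max_choice 0 (Pool.SWC.Lx L r v - L i v v) with h3 | h3
    · rw [h3]
      linarith only [h1]
    · rw [h3]
      linarith only [hUvK]
  have hf : ∀ l, Pool.AJW.aX r (X * q) l ≤ 3 ^ r * X * q := fun l => by
    unfold Pool.AJW.aX
    have h1 : (3 : ℝ) ^ (r - 1 - l) ≤ 3 ^ r := pow_le_pow_right₀ (by norm_num) (by omega)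
    have h2 := mul_le_mul_of_nonneg_right h1 (mul_pos hX0 hq).le
    linarith only [h2]
  have hf2 : ∀ l, X * q ≤ Pool.AJW.aX r (X * q) l := fun l => Pool.AJW.aX_ge (mul_pos hX0 hq).le l
  have hf3 : ∀ l < r, ∀ l' < l, 3 * Pool.AJW.aX r (X * q) l ≤ Pool.AJW.aX r (X * q) l' := fun l hl l' hl' => by
    unfold Pool.AJW.aX
    have h1 : (3 : ℝ) ^ (r - 1 - l + 1) ≤ 3 ^ (r - 1 - l') :=
      pow_le_pow_right₀ (by norm_num) (by omega)
    rw [pow_succ] at h1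
    have h2 := mul_le_mul_of_nonneg_right h1 (mul_pos hX0 hq).le
    linarith only [h2]
  have hXq : (2 * (b * ra) + 2) * q ≤ X * q := mul_le_mul_of_nonneg_right hX2 hq.le
  have hℓ2q : (3 ^ r * X + ra + 1) * q ≤ ℓ * q := mul_le_mul_of_nonneg_right hℓ2 hq.le
  have hℓ3q : (b * ra + ra + 1) * q ≤ ℓ * q := mul_le_mul_of_nonneg_right hℓ3 hq.le
  have hvn : t + V₀ * q + Pool.PKG.pzD ra b * q ≤ v := by
    have := mul_le_mul_of_nonneg_right hV₀ hq.le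
    linarith only [this, hv']
  have hvnv : t + V₀ * q ≤ v := by
    have := mul_nonneg hD0.le hq.le
    linarith only [hvn, this]
  have hVv : ra * q + R₁ * q + v ≤ t := by
    have := mul_le_mul_of_nonneg_right hτa.le hq.le
    linarith only [this, hv']
  -- the grid windows
  obtain ⟨G', hG'⟩ : ∃ G' : Set ℝ, G' = {w | ∃ k ≤ M + 1, w = t + W k * q} := ⟨_, rfl⟩
  have hGm : ∀ w, w ∈ G' ↔ ∃ k ≤ M + 1, w = t + W k * q := fun w => by rw [hG']; rfl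
  have hvG' : v ∈ G' := (hGm v).2 ⟨0, Nat.zero_le _, by rw [hW0, hv]⟩
  -- the family
  obtain ⟨Φ, hΦE⟩ : ∃ Φ : Pool.CR99.FmX (r + 2), Φ = fun J F A V z z' g =>
      Pool.AJX.LbX F c 0 (r + 2) (max D D * max 1 D) (e' * q) (Pool.W.PN18.eP r L (e₀ - μ / 2) v) v
        (fun _ => Pool.SWC.Lx L r v + μ / 4) (fun i => L i v v) A z z' g ∧
      Pool.ALT.NzQ Ψ₀ c r (c (r + 1)) D D D D (t + V₀ * q) v p₁ p₂ (e₀ - μ / 2)
        (Pool.SWC.Lx L r v + μ / 4)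
        (L (r + 1) v v - e' * q / 2) (t - R₁ * q) (pa₁ (M + 1)) (pa₂ (M + 1)) (e₀ - μ / 2)
        (Pool.SWC.Lx L r (t - R₁ * q) + μ / 4)
        (L (r + 1) (t - R₁ * q) (t - R₁ * q) - e' * q / 2) J F A V z z' (fun y => g y (r + 1)) :=
    ⟨_, rfl⟩
  have hrows := Pool.CR99.rows_nz htm' hpos' (Ψ := Pool.PN18.PsQ Ψ₀ c r D (max D D * max 1 D) (t + V₀ * q) v
      (t - R₁ * q) p₁ p₂ (e₀ - μ / 2) (Pool.SWC.Lx L r v + μ / 4) (L (r + 1) v v - e' * q / 2)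
      (pa₁ (M + 1)) (pa₂ (M + 1)) (e₀ - μ / 2)
      (Pool.SWC.Lx L r (t - R₁ * q) + μ / 4)
      (L (r + 1) (t - R₁ * q) (t - R₁ * q) - e' * q / 2) (ℓ * q) (e' * q)
      (Pool.W.PN18.eP r L (e₀ - μ / 2) v) (fun _ => Pool.SWC.Lx L r v + μ / 4) (fun i => L i v v)
      (Pool.AJW.nX r (fun l x => L l x x) v (X * q))) (Φ := Φ)
    (c := c) (r := r) (K := max D D * max 1 D) (K1 := max D D * max 1 D) (D := D) (k := k)
    hr (sn := fun l x => L l x x) (G := G') (n := Pool.AJW.nX r (fun l x => L l x x) v (X * q))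
    (f := Pool.AJW.aX r (X * q)) (Sl := Sl) (E := Pool.W.PN18.eP r L (e₀ - μ / 2) v)
    (rd := fun _ => Pool.SWC.Lx L r v + μ / 4) (v := v) (Q := ra * q) (lam := ℓ * q)
    (ρ := 8 * (e' * q))
    (ρ₀ := ms * q) (φ := e' * q) (Λ := b) (h := h) (h' := h * a) (δ₁ := 2 * ε * q) (g₀ := q)
    (e := e' * q)
    (by
      rw [hΦE]
      rintro J F A V z z' g hg
      exact hg.1)
    (by
      rw [hΦE]
      rintro J F A V C z z' G₁ G₂ cc ⟨g', h1, h2, h3, h4, h5, h6⟩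
      exact ⟨g', ⟨h1, h3 ▸ h4⟩, h2, h3, h5⟩)
    (Ψ₀ := Ψb) (vn := t + V₀ * q) (p₁ := p₁) (p₂ := p₂) (eN := e₀ - μ / 2)
    (uN := Pool.SWC.Lx L r v + μ / 4) (pN := L (r + 1) v v - e' * q / 2)
    (by rw [hΨb]; exact Pool.CR99.BlF.hd le_rfl) hvnv ?_ ?_ ?_ hv0 hvG' hraq.le ?_ (mul_pos hms0 hq)
    (by linarith only [he]) he.le (by linarith only [he]) ?_ ?_ (by rw [hbE]; exact hb0) ?_
    (fun l _ => rfl) ?_ ?_ ?_ ?_ hq ?_ ?_ ?_ ?_ ?_ ?_ (by linarith only [hεq]) hh1 hFN hel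
    (by linarith only [hk1, hv', htn.1]) (by linarith only [hk1, hVv, htn.2, hR₁q, hK₀q, hτq])
    hdl (by rw [hbE]; exact hdlb) (by rw [hbE]; exact hph) le_rfl ?_ ?_ ?_ he ?_ ?_
    (δ := δ * (ra * q)) ?_ N₀
  rotate_left
  · -- the natural labels
    intro w hw _ _
    obtain ⟨k', hk', rfl⟩ := (hGm w).1 hw
    refine ⟨pa₁ k', pa₂ k', e₀ - μ / 2, Pool.SWC.Lx L r (t + W k' * q) + μ / 4,
      L (r + 1) (t + W k' * q) (t + W k' * q) - e' * q / 2, ?_, ?_⟩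
    · show L (r + 1) (t + W k' * q) (t + W k' * q) - e' * q ≤
        L (r + 1) (t + W k' * q) (t + W k' * q) - e' * q / 2
      linarith only [he]
    · rw [hΦE, hΨ₀]
      rintro J F A V z z' g ⟨-, hg⟩
      exact Pool.CR99.nzqE_nzq (n := M + 2) hg (show k' < M + 2 by omega)
  · show L (r + 1) v v - e' * q ≤ L (r + 1) v v - e' * q / 2
    linarith only [he]
  · -- the chains
    intro w hw
    obtain ⟨k', hk', rfl⟩ := (hGm w).1 hw
    obtain ⟨rd, h1, h2⟩ := hcu' _ (hWG k' hk')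
    exact ⟨_, rd, fun i _ hi => h1 i (by omega), h2⟩
  · -- the gaps
    intro x hx1 hx2
    obtain ⟨k', w1, w2⟩ := hWy ((x - t) / q) (by
      rw [le_div_iff₀ hq]
      linarith only [hx1, hv']) (by
      rw [div_le_iff₀ hq]
      linarith only [hx2, hVv])
    refine ⟨t + W k' * q, (hGm _).2 ⟨k', w1, rfl⟩, ?_⟩
    have e1 : t + W k' * q - x = (W k' - (x - t) / q) * q := by
      field_simp
      ring
    rw [e1, abs_mul, abs_of_pos hq]
    exact mul_le_mul_of_nonneg_right w2 hq.le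
  · linarith only [hK1q, ht1, hvt, hq]
  · -- the slopes
    intro l hl
    have h1 : 0 ≤ Sl l ∧ Sl l ≤ b := by
      rcases Nat.lt_trichotomy l r with h1 | h1 | h1
      · have h2 := R.kd l (by omega)
        rw [hκ l h1] at h2
        have h3 : Sl l = 1 := h2
        rw [h3]
        exact ⟨zero_le_one, by linarith only [ha, hab]⟩
      · rw [h1, haE]
        exact ⟨ha0.le, hab⟩
      · have h2 : l = r + 1 := by omega
        rw [h2, hbE]
        exact ⟨hb0.le, le_rfl⟩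
    refine ⟨h1.1, h1.2, fun w hw1 hw2 => (hdw l (by omega) w hw1 ?_).trans ?_⟩
    · linarith only [hw2, hVv, hR₁q]
    · linarith only [hεeq, hεq]
  · show 8 * (e' * q) + 2 * (e' * q) ≤ L (r + 1) v v
    have h1 : v ≤ L (r + 1) v v := R.low_at (by omega) hv0 le_rfl hv1
    linarith only [h1, hvq, he2q, hq]
  · intro l hl l' hl'
    have h1 := hf3 l hl l' hl'
    have h2 := hf2 l
    have e1 : b * (ra * q) = b * ra * q := by ring
    rw [e1]
    linarith only [h1, h2, hXq, he2q, hbraq, hq]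
  · intro l hl
    have h2 := hf2 l
    have e1 : b * (ra * q) = b * ra * q := by ring
    rw [e1]
    linarith only [h2, hXq, he2q, hbraq, hq]
  · intro l hl
    have h1 := hf l
    linarith only [h1, hℓ2q, he2q, hq]
  · have e1 : b * (ra * q) = b * ra * q := by ring
    rw [e1]
    linarith only [hℓ3q, he2q, hq]
  · -- the exponents
    intro i hi
    rcases Nat.lt_or_ge i (r + 1) with h1 | h1
    · have h2 := hE0 i (by omega)
      have h3 := hL0 i (by omega)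
      exact ⟨h2.1, by linarith only [h2.2, h3, hKq]⟩
    · have h2 : i = r + 1 := by omega
      rw [h2, Pool.W.PN18.eP_last]
      have h3 := hL0 (r + 1) le_rfl
      exact ⟨by linarith only [b3, b4, hμ], by linarith only [b8, h3, hμ]⟩
  · intro i hi
    show 0 ≤ Pool.SWC.Lx L r v + μ / 4 ∧ Pool.SWC.Lx L r v + μ / 4 + q ≤ 1
    have h3 := (hL0 r (by omega)).trans hUvr
    exact ⟨by linarith only [h3, hμ], by linarith only [b6, hρ₀, hμ, h4q, hq]⟩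
  · intro i hi
    have h1 := (hE0 i (by omega)).2
    have h2 := hf i
    show L i v v + Pool.AJW.aX r (X * q) i + Pool.W.PN18.eP r L (e₀ - μ / 2) v i + q ≤ 1
    linarith only [h1, h2, hK2q, hτq, hq, hK5q, hK₀q]
  · rw [haE, Pool.W.PN18.eP_lt L _ _ le_rfl, max_eq_right (sub_nonneg.2 hUvr)]
    show L r v v + a * (ra * q) + (Pool.SWC.Lx L r v - L r v v) + q ≤ 1
    have e1 : a * (ra * q) ≤ b * ra * q := by
      have := mul_le_mul_of_nonneg_right hab hraq.le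
      linarith only [this]
    linarith only [hUvK, hK3q, e1, hKq, hq, mul_pos (mul_pos hb0 hτ0) hq]
  · rw [hbE, Pool.W.PN18.eP_last]
    show L (r + 1) v v + b * (ra * q) + (e₀ - μ / 2) + q ≤ 1
    have e1 : b * (ra * q) = b * ra * q := by ring
    rw [e1]
    linarith only [b8, hqμ, hbraq, hq, hμ]
  · -- the raw rows
    intro Q' hQ1 hQ2
    rw [hbE] at hQ2
    have e1 : b * (ra * q) = b * ra * q := by ring
    rw [e1] at hQ2
    have hbτq : b * ra * q ≤ b * τ * q := by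
      have h1 : ra ≤ τ := by linarith only [hτa, hR₁]
      exact mul_le_mul_of_nonneg_right (mul_le_mul_of_nonneg_left h1 hb0.le) hq.le
    have hbτ0 : ε * q * 2 ≤ b * τ * q := by
      have h1 : τ - R₁ - ra ≤ τ := by linarith only [hR₁, hra0]
      have h2 := mul_le_mul_of_nonneg_right (hbτ.trans (mul_le_mul_of_nonneg_left h1 hb0.le)) hq.le
      linarith only [h2, hεeq, hεq]
    have h1 := R'.raw (by omega) hε (x := L (r + 1) t t - L (r + 1) v v) (y := Q')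
      ?_ hQ1 ?_ ?_ ?_
    · have e2 : L (r + 1) t t - (L (r + 1) t t - L (r + 1) v v) = L (r + 1) v v := by ring
      change Pool.OWN68.RawN S' ((range (r + 1)).image c) (c (r + 1))
        (L (r + 1) t t - (L (r + 1) t t - L (r + 1) v v)) Q' h (2 * ε * q) at h1
      rw [e2] at h1
      exact h1
    · linarith only [hdN.2, hbτq, hεeq, he2q, hbraq, hεq, hbτ0]
    · linarith only [hdN.1, hK3q, hbraq, hεeq, he2q, hq]
    · linarith only [hQ2, hK3q, mul_pos (mul_pos hb0 hτ0) hq, hq]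
    · have := hL0 (r + 1) le_rfl
      show L (r + 1) t t - L (r + 1) v v ≤ L (r + 1) t t
      linarith only [this]
  · rw [Pool.W.PN18.eP_last]
    have h1 := min_le_right (8 * (e' * q) / 8) (q / 2)
    linarith only [h1, h4q, hμ, hq]
  · have h1 := min_le_right (8 * (e' * q) / 8) (q / 2)
    show Pool.SWC.Lx L r v + μ / 4 + min (8 * (e' * q) / 8) (q / 2) ≤ ρ₀
    linarith only [h1, h4q, hμ, b6, hq]
  · have h1 := min_le_right (8 * (e' * q) / 8) (q / 2)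
    show π₀ ≤ L (r + 1) v v - min (8 * (e' * q) / 8) (q / 2)
    linarith only [h1, h4q, hμ, b7, hq]
  · refine le_min (le_of_eq ?_) (by linarith only [he2q, hq])
    ring
  · rw [hbE]
    exact mul_le_mul_of_nonneg_left hab hh0
  · -- the errors
    have h1 := mul_le_mul_of_nonneg_right hδ1 hq.le
    have h2 := mul_le_mul_of_nonneg_right hδ2 hq.le
    have h3 := mul_le_mul_of_nonneg_right hδ3 (mul_pos hra0 hq).le
    have h4 := mul_le_mul_of_nonneg_left hk2 hel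
    have h6 : 0 < δ * ra * q := mul_pos (mul_pos hδ0 hra0) hq
    have h7 : a * ms * q ≤ b * ms * q :=
      mul_le_mul_of_nonneg_right (mul_le_mul_of_nonneg_right hab hms0.le) hq.le
    rw [haE, hbE]
    linarith only [h1, h2, h3, h4, h6, h7, hbms, hεeq, hεq, he]
  -- the context and the value
  have hnatp := hlv (e' * q) he
  have hbnat : L (r + 1) v v + b * (ra * q) ≤
      L (r + 1) (t - R₁ * q) (t - R₁ * q) - e' * q / 2 := by
    have hR₁v : v ≤ t - R₁ * q := by linarith only [hVv, hraq]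
    have h1 := abs_le.1 (hdw (r + 1) (by omega) (t - R₁ * q) hR₁v (by linarith only [hR₁q]))
    rw [hbE] at h1
    have e1 : b * (t - R₁ * q - v) = b * (τ - R₁ - ra) * q + b * (ra * q) := by
      rw [hv']
      ring
    rw [e1] at h1
    have h2 := mul_le_mul_of_nonneg_right hbτ hq.le
    linarith only [h1.1, h2, hεeq, hεq, he]
  have PE := Pool.W.PSQ78.paire_core (D := D) hr R' hκ (a := a) (b := b) (ρ := ra) (τ := τ)
    (ta := t - R₁ * q) hra0 hb0 hτ0 (by rw [← hv]; linarith only [hVv, hraq])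
    (by linarith only [hR₁q]) hcu' hΨs hΨl (Pn := L (r + 1) (t + V₀ * q) (t + V₀ * q))
    (e := e' * q) (E := Pool.W.PN18.eP r L (e₀ - μ / 2) v) (rd := fun _ => Pool.SWC.Lx L r v + μ / 4)
    (K := max D D * max 1 D) (h' := h * a) (N₀ := N₀) (X := X) (φ := φ) (kf := kf) (ℓ := ℓ)
    (pf := pf) (Nf := Nf) (δ := δ) (by rw [← hv]; exact c4) ?_ le_rfl ?_ ?_ ?_ ?_ ?_ ?_ ?_ ?_ ?_
    (by rw [← hv]; exact hvn) hD0.le htG hWj' hX1 hX3 hkf1 hkf2 hℓ1 hK1 hK2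
    (by linarith only [hK5, hK₀]) hφ0 hφ1 hεφ he (by
      have := mul_le_mul_of_nonneg_right he1 hq.le
      linarith only [this]) (by linarith only [he2q]) hpf hNf hδ0
    (by rw [← hv]; rw [haE, hbE] at hrows; exact hrows.1)
    (by rw [← hv]; rw [haE, hbE] at hrows; exact hrows.2)
  · rw [← hv] at PE
    have hL0r : 0 ≤ Pool.SWC.Lx L r v := (hL0 r (by omega)).trans hUvr
    refine ⟨S', c1, fun τ J F A h => hs₁ τ J F A (c2 τ J F A h), _, _, e' * q, _, _, _, 3 * K' * q,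
      Pool.SWC.Lx L r v + μ / 4, _, _, t + V₀ * q, _, _, _, _, he, le_rfl, ?_, ?_, fun i hi => ⟨?_, ?_, ?_, ?_⟩,
      ?_, PE⟩
    · linarith only [hK2q, hτq, hKq]
    · linarith only [b6, hρ₀, hμ]
    · exact (hE0 i hi).1
    · exact (hE0 i hi).2
    · linarith only [hL0r, hμ]
    · exact le_rfl
    · rw [hv']
      linarith only []
  · -- the labels of the chain
    rw [← hv]
    refine Pool.S6C.Bas.mono 0 hnatp ?_
    rintro J - F A ⟨V₁, z, z', g', h1⟩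
    have hJ0 : (0 : ℝ) ≤ J := Nat.cast_nonneg J
    refine ⟨V₁, z, z', g', fun i hi1 hi2 => ?_⟩
    refine (h1 i hi1 hi2).mono (Finset.Subset.refl _) hDK (Nat.floor_le_floor
      (mul_le_mul_of_nonneg_right ?_ hJ0)) (Nat.floor_le_floor
      (mul_le_mul_of_nonneg_right ?_ hJ0)) le_rfl
    · rw [Pool.W.PN18.eP_lt L _ _ (by omega)]
    · show Pool.SWC.Lx L r v + e' * q ≤ Pool.SWC.Lx L r v + μ / 4 + e' * q
      linarith only [hμ]
  · rw [Pool.W.PN18.eP_last]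
    linarith only [he]
  · show Pool.SWC.Lx L r v + μ / 4 ≤ Pool.SWC.Lx L r v + μ / 4 + e' * q
    linarith only [he]
  · rw [← hv]
    linarith only [he]
  · rw [← hv]
    exact hbnat
  · intro i hi
    have h2 := hE0 i hi.le
    have h3 := hL0 i (by omega)
    linarith only [h2.2, h3, hKq]
  · intro i hi
    show 0 ≤ Pool.SWC.Lx L r v + μ / 4
    linarith only [(hL0 r (by omega)).trans hUvr, hμ]
  · linarith only [he]
  · linarith only [hq]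
  · linarith only [ht0, hV₀q, hq]

end Pool.W.CR99
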