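import Pool.Agent.H99.D2.Ref
import Pool.Agent.H31.W.H18.PN.Pyb
import Pool.Agent.H31.W.H63.E1.F1pe
import Pool.Agent.H31.W.H80.ASB.Cb1
import Pool.Agent.H31.W.H99.D2.Ree
import Pool.Agent.H31.W.H99.D2.Sup
import Pool.Agent.H3.W.Bas
import Pool.Agent.H31.W1.H91.FR.QpG
import Pool.Agent.H57.SWC.Lx
import Pool.Agent.H57.SWC.Lxa

/-!
# Jointly nonfull pairs of any radius at the windows of full rate

`pairYE_sup`: from a supply `BlSup` of the closed slope of the last coordinate over the place `r`, if the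
last slope is at least the slope before: the pairs `PairYE`. `f1ud_sup`: so the first jet of the place `r`
or no drop, for nonresonant slopes.
-/

set_option autoImplicit false

namespace Pool.W.CR99

open Pool.CR99

open Finset Real MvPolynomial
open Pool.Agent.H49.Ent Pool.Agent.H32.Dense Pool.STK Pool.KA Pool.KSAT Pool.K2S Pool.PB Pool.GEN
open Pool.S6C Pool.RCD Pool.LA91 Pool.OWN68 Pool.AJW Pool.AJX Pool.CHT Pool.PKG Pool.ALT Pool.PN18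
open Pool.GRW
open Pool.V0F (LbU)
open Pool.ASM (AdmN)


/-- Full rate for a smaller slack and larger degree. -/
theorem zfR_mono {r : ℕ} {Sl : ℕ → ℝ} {b b' : Pool.ALT.PosR × ℕ} {S : Pool.PB.PCl (r + 2)}
    {P : List (Fin (r + 2)) × Fin (r + 2) → ℝ → ℝ → ℝ} {θ : ℝ} {c : ℕ → Fin (r + 2)}
    {Pt : ℝ → ℝ → ℝ} {rt : ℝ → ℝ} {L T : ℕ → ℝ → ℝ → ℝ} {κ : ℕ → Pool.PKG.Kg} {G : Set ℝ} {g : ℝ}
    (h : Pool.W.PN18.ZfR r Sl b S P θ c Pt rt L T κ G g) (h1 : (b.1 : ℝ) ≤ b'.1) (h2 : b'.2 ≤ b.2) :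
    Pool.W.PN18.ZfR r Sl b' S P θ c Pt rt L T κ G g := by
  intro i hi hD φ e k₀ he hrt
  have := h i hi (hD.trans h2) φ e k₀ he hrt
  linarith only [this, h1]

/-- **Jointly nonfull pairs of any radius** from the supply of the closed slope, at the scales where the
conclusion of `F1UD` fails. -/
theorem pairYE_sup {r : ℕ} (hr : 1 ≤ r) {h : ℝ} (hh : 0 < h) (hh1 : h ≤ 1) {Sl : ℕ → ℝ}
    {κ : ℕ → Pool.PKG.Kg} (hκ : ∀ l < r, κ l = .one) (ha : 1 < Sl r) (hab : Sl r ≤ Sl (r + 1))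
    {ι : Type} {Q : Pool.PKG.PropG (r + 2) ι} {R₁ : ℝ} (hR₁ : 0 ≤ R₁)
    (hS : Pool.W.CR99.BlSup (r + 2) r h Sl κ Q (Pool.W.PN18.ZfR r Sl) R₁) {del : ℝ} (hdel : 0 < del) :
    Pool.W.CR99.PairYE (r + 2) r h Sl κ
      (Pool.LA91.sumQ (Pool.LA91.sumQ (Pool.W.ALT.AltR : Pool.PKG.PropG (r + 2) Pool.ALT.AltUI) (Pool.W.PKG.CuQ : Pool.PKG.PropG (r + 2) Unit)) Q) (Pool.W.PN18.ZfR r Sl)
      (fun dd S c L q t pf pr Nf => ¬ Pool.CR99.AltF (r + 2) r Sl del dd S c L q t pf pr Nf) R₁ := by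
  intro al hal K₀ hK₀ S₀ hS₀
  obtain ⟨a, haE⟩ : ∃ a, Sl r = a := ⟨_, rfl⟩
  obtain ⟨b, hbE⟩ : ∃ b, Sl (r + 1) = b := ⟨_, rfl⟩
  obtain ⟨ra, hraE⟩ : ∃ ra, Pool.CR99.pzR a R₁ = ra := ⟨_, rfl⟩
  obtain ⟨τ, hτE⟩ : ∃ τ, Pool.CR99.pzU a R₁ = τ := ⟨_, rfl⟩
  have ha' : 1 < a := by rw [← haE]; exact ha
  have hab' : a ≤ b := by rw [← haE, ← hbE]; exact hab
  have ha0 : 0 < a := by linarith only [ha']
  have hb0 : 0 < b := by linarith only [ha0, hab']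
  have hra0 : 0 < ra := by rw [← hraE]; exact Pool.CR99.pzR_pos ha' hR₁
  have hτa : ra + R₁ < τ := by rw [← hraE, ← hτE]; exact Pool.CR99.pzU_gt ha'
  have hτ0 : 0 < τ := by linarith only [hra0, hτa, hR₁]
  have hbra : 0 < b * ra := mul_pos hb0 hra0
  have hr0 : (0 : ℝ) ≤ r := Nat.cast_nonneg r
  have hD0 : 0 < Pool.PKG.pzD ra b := by
    have hfl : 0 < (⌊b⌋₊ : ℝ) + 1 - b := by
      have := Nat.lt_floor_add_one b
      linarith only [this]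
    unfold Pool.PKG.pzD
    have h1 : 0 < ra * b + 4 := by
      have := mul_pos hra0 hb0
      linarith only [this]
    positivity
  have hlog : 0 < Real.log 2 := Real.log_pos (by norm_num)
  obtain ⟨V₀, hV₀, Kr, Nr, Ar, Vr, hKr, hAV, HS⟩ := hS al hal K₀ hK₀ del hdel S₀ hS₀
    (τ + Pool.PKG.pzD ra b) (by linarith only [hτa, hra0, hD0])
  obtain ⟨D₁, hD1, HL⟩ := Pool.W.ALT.rec_lab r S₀ hS₀
  rw [haE, hτE, hraE, hbE]
  refine ⟨Kr, Nr, Ar, Vr, hKr, hAV, fun S₂ hS₂ dd hdd => ?_⟩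
  obtain ⟨Dg, HS⟩ := HS S₂ hS₂
  obtain ⟨D, hDE⟩ : ∃ D, D = max D₁ Dg := ⟨_, rfl⟩
  have hD₁ : D₁ ≤ D := by rw [hDE]; exact le_max_left _ _
  have hDg : Dg ≤ D := by rw [hDE]; exact le_max_right _ _
  refine ⟨max D D * max 1 D, h * a, -V₀ - τ, mul_pos hh ha0, ?_, ?_, fun δ hδ N₀ hN₀ => ?_⟩
  · have := mul_le_mul_of_nonneg_right hh1 ha0.le
    linarith only [this]
  · have := mul_le_mul_of_nonneg_right hh1 ha0.le
    linarith only [this, hab']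
  obtain ⟨φs, kfs, hφs, HS⟩ := HS dd hdd
  refine ⟨max (2 * (6 * τ)) (2 * (b * ra) + 2), fun X hX => ?_⟩
  have hX1 := (le_max_left _ _).trans hX
  have hX2 := (le_max_right _ _).trans hX
  have hX0 : 0 < X := by linarith only [hX2, hbra]
  have h3X : 0 < 3 ^ r * X := by positivity
  refine ⟨min φs (min (1 / 8) (X / (32 * (r + 1)))), max kfs (max (3 ^ r * X)
    (b * ra + 2 * (r + 1) * (1 / 8) + 1)), by positivity, fun φ hφ0 hφ kf hkf => ?_⟩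
  have hφ1 := hφ.trans ((min_le_right _ _).trans (min_le_left _ _))
  have hX3 : 32 * ((r : ℝ) + 1) * φ ≤ X := by
    have h1 := hφ.trans ((min_le_right _ _).trans (min_le_right _ _))
    rw [le_div_iff₀ (by positivity)] at h1
    linarith only [h1]
  have hkf1 := ((le_max_left _ _).trans (le_max_right _ _)).trans hkf
  have hkf2 : b * ra + 2 * (r + 1) * φ + 1 ≤ kf := by
    have h1 := ((le_max_right _ _).trans (le_max_right _ _)).trans hkf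
    have h2 : 2 * ((r : ℝ) + 1) * φ ≤ 2 * (r + 1) * (1 / 8) :=
      mul_le_mul_of_nonneg_left hφ1 (by positivity)
    linarith only [h1, h2]
  refine ⟨max (kf + τ) (max (3 ^ r * X + ra + 1) (b * ra + ra + 1)),
    fun ℓ hℓ e₁ he₁ => ?_⟩
  have hℓ1 := (le_max_left _ _).trans hℓ
  have hℓ2 := ((le_max_left _ _).trans (le_max_right _ _)).trans hℓ
  have hℓ3 := ((le_max_right _ _).trans (le_max_right _ _)).trans hℓ
  have hℓ0 : 0 < ℓ := by linarith only [hℓ3, hbra, hra0]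
  have hδa : 0 < δ * ra := mul_pos hδ hra0
  have hbτ0 : 0 < b * (τ - R₁ - ra) := mul_pos hb0 (by linarith only [hτa])
  -- the accuracy
  obtain ⟨e', he'E⟩ : ∃ e', e' = min (min e₁ (φ / 8)) (min (min (1 / 64)
    (b * (τ - R₁ - ra) / 2)) (δ * ra / (4 * (8 * r + 49)))) := ⟨_, rfl⟩
  have he' : 0 < e' := by rw [he'E]; positivity
  have he0 : e' ≤ e₁ := by rw [he'E]; exact (min_le_left _ _).trans (min_le_left _ _)
  have he1 : e' ≤ φ / 8 := by rw [he'E]; exact (min_le_left _ _).trans (min_le_right _ _)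
  have he2 : e' ≤ 1 / 64 := by
    rw [he'E]
    exact (min_le_right _ _).trans ((min_le_left _ _).trans (min_le_left _ _))
  have he3 : 2 * e' ≤ b * (τ - R₁ - ra) := by
    have : e' ≤ b * (τ - R₁ - ra) / 2 := by
      rw [he'E]
      exact (min_le_right _ _).trans ((min_le_left _ _).trans (min_le_right _ _))
    linarith only [this]
  have he4 : (8 * r + 49) * e' ≤ δ * ra / 4 := by
    have : e' ≤ δ * ra / (4 * (8 * r + 49)) := by
      rw [he'E]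
      exact (min_le_right _ _).trans (min_le_right _ _)
    rw [le_div_iff₀ (by positivity)] at this
    linarith only [this]
  obtain ⟨ls, K₁s, Nvs, Vvs, hVvs, HS⟩ := HS φ hφ0 (hφ.trans (min_le_left _ _)) kf
    ((le_max_left _ _).trans hkf) (e' / 32) (by positivity)
  -- the slack
  obtain ⟨δs, hδsE⟩ : ∃ δs, δs = min (min (δ / 8) (b * Real.log 2 / 2)) (ls.1 : ℝ) := ⟨_, rfl⟩
  have hls0 := ls.1.2
  have hδs : 0 < δs := by
    rw [hδsE]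
    exact lt_min (by positivity) hls0
  have hδs1 : δs ≤ δ / 8 := by rw [hδsE]; exact (min_le_left _ _).trans (min_le_left _ _)
  have hδs2 : δs ≤ b * Real.log 2 / 2 := by
    rw [hδsE]
    exact (min_le_left _ _).trans (min_le_right _ _)
  have hδs3 : δs ≤ ls.1 := by rw [hδsE]; exact min_le_right _ _
  have hKτ : 0 < 2 * (K₀ + τ) := by linarith only [hK₀, hτ0]
  obtain ⟨el, hel0, hel⟩ := exists_rat_btwn (show 0 < min (min (δ / 8)
    (b * Real.log 2 / 2)) (δ * ra / 4 / (2 * (K₀ + τ))) by positivity)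
  have hel1 := hel.le.trans ((min_le_left _ _).trans (min_le_left _ _))
  have hel2 := hel.le.trans ((min_le_left _ _).trans (min_le_right _ _))
  have hel3 : (el : ℝ) * (2 * (K₀ + τ)) ≤ δ * ra / 4 := by
    have := hel.le.trans (min_le_right _ _)
    rwa [le_div_iff₀ hKτ] at this
  have helq : (0 : ℚ) < el := by exact_mod_cast hel0
  -- the windows
  obtain ⟨ms, hmsE⟩ : ∃ ms, ms = e' / (32 * b) := ⟨_, rfl⟩
  have hms0 : 0 < ms := by rw [hmsE]; positivity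
  have hams : b * ms ≤ e' / 32 := by
    rw [hmsE]
    refine le_of_eq ?_
    field_simp
  obtain ⟨M, W, hW0, hW1, hWm, hWs, hWb, hWy⟩ := Pool.CR99.grid_exe (τ := τ) (R₁ := R₁)
    (by linarith only [hτa, hra0]) hms0
  obtain ⟨V₂, hV₂⟩ : ∃ V₂ : ℕ → ℝ, V₂ = fun k => if k ≤ r then Pool.AJW.jfV r (-τ) X k else
    if k = r + 1 then -(K₀ + 1) else if k = r + 2 then 0 else if k = r + 3 then V₀ else
    if k < r + 4 + (M + 2) then W (k - (r + 4)) else Vvs (k - (r + 4 + (M + 2))) := ⟨_, rfl⟩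
  have v1 : ∀ k ≤ r, V₂ k = Pool.AJW.jfV r (-τ) X k := fun k hk => by
    rw [hV₂]
    exact if_pos hk
  have v2 : V₂ (r + 1) = -(K₀ + 1) := by
    rw [hV₂]
    show (if r + 1 ≤ r then _ else if r + 1 = r + 1 then _ else _) = _
    rw [if_neg (by omega), if_pos rfl]
  have v3 : V₂ (r + 2) = 0 := by
    rw [hV₂]
    show (if r + 2 ≤ r then _ else if r + 2 = r + 1 then _ else if r + 2 = r + 2 then _ else _) = _
    rw [if_neg (by omega), if_neg (by omega), if_pos rfl]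
  have v4 : V₂ (r + 3) = V₀ := by
    rw [hV₂]
    show (if r + 3 ≤ r then _ else if r + 3 = r + 1 then _ else if r + 3 = r + 2 then _ else
      if r + 3 = r + 3 then _ else _) = _
    rw [if_neg (by omega), if_neg (by omega), if_neg (by omega), if_pos rfl]
  have v5 : ∀ k < M + 2, V₂ (r + 4 + k) = W k := fun k hk => by
    rw [hV₂]
    show (if r + 4 + k ≤ r then _ else if r + 4 + k = r + 1 then _ else
      if r + 4 + k = r + 2 then _ else if r + 4 + k = r + 3 then _ else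
      if r + 4 + k < r + 4 + (M + 2) then W (r + 4 + k - (r + 4)) else _) = _
    rw [if_neg (by omega), if_neg (by omega), if_neg (by omega), if_neg (by omega),
      if_pos (by omega), Nat.add_sub_cancel_left]
  have v6 : ∀ k, V₂ (r + 4 + (M + 2) + k) = Vvs k := fun k => by
    rw [hV₂]
    show (if r + 4 + (M + 2) + k ≤ r then _ else if r + 4 + (M + 2) + k = r + 1 then _ else
      if r + 4 + (M + 2) + k = r + 2 then _ else if r + 4 + (M + 2) + k = r + 3 then _ else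
      if r + 4 + (M + 2) + k < r + 4 + (M + 2) then _ else
      Vvs (r + 4 + (M + 2) + k - (r + 4 + (M + 2)))) = _
    rw [if_neg (by omega), if_neg (by omega), if_neg (by omega), if_neg (by omega),
      if_neg (by omega), Nat.add_sub_cancel_left]
  have hV₀n : V₀ ≤ 0 := by linarith only [hV₀, hτ0, hD0]
  have hbτ1 : 0 < b * τ := mul_pos hb0 hτ0
  obtain ⟨K₂, hK₂⟩ : ∃ K₂, K₂ = τ + 3 ^ r * X + K₀ + ℓ + b * τ + b * ra + 4 - V₀ + |K₁s| :=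
    ⟨_, rfl⟩
  have hK1s0 := abs_nonneg K₁s
  have hK1s1 := le_abs_self K₁s
  have hVb : ∀ k < r + 4 + (M + 2) + Nvs, -K₂ ≤ V₂ k ∧ V₂ k ≤ K₂ := by
    intro k hk
    rcases Nat.lt_or_ge k (r + 4) with h1 | h1
    · rcases Nat.lt_or_ge r k with h2 | h2
      · rcases (show k = r + 1 ∨ k = r + 2 ∨ k = r + 3 by omega) with h3 | h3 | h3
        · rw [h3, v2]
          exact ⟨by linarith only [hK₂, hτ0, h3X, hℓ0, hbτ1, hbra, hV₀n, hK1s0],
            by linarith only [hK₂, hτ0, h3X, hℓ0, hbτ1, hbra, hV₀n, hK1s0, hK₀]⟩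
        · rw [h3, v3]
          exact ⟨by linarith only [hK₂, hτ0, h3X, hℓ0, hbτ1, hbra, hV₀n, hK1s0, hK₀],
            by linarith only [hK₂, hτ0, h3X, hℓ0, hbτ1, hbra, hV₀n, hK1s0, hK₀]⟩
        · rw [h3, v4]
          exact ⟨by linarith only [hK₂, hτ0, h3X, hℓ0, hbτ1, hbra, hV₀n, hK1s0, hK₀],
            by linarith only [hK₂, hτ0, h3X, hℓ0, hbτ1, hbra, hV₀n, hK1s0, hK₀]⟩
      · rw [v1 k h2]
        obtain ⟨h3, h4⟩ := Pool.AJW.jfV_mem (r := r) (vv := -τ) (X := X)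
          (by linarith only [hτ0]) hX0.le h2
        exact ⟨by linarith only [h3, hK₂, hℓ0, hbτ1, hbra, hV₀n, hK1s0, hK₀],
          by linarith only [h4, hK₂, hτ0, h3X, hℓ0, hbτ1, hbra, hV₀n, hK1s0, hK₀]⟩
    · rcases Nat.lt_or_ge k (r + 4 + (M + 2)) with h2 | h2
      · obtain ⟨i, rfl⟩ : ∃ i, k = r + 4 + i := ⟨k - (r + 4), by omega⟩
        rw [v5 i (by omega)]
        obtain ⟨h3, h4⟩ := hWb i (by omega)
        exact ⟨by linarith only [h3, hK₂, h3X, hℓ0, hbτ1, hbra, hV₀n, hK1s0, hK₀],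
          by linarith only [h4, hR₁, hK₂, hτ0, h3X, hℓ0, hbτ1, hbra, hV₀n, hK1s0, hK₀]⟩
      · obtain ⟨i, rfl⟩ : ∃ i, k = r + 4 + (M + 2) + i := ⟨k - (r + 4 + (M + 2)), by omega⟩
        rw [v6 i]
        obtain ⟨h3, h4⟩ := hVvs i (by omega)
        exact ⟨by linarith only [h3, hK₂, hτ0, h3X, hℓ0, hbτ1, hbra, hV₀n, hK1s1, hK₀],
          by linarith only [h4, hK₂, hτ0, h3X, hℓ0, hbτ1, hbra, hV₀n, hK1s1, hK₀]⟩
  refine ⟨(⟨δs, hδs⟩, max (max D D * max 1 D) ls.2), K₂, r + 4 + (M + 2) + Nvs, V₂, hVb,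
    fun K' hK' => ?_⟩
  have hK'0 : 0 < K' := by
    linarith only [hK', hK₂, hτ0, h3X, hℓ0, hbτ1, hbra, hV₀n, hK1s0, hK₀]
  have hK1s' : K₁s ≤ K' := by
    linarith only [hK', hK₂, hτ0, h3X, hℓ0, hbτ1, hbra, hV₀n, hK1s1, hK₀]
  obtain ⟨εs, hεs, HS⟩ := HS K' hK1s'
  refine ⟨min εs (min (φ / 2) (e' / 128)), by positivity, fun ε hε hεε S g₀ P θ P₂ θ₂ Eb e₂ c
    Pt rt L T G g hG hg hder hZ => ?_⟩
  have hεφ : 2 * ε ≤ φ := by
    have := hεε.trans ((min_le_right _ _).trans (min_le_left _ _))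
    linarith only [this]
  have hεe : 128 * ε ≤ e' := by
    have := hεε.trans ((min_le_right _ _).trans (min_le_right _ _))
    linarith only [this]
  have hlin : 0 < 2 * (b * ra) + 4 := by linarith only [hbra]
  obtain ⟨ps, Ms, B₀s, B₁s, hBs, HS⟩ := HS ε hε (hεε.trans (min_le_left _ _)) S g₀ P θ P₂ θ₂ Eb
    e₂ c Pt rt L T G g hG hg hder (Pool.W.CR99.zfR_mono hZ hδs3 (le_max_right _ _))
  refine ⟨fun | 0 => Sum.inl (Sum.inl ((range r, max D D * max 1 D), el))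
              | 1 => Sum.inl (Sum.inr ())
              | (j + 2) => Sum.inr (ps j), Ms + 2,
    fun | 0 => 0 | 1 => 0 | (j + 2) => B₀s j, fun | 0 => 1 | 1 => 1 | (j + 2) => B₁s j,
    fun j hj => ?_, fun k₀ hk₀ => ?_⟩
  · match j with
    | 0 => exact one_pos
    | 1 => exact one_pos
    | (j + 2) => exact hBs j (by omega)
  have hA : Pool.W.ALT.AltR ((range r, max D D * max 1 D), el) (k₀ 0) S P θ c Pt rt L T κ G g :=
    hk₀ 0 (by omega)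
  have hC : Pool.W.PKG.CuQ () (k₀ 1) S P θ c Pt rt L T κ G g := hk₀ 1 (by omega)
  obtain ⟨qs, hqs, HS⟩ := HS (fun j => k₀ (j + 2)) (fun j hj => hk₀ (j + 2) (by omega))
  obtain ⟨e₀, ρ₀, π₀, a1, a2, a3, a4⟩ := Pool.W.ALT.alt_ful helq hA hg (β := Sl (r + 1) * Real.log 2)
    (δ := δs) (D := max (max D D * max 1 D) ls.2) (le_max_left _ _)
    (fun i i1 i2 i3 i4 i5 i6 i7 i8 φ e k₀ he hrt =>
      hZ i ⟨i1, i2, i3, i4, i5, i6, i7⟩ i8 φ e k₀ he hrt)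
  obtain ⟨μ, hμE⟩ : ∃ μ : ℝ, μ = (1 / 2) ^ (k₀ 0) := ⟨_, rfl⟩
  have hμ : 0 < μ := by rw [hμE]; positivity
  rw [← hμE] at a2 a3
  have hKK : 0 < K₀ + K' := by linarith only [hK₀, hK'0]
  refine ⟨min qs (min (μ / (K₀ + K')) (min (μ / 4 / (2 * (b * ra) + 4))
    (μ / (K₀ + τ)))), by positivity, fun q t x hq hx N A V N' V' R hp hv pf pr Nf hpf
    hpr1 hpr2 hNf hYr => ?_⟩
  have hq0 := R.q0
  have hq1 : (K₀ + K') * q ≤ μ := by
    have h1 := hq.le.trans ((min_le_right _ _).trans (min_le_left _ _))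
    rw [le_div_iff₀ hKK] at h1
    linarith only [h1]
  have hq2 : (2 * (b * ra) + 4) * q ≤ μ / 4 := by
    have h1 := hq.le.trans ((min_le_right _ _).trans ((min_le_right _ _).trans (min_le_left _ _)))
    rw [le_div_iff₀ hlin] at h1
    linarith only [h1]
  have hq3 : (K₀ + τ) * q ≤ (1 / 2) ^ (k₀ 0) := by
    rw [← hμE]
    have h1 := hq.le.trans ((min_le_right _ _).trans ((min_le_right _ _).trans
      (min_le_right _ _)))
    rw [le_div_iff₀ (by linarith only [hK₀, hτ0])] at h1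
    linarith only [h1]
  have hnear : ∀ x : ℝ, |x| ≤ K' → |t + x * q - g| ≤ μ := fun x hx => by
    have h1 := abs_le.1 R.near
    have h2 := abs_le.1 hx
    have h3 := mul_le_mul_of_nonneg_right h2.1 hq0.le
    have h4 := mul_le_mul_of_nonneg_right h2.2 hq0.le
    rw [abs_le]
    exact ⟨by linarith only [h1.1, h3, hq1], by linarith only [h1.2, h4, hq1]⟩
  -- the supply
  obtain ⟨S₃, hne₃, hs₃, κ', hκ', hX⟩ := (HS q t (fun j => x (j + 2)) (hq.trans_le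
    (min_le_left _ _)) (fun j hj => hx (j + 2) (by omega)) N A V N' V' R hp (fun k hk => by
      obtain ⟨j, hj, e⟩ := hv (r + 4 + (M + 2) + k) (by omega)
      exact ⟨j, hj, e.trans (v6 k)⟩) pf pr Nf (fun l hl => (hpf l hl)) hpr1 hpr2 hNf).resolve_left
    hYr
  have R₃ := (R.sub hne₃ hs₃).wins hv
  have hVK : ∀ k < r + 4 + (M + 2) + Nvs, |V₂ k| ≤ K' := fun k hk => by
    obtain ⟨h1, h2⟩ := hVb k hk
    rw [abs_le]
    exact ⟨by linarith only [h1, hK'], by linarith only [h2, hK']⟩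
  obtain ⟨S₁, hne₁, hs₁, R₁', hlab⟩ := HL R₃ hK'0 hVK (fun w hw => by
      obtain ⟨rd, h1, h2⟩ := hC w hw
      exact ⟨rd, h1, h2.sub hs₃⟩) (e₀ := e₀) (ρ₀ := ρ₀) (π₀ := π₀) hμ
    (fun k hk => Pool.W.PN18.altC_sub hs₃ (a3 _ (R₃.memG.2 k hk) (hnear _ (hVK k hk))))
  have hs₁' : ∀ (τ : ℝ) (J : ℕ) (F : Pool.KA.Fam (r + 2) J) (A : F.Ω → Prop), S₁.St τ J F A →
      S.St τ J F A := fun τ J F A h1 => hs₃ τ J F A (hs₁ τ J F A h1)
  have PR := Pool.W.CR99.pairye_rec (D := D) (Dg := Dg) hr hne₁ hs₁' R₁' hκ haE hbE ha' hab' hraE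
    hτE hR₁ hh.le hh1 hε hK₀ hC hμ a2 a3 hnear (fun k hk => by
      obtain ⟨⟨E, h1, h2⟩, h3⟩ := hlab k hk
      refine ⟨⟨E, h1, Pool.CR99.alw_deg h2 hD₁⟩, fun e he => Pool.S6C.Bas.mono 0 (h3 e he) ?_⟩
      rintro J - F A ⟨V₁, z, z', g', h4⟩
      exact ⟨V₁, z, z', g', fun i hi1 hi2 => (h4 i hi1 hi2).mono (Finset.Subset.refl _) hD₁
        le_rfl le_rfl le_rfl⟩)
    (el := el) (dl := δs + el) (k₀ := k₀ 0) hel0.le (by linarith only [hδs, hel0])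
    (by linarith only [hδs2, hel2]) (fun S' h1 h2 w₀ h3 h4 h5 => by
      obtain ⟨φ, h6, h7⟩ := a4 S' h1 h2 w₀ h3 h4 h5
      rw [hbE] at h6
      exact ⟨φ, by linarith only [h6], h7⟩) hq3 (V₀ := V₀) (ρ := e' / 32) (κ' := κ')
    (by linarith only [hV₀]) ⟨r + 3, by omega, v4⟩
    (by linarith only [hK', hK₂, hτ0, h3X, hℓ0, hbτ1, hbra, hK1s0, hK₀]) hDg hκ'
    (Pool.S6C.Bas.sub hs₁ hX) hW0 hW1 hWm hms0 hWs hWy (fun k hk => ⟨r + 4 + k, by omega,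
      v5 k (by omega)⟩) ⟨r + 1, by omega, v2⟩ ⟨r + 2, by omega, v3⟩
    (fun k hk => ⟨k, by omega, v1 k hk⟩) hX1 hX2 hX3 hkf1 hkf2 hℓ1 hℓ2 hℓ3
    (by linarith only [hK', hK₂, hτ0, h3X, hbτ1, hbra, hV₀n, hK1s0, hK₀])
    (by linarith only [hK', hK₂, hℓ0, hbτ1, hbra, hV₀n, hK1s0, hK₀])
    (by linarith only [hK', hK₂, hτ0, h3X, hℓ0, hV₀n, hK1s0, hK₀])
    (by linarith only [hK', hK₂, h3X, hℓ0, hbτ1, hbra, hV₀n, hK1s0])
    hφ0 hφ1 hεφ he' he1 he2 hεe le_rfl he3 hams hq2 (fun l hl => (hpf l hl).1) hNf hδ he4 hel3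
    (by linarith only [hδs1, hel1]) N₀
  obtain ⟨S', b1, b2, Ψ, I₂, e, E₂, r₂, p₂, m₁, ρ, E, rd, vn, Pn, En, Rn, K₁, b3, b4, b5, b6, b7,
    b8, b9⟩ := PR
  exact ⟨S', b1, b2, Ψ, I₂, e, E₂, r₂, p₂, m₁, ρ, E, rd, vn, Pn, En, Rn, K₁, b3,
    b4.trans (mul_le_mul_of_nonneg_right he0 hq0.le), b5, b6, b7, b8, b9⟩

/-- **The first jet of the place `r` or no drop** from the supply of the closed slope. -/
theorem f1ud_sup {r : ℕ} (hr : 1 ≤ r) {h : ℝ} (hh : 0 < h) (hh1 : h ≤ 1) {Sl : ℕ → ℝ}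
    {κ : ℕ → Pool.PKG.Kg} (hκ : ∀ l < r, κ l = .one) (ha : 1 < Sl r) (hab : Sl r ≤ Sl (r + 1))
    (hres : Pool.ASM.NoRes (Sl r) (Sl (r + 1)))
    {ι : Type} {Q : Pool.PKG.PropG (r + 2) ι} {R₁ : ℝ} (hR₁ : 0 ≤ R₁)
    (hS : Pool.W.CR99.BlSup (r + 2) r h Sl κ Q (Pool.W.PN18.ZfR r Sl) R₁) :
    Pool.W.PKG.F1UD (r + 2) r h Sl κ
      (Pool.LA91.sumQ (Pool.LA91.sumQ (Pool.LA91.sumQ (Pool.W.ALT.AltR : Pool.PKG.PropG (r + 2) Pool.ALT.AltUI) (Pool.W.PKG.CuQ : Pool.PKG.PropG (r + 2) Unit)) Q) Pool.W.LA91.FaQ)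
      (Pool.W.PN18.ZfR r Sl) := by
  intro al hal K₀ hK₀ del hdel S₀ hS₀
  have H : Pool.W.PKG.F1UY (r + 2) r h Sl κ _ _ _ := Pool.W.CR99.f1pe hr (by omega) hR₁ hκ ha
    (by linarith only [ha, hab]) hres (Pool.W.CR99.pairYE_sup hr hh hh1 hκ ha hab hR₁ hS hdel)
  obtain ⟨Kr, Nr, Ar, Vr, hKr, hAV, H⟩ := H al hal K₀ hK₀ S₀ hS₀
  refine ⟨Kr, Nr, Ar, Vr, hKr, hAV, fun S₂ hS₂ dd hdd => ?_⟩
  obtain ⟨lam, kf, φ, hkf, hφ, K₁, Nv, Vv, hVv, H⟩ := H S₂ hS₂ dd hdd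
  refine ⟨lam, kf, φ, hkf, hφ, K₁, Nv, Vv, hVv, fun K' hK' => ?_⟩
  obtain ⟨ε₀, hε₀, H⟩ := H K' hK'
  refine ⟨ε₀, hε₀, fun ε hε hεε S g₀ P θ P₂ θ₂ Eb e₂ c Pt rt L T G g hG hg hder hZ => ?_⟩
  obtain ⟨p, M, B₀, B₁, hB, H⟩ := H ε hε hεε S g₀ P θ P₂ θ₂ Eb e₂ c Pt rt L T G g hG hg hder hZ
  refine ⟨p, M, B₀, B₁, hB, fun k₀ hk₀ => ?_⟩
  obtain ⟨q₁, hq₁, H⟩ := H k₀ hk₀
  refine ⟨q₁, hq₁, fun q t x hq hx N A V N' V' R hp hv pf pr Nf hpf hpr1 hpr2 hNf => ?_⟩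
  by_cases hY : Pool.CR99.AltF (r + 2) r Sl del dd S c L q t pf pr Nf
  · exact hY
  · exact Or.inl (H q t x hq hx N A V N' V' R hp hv pf pr Nf hpf hpr1 hpr2 hNf hY)

end Pool.W.CR99

namespace Pool.W.ASM

open Pool.ASM

open Finset Real
open Pool.GEN Pool.PKG Pool.SW Pool.ALT Pool.PN18 Pool.CR99
open Pool.LA91 (FaQ sumQ HerQ her_sum her_fa aePG_fa aePG_sum)

/-- **The supply of the closed slope of the last coordinate over the place 2**, for the kind `k` of the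
place 2 and the slopes with `Φ`: closed far back, natural at `t - R₁ q`; or the conclusion of `F1UD`. -/
def SupF (k : Pool.PKG.Kg) (Φ : (ℕ → ℝ) → Prop) (R₁ : (ℕ → ℝ) → ℝ) : Prop :=
  ∃ (ι : Type) (_ : Countable ι) (Q : Pool.PKG.PropG 4 ι), Pool.W.PKG.AePG 4 Q ∧ Pool.LA91.HerQ Q ∧
    ∀ h : ℝ, 0 < h → h ≤ 1 → ∀ Sl : ℕ → ℝ, Pool.ASM.SlB k Sl → Φ Sl →
      0 ≤ R₁ Sl ∧ Pool.W.CR99.BlSup 4 2 h Sl (Pool.PKG.kg4 .one .one k .stp) Q (Pool.W.PN18.ZfR 2 Sl) (R₁ Sl)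

/-- **The first jet of the place 2** at the windows of full rate, if the last slope is at least the slope
of the place 2, without resonance, from the supply of the closed slope. -/
theorem cbF_sup {k : Pool.PKG.Kg} (hk : k = .stp ∨ k = .thin ∨ k = .sta) {Φ : (ℕ → ℝ) → Prop}
    {R₁ : (ℕ → ℝ) → ℝ} (H : Pool.W.ASM.SupF k Φ R₁) :
    Pool.W.ASM.CbF k (fun Sl => Sl 2 ≤ Sl 3 ∧ Pool.ASM.NoRes (Sl 2) (Sl 3) ∧ Φ Sl) := by
  obtain ⟨ι, hc, Q, hA, hH, H⟩ := H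
  refine ⟨((Pool.ALT.AltUI ⊕ Unit) ⊕ ι) ⊕ (ℕ × ℕ × ℚ × ℚ), inferInstance,
    Pool.LA91.sumQ (Pool.LA91.sumQ (Pool.LA91.sumQ (Pool.W.ALT.AltR : Pool.PKG.PropG 4 Pool.ALT.AltUI) (Pool.W.PKG.CuQ : Pool.PKG.PropG 4 Unit)) Q) Pool.W.LA91.FaQ,
    Pool.W.LA91.aePG_sum (Pool.W.LA91.aePG_sum (Pool.W.LA91.aePG_sum (Pool.W.ALT.aePG_altR 4) (Pool.W.ALT.her_altR 4) (Pool.W.PKG.aePG_cu 4))
      (Pool.LA91.her_sum (Pool.W.ALT.her_altR 4) (Pool.W.PKG.her_cu 4)) hA) (Pool.LA91.her_sum (Pool.LA91.her_sum (Pool.W.ALT.her_altR 4) (Pool.W.PKG.her_cu 4)) hH)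
      (Pool.W.LA91.aePG_fa 4), Pool.LA91.her_sum (Pool.LA91.her_sum (Pool.LA91.her_sum (Pool.W.ALT.her_altR 4) (Pool.W.PKG.her_cu 4)) hH) (Pool.W.LA91.her_fa 4), ?_⟩
  rintro h hh hh1 Sl hS ⟨hab, hres, hΦ⟩
  obtain ⟨hR, H⟩ := H h hh hh1 Sl hS hΦ
  have ha : 1 < Sl 2 := by
    rcases hk with hk | hk | hk
    · have := hS.stp hk
      linarith
    · exact hS.thin hk
    · have := hS.sta hk
      linarith
  exact Pool.W.CR99.f1ud_sup (r := 2) (by norm_num) hh hh1 (fun l hl => by interval_cases l <;> rfl) ha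
    hab hres hR H

end Pool.W.ASM
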