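import Pool.Agent.H99.D2.Thn
import Pool.Agent.H31.W.H99.D2.Ref
import Pool.Agent.H31.W.H99.D2.Und
import Pool.Agent.H3.W.Bas
import Pool.Agent.H31.W1.H91.FR.QpG
import Pool.Agent.H57.SWC.Lx
import Pool.Agent.H57.SWC.Lxa

/-!
# The supply of the closed slope over a thin place

`BlX.sel`: a part of the windows. `blSup_uni`: the supply `BlSup` with `R₁ = 0` over a place `r` thin or of
slope one, for a last slope `b < a + 1`. `cbF_thin_lt`: `CbF` for the thin kind and `a < b < a + 1`.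
-/

set_option autoImplicit false

namespace Pool.W.CR99

open Pool.CR99

open Finset Real MvPolynomial
open Pool.Agent.H49.Ent Pool.Agent.H32.Dense Pool.STK Pool.KA Pool.KSAT Pool.K2S Pool.PB Pool.GEN
open Pool.S6C Pool.RCD Pool.LA91 Pool.OWN68 Pool.AJW Pool.AJX Pool.CHT Pool.PKG Pool.ALT Pool.PN18
open Pool.D2R Pool.D2G30 Pool.V1E


/-- **The supply of the closed slope** over a place thin or of slope one, for a last slope `b < a + 1`. -/
theorem blSup_uni {m r : ℕ} (hr : r + 1 < m) {h : ℝ} {Sl : ℕ → ℝ} {κ : ℕ → Pool.PKG.Kg}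
    (hκu : κ r = .one ∨ κ r = .thin) (hκN : κ (r + 1) = .stp ∨ κ (r + 1) = .sta)
    (ha : 1 ≤ Sl r) (hab : Sl r ≤ Sl (r + 1)) (hb : Sl (r + 1) < Sl r + 1) {Λ : Type} (lam₀ : Λ)
    (Z : Pool.PKG.PropZ m Λ) : Pool.W.CR99.BlSup m r h Sl κ (Pool.W.PKG.CuQ : Pool.PKG.PropG m Unit) Z 0 := by
  intro al hal K₀ hK₀ del hdel S₀ hS₀ R₀ hR₀
  obtain ⟨a, haE⟩ : ∃ a, Sl r = a := ⟨_, rfl⟩
  obtain ⟨b, hbE⟩ : ∃ b, Sl (r + 1) = b := ⟨_, rfl⟩
  rw [haE] at ha hab hb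
  rw [hbE] at hab hb
  obtain ⟨γ, hγ⟩ : ∃ γ, γ = 1 - (b - a) := ⟨_, rfl⟩
  have hγ0 : 0 < γ := by linarith only [hγ, hb]
  have hγ1 : γ ≤ 1 := by linarith only [hγ, hab]
  obtain ⟨E, hE⟩ : ∃ E, E = (R₀ + 1) / γ := ⟨_, rfl⟩
  have hEγ : γ * E = R₀ + 1 := by rw [hE]; field_simp
  have hE0 : 0 < E := by rw [hE]; positivity
  have hER : R₀ + 1 ≤ E := by
    have := mul_le_mul_of_nonneg_right hγ1 hE0.le
    linarith only [this, hEγ]
  obtain ⟨a', ha'⟩ : ∃ a', a' = max 1 ((b - 1) * E) := ⟨_, rfl⟩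
  have ha1 : 1 ≤ a' := by rw [ha']; exact le_max_left _ _
  have ha2 : (b - 1) * E ≤ a' := by rw [ha']; exact le_max_right _ _
  refine ⟨-R₀, le_rfl, a' + E, 3, fun _ => a', fun k => if k = 0 then -E else if k = 1 then -R₀
    else 0, by linarith only [ha1, hE0], fun k hk => ?_, fun S₂ hS₂ => ?_⟩
  · dsimp only
    split_ifs
    · exact ⟨by linarith only [ha1], by linarith only [ha1, hE0], by linarith only [hE0]⟩
    · exact ⟨by linarith only [ha1, hER], by linarith only [ha1, hR₀], by linarith only [hE0]⟩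
    · exact ⟨by linarith only [ha1, hE0], by linarith only [ha1], by linarith only [hE0]⟩
  obtain ⟨D, hD, H⟩ := Pool.W.CR99.blx_uni m r S₂ (hS₀.trans hS₂)
  refine ⟨max (Pool.CR99.bmd D) D, fun dd hdd => ⟨1, 0, one_pos, fun φ hφ0 hφ kf hkf ρ hρ => ?_⟩⟩
  have hρ' : 0 < min ρ 1 := lt_min hρ one_pos
  obtain ⟨ε₀, hε₀, H⟩ := H (α := a) (b := b) (ρ := min ρ 1) (a := a') (Ve := -E) (V₀ := -R₀)
    (Vm := 0) (μ := (b - a) * E) hρ' (min_le_right _ _) (by linarith only [hER])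
    (by linarith only [hR₀]) (by linarith only [ha1]) (by
      have e1 : (b - 1) * (0 - -E) = (b - 1) * E := by ring
      rw [e1]
      linarith only [ha2, hE0]) (by
      have e1 : (b - a) * (0 - -E) = (b - a) * E := by ring
      rw [e1]) (mul_nonneg (by linarith only [hab]) hE0.le) (by
      have e1 : (b - a) * E = E - γ * E := by rw [hγ]; ring
      rw [e1, hEγ]
      linarith only [])
  refine ⟨lam₀, a' + E + 1, 0, fun _ => 0, fun j hj => absurd hj (Nat.not_lt_zero j),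
    fun K' hK' => ⟨ε₀, hε₀, fun ε hε hεε S g₀ P θ P₂ θ₂ Eb e₂ c Pt rt L T G g hG hg hder hZ =>
    ⟨fun _ => (), 0, fun _ => 0, fun _ => 0, fun j hj => absurd hj (Nat.not_lt_zero j),
    fun k₀ hk₀ => ⟨1, one_pos, fun q t x hq hx N A V N' V' R hp hv pf pr Nf hpf hpr1 hpr2 hNf =>
    Or.inr ⟨S, R.ne, fun τ J F A h => h, ?_⟩⟩⟩⟩⟩
  have hw : ∀ x : ℝ, x = -E ∨ x = -R₀ ∨ x = 0 → ∃ j < N, A j = a' ∧ V j = x := by
    rintro x (rfl | rfl | rfl)
    · obtain ⟨j, h1, h2, h3⟩ := hp 0 (by norm_num)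
      exact ⟨j, h1, h2, h3⟩
    · obtain ⟨j, h1, h2, h3⟩ := hp 1 (by norm_num)
      exact ⟨j, h1, h2, h3⟩
    · obtain ⟨j, h1, h2, h3⟩ := hp 2 (by norm_num)
      exact ⟨j, h1, h2, h3⟩
  obtain ⟨κ', hκ', hX⟩ := H R hr hε.le hεε haE hbE hκu hκN (by linarith only [hK', ha1])
    (by linarith only [hK', hE0]) (by linarith only [hK', hE0, ha1])
    (W := fun k => if k = 0 then -R₀ else 0) (n := 1) rfl (fun k hk => by
      show -E ≤ (if k = 0 then -R₀ else 0 : ℝ) ∧ (if k = 0 then -R₀ else 0 : ℝ) ≤ 0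
      split_ifs
      · exact ⟨by linarith only [hER], by linarith only [hR₀]⟩
      · exact ⟨by linarith only [hE0], le_rfl⟩) (fun k hk => by
      show ∃ j < N, A j = a' ∧ V j = (if k = 0 then -R₀ else 0 : ℝ)
      split_ifs
      · exact hw _ (Or.inr (Or.inl rfl))
      · exact hw _ (Or.inr (Or.inr rfl))) (hw _ (Or.inl rfl))
  have hq := R.q0
  have hρq : min ρ 1 * q ≤ ρ * q := mul_le_mul_of_nonneg_right (min_le_left _ _) hq.le
  have e0 : t + (if 1 = 0 then -R₀ else 0 : ℝ) * q = t - 0 * q := by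
    rw [if_neg one_ne_zero]
    ring
  refine ⟨κ', hκ', hX.sel (le_max_left _ _) (le_max_right _ _) ?_ (fun _ => 1)
    (fun k _ => by norm_num) (fun k _ => ?_) (fun k _ => ?_) (fun k _ => ?_) le_rfl⟩
  · linarith only [hρq]
  · exact e0.symm
  · show L (r + 1) (t - 0 * q) (t - 0 * q) - ρ * q ≤ L (r + 1)
      (t + (if 1 = 0 then -R₀ else 0 : ℝ) * q) (t + (if 1 = 0 then -R₀ else 0 : ℝ) * q) -
        min ρ 1 * q
    rw [e0]
    linarith only [hρq]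
  · show L r (t + (if 1 = 0 then -R₀ else 0 : ℝ) * q) (t + (if 1 = 0 then -R₀ else 0 : ℝ) * q) -
      L (r + 1) (t + (if 1 = 0 then -R₀ else 0 : ℝ) * q)
        (t + (if 1 = 0 then -R₀ else 0 : ℝ) * q) + min ρ 1 * q ≤
      L r (t - 0 * q) (t - 0 * q) - L (r + 1) (t - 0 * q) (t - 0 * q) + ρ * q
    rw [e0]
    linarith only [hρq]

end Pool.W.CR99

namespace Pool.W.ASM

open Pool.ASM

open Finset Real
open Pool.GEN Pool.PKG Pool.SW Pool.ALT Pool.PN18 Pool.CR99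
open Pool.LA91 (FaQ sumQ HerQ her_sum her_fa aePG_fa aePG_sum)


/-- The supply for a thin place 2 and a last slope `b < a + 1`. -/
theorem supF_thin : Pool.W.ASM.SupF .thin (fun Sl => Sl 2 < Sl 3 ∧ Sl 3 < Sl 2 + 1) (fun _ => 0) :=
  ⟨Unit, inferInstance, Pool.W.PKG.CuQ, Pool.W.PKG.aePG_cu 4, Pool.W.PKG.her_cu 4, fun h _ _ Sl hS ⟨h1, h2⟩ => ⟨le_rfl,
    Pool.W.CR99.blSup_uni (r := 2) (by norm_num) (Or.inr rfl) (Or.inl rfl) (hS.thin rfl).le h1.le h2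
      (⟨1, one_pos⟩, 0) _⟩⟩

/-- **The first jet of a thin place 2** at the windows of full rate, for `a < b < a + 1`. -/
theorem cbF_thin_lt : Pool.W.ASM.CbF .thin (fun Sl => Sl 2 < Sl 3 ∧ Sl 3 < Sl 2 + 1) := by
  obtain ⟨ι, h1, Q, h2, h3, H⟩ := Pool.W.ASM.cbF_sup (k := .thin) (Or.inr (Or.inl rfl)) Pool.W.ASM.supF_thin
  exact ⟨ι, h1, Q, h2, h3, fun h hh hh1 Sl hS hΦ => H h hh hh1 Sl hS
    ⟨hΦ.1.le, Pool.ASM.nores_lt hΦ.1 hΦ.2, hΦ⟩⟩

end Pool.W.ASM
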